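import Pool.Agent.W36.GK.K20

/-! The balanced functions are orthogonal to arbitrary bounded functions along systems of forms. -/

set_option autoImplicit false

namespace Pool.Agent.W36.GK

open Finset Pool.Agent.W36.GU Pool.Agent.W36.GV Filter Topology

/-- a class with small Gowers norms is orthogonal to arbitrary bounded functions along systems of forms -/
theorem forms_orth {D r : ℕ} (Λ : Fin r → Fin D → ℤ) (h0 : ∀ i, Λ i ≠ 0) (hΛ : ∀ i j, i ≠ j → Indep (Λ i) (Λ j))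
    {F : Set (ℤ → ℝ)} (hF : ∀ f ∈ F, B1 f) (hS : Sm (r + 1) F) {ε : ℝ} (hε : 0 < ε) : ∃ X0 : ℕ, ∀ X : ℕ, X0 ≤ X →
    ∀ c : Fin r → ℤ, ∀ P P' : Fin D → ℤ, (∀ j, P' j - P j ≤ X) → ∀ f ∈ F, ∀ M N : ℕ, M ≤ N → N ≤ X → ∀ i0 : Fin r,
    ∀ g : Fin r → ℤ → ℝ, (∀ i, B1 (g i)) →
    |∑ x ∈ box P P', win M N f (dot (Λ i0) x + c i0) * ∏ i ∈ univ.erase i0, g i (dot (Λ i) x + c i)| ≤ ε * (X : ℝ) ^ D := by
  classical
  have h1 : ∀ i0 : Fin r, ∃ δ : ℝ, 0 < δ ∧ ∃ X0 : ℕ, ∀ X : ℕ, X0 ≤ X → ∀ c : Fin r → ℤ, ∀ P P' : Fin D → ℤ,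
    (∀ j, P' j - P j ≤ X) → ∀ g : Fin r → ℤ → ℝ, (∀ i, B1 (g i)) → Sup (g i0) X → GN (r + 1) (g i0) X ≤ δ * (X : ℝ) ^ (r + 2) →
    |∑ x ∈ box P P', ∏ i, g i (dot (Λ i) x + c i)| ≤ ε * (X : ℝ) ^ D :=
    fun i0 => forms_small Λ h0 hΛ i0 hε
  choose δ' hδ' X0' h using h1
  choose X1 h2 using fun i0 : Fin r => hS (δ' i0) (hδ' i0)
  refine ⟨∑ i, (X0' i + X1 i), fun X hX c P P' hP f hf M N hMN hN i0 g hg => ?_⟩
  have hX0 : ∀ i, X0' i + X1 i ≤ X := fun i => (single_le_sum (f := fun i => X0' i + X1 i) (fun _ _ => Nat.zero_le _) (mem_univ i)).trans hX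
  have h3 := h i0 X (by have := hX0 i0; omega) c P P' hP (fun i => if i = i0 then win M N f else g i) (by
    intro i
    by_cases hi : i = i0
    · simp only [hi, if_true]; exact win_abs (hF f hf) _ _
    · simp only [if_neg hi]; exact hg i) (by simpa using win_sup f M hN) (by
    simp only [if_true]
    exact h2 i0 X (by have := hX0 i0; omega) f hf M N hMN hN)
  refine le_trans (le_of_eq ?_) h3
  congr 1
  apply sum_congr rfl; intro x _
  rw [← mul_prod_erase univ (fun i => (if i = i0 then win M N f else g i) (dot (Λ i) x + c i)) (mem_univ i0)]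
  simp only [if_true]
  congr 1
  apply prod_congr rfl; intro i hi
  rw [if_neg (ne_of_mem_erase hi)]

end Pool.Agent.W36.GK
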