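import Pool.Agent.W36.GV.GV1

/-! Iterated derivatives. -/

set_option autoImplicit false

namespace Pool.Agent.W36.GK

open Finset Pool.Agent.W36.GU Pool.Agent.W36.GV

/-- iterated derivative -/
def Dl : (d : ℕ) → (ℤ → ℝ) → (Fin d → ℤ) → (ℤ → ℝ)
  | 0, F, _ => F
  | d + 1, F, h => Dl d (De (h 0) F) (Fin.tail h)

/-- the box -/
noncomputable def bx (d X : ℕ) : Finset (Fin d → ℤ) := Fintype.piFinset (fun _ => Icc (-(X : ℤ)) X)

theorem mem_bx {d X : ℕ} {h : Fin d → ℤ} : h ∈ bx d X ↔ ∀ k, |h k| ≤ X := by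
  unfold bx
  simp only [Fintype.mem_piFinset, mem_Icc, abs_le]

theorem card_bx (d X : ℕ) : (bx d X).card = (2 * X + 1) ^ d := by
  unfold bx
  rw [Fintype.card_piFinset, prod_const, card_univ, Fintype.card_fin, Int.card_Icc]
  congr 1
  omega

theorem card_bx_le {X : ℕ} (hX : 1 ≤ X) (d : ℕ) : ((bx d X).card : ℝ) ≤ 3 ^ d * (X : ℝ) ^ d := by
  rw [card_bx, ← mul_pow]
  push_cast
  apply pow_le_pow_left₀ (by positivity)
  have : (1 : ℝ) ≤ X := by exact_mod_cast hX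
  linarith

theorem sum_bx_zero {β : Type*} [AddCommMonoid β] (X : ℕ) (Φ : (Fin 0 → ℤ) → β) : ∑ h ∈ bx 0 X, Φ h = Φ (fun i => i.elim0) := by
  have : bx 0 X = {fun i => i.elim0} := by
    ext h
    rw [mem_bx, mem_singleton]
    constructor
    · intro _; ext i; exact i.elim0
    · intro _ k; exact k.elim0
  rw [this, sum_singleton]

theorem sum_bx_succ {β : Type*} [AddCommMonoid β] (d X : ℕ) (Φ : (Fin (d + 1) → ℤ) → β) :
    ∑ h ∈ bx (d + 1) X, Φ h = ∑ t ∈ Icc (-(X : ℤ)) X, ∑ h ∈ bx d X, Φ (Fin.cons t h) := by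
  rw [← sum_product']
  symm
  apply sum_nbij' (fun q : ℤ × (Fin d → ℤ) => (Fin.cons q.1 q.2 : Fin (d + 1) → ℤ)) (fun h => (h 0, Fin.tail h))
  · rintro ⟨t, h⟩ hq
    rw [mem_product, mem_bx, mem_Icc] at hq
    rw [mem_bx]
    intro k
    refine Fin.cases ?_ (fun k => ?_) k
    · simp only [Fin.cons_zero]; exact abs_le.2 hq.1
    · simp only [Fin.cons_succ]; exact hq.2 k
  · intro h hh
    rw [mem_bx] at hh
    rw [mem_product, mem_bx, mem_Icc]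
    exact ⟨abs_le.1 (hh 0), fun k => hh k.succ⟩
  · rintro ⟨t, h⟩ _; simp [Fin.tail_cons]
  · intro h _; exact Fin.cons_self_tail h
  · rintro ⟨t, h⟩ _; rfl

theorem Dl_cons (d : ℕ) (F : ℤ → ℝ) (t : ℤ) (h : Fin d → ℤ) : Dl (d + 1) F (Fin.cons t h) = Dl d (De t F) h := by
  rw [Dl, Fin.cons_zero, Fin.tail_cons]

theorem GN_Dl (m d : ℕ) (X : ℕ) : ∀ F : ℤ → ℝ, GN (m + d) F X = ∑ h ∈ bx d X, GN m (Dl d F h) X := by
  induction d with
  | zero => intro F; rw [sum_bx_zero]; rfl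
  | succ d ih =>
    intro F
    rw [sum_bx_succ]
    have : GN (m + (d + 1)) F X = ∑ t ∈ Icc (-(X : ℤ)) X, GN (m + d) (De t F) X := by
      rw [← Nat.add_assoc, GN]
    rw [this]
    apply sum_congr rfl
    intro t _
    rw [ih]
    apply sum_congr rfl
    intro h _
    rw [Dl_cons]

theorem Dl_B1 (d : ℕ) : ∀ {F : ℤ → ℝ}, B1 F → ∀ h : Fin d → ℤ, B1 (Dl d F h) := by
  induction d with
  | zero => intro F hF h; exact hF
  | succ d ih => intro F hF h; exact ih (De_B1 hF _) _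

theorem Dl_sup (d : ℕ) {X : ℕ} : ∀ {F : ℤ → ℝ}, Sup F X → ∀ h : Fin d → ℤ, Sup (Dl d F h) X := by
  induction d with
  | zero => intro F hF h; exact hF
  | succ d ih => intro F hF h; exact ih (De_sup hF _) _

theorem Dl_mul (d : ℕ) : ∀ (F G : ℤ → ℝ) (h : Fin d → ℤ) (n : ℤ), Dl d (fun n => F n * G n) h n = Dl d F h n * Dl d G h n := by
  induction d with
  | zero => intro F G h n; rfl
  | succ d ih =>
    intro F G h n
    simp only [Dl]
    rw [← ih]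
    congr 1
    ext n
    unfold De
    ring

theorem Dl_tr (d : ℕ) (t : ℤ) : ∀ (F : ℤ → ℝ) (h : Fin d → ℤ) (n : ℤ), Dl d (fun n => F (n + t)) h n = Dl d F h (n + t) := by
  induction d with
  | zero => intro F h n; rfl
  | succ d ih =>
    intro F h n
    simp only [Dl]
    rw [← ih]
    congr 1
    ext n
    show F (n + t) * F (n + h 0 + t) = F (n + t) * F (n + t + h 0)
    have : n + h 0 + t = n + t + h 0 := by ring
    rw [this]

theorem Dl_De (d : ℕ) (t : ℤ) (F : ℤ → ℝ) (h : Fin d → ℤ) (n : ℤ) : Dl d (De t F) h n = Dl d F h n * Dl d F h (n + t) := by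
  rw [← Dl_tr, ← Dl_mul]
  rfl

theorem De_Dl (d : ℕ) (t : ℤ) (F : ℤ → ℝ) (h : Fin d → ℤ) : De t (Dl d F h) = Dl d (De t F) h := by
  ext n
  rw [Dl_De]
  rfl

theorem Dl_dil (d : ℕ) (U : ℤ) : ∀ (F : ℤ → ℝ) (h : Fin d → ℤ) (n : ℤ),
    Dl d F (fun i => U * h i) (U * n) = Dl d (fun y => F (U * y)) h n := by
  induction d with
  | zero => intro F h n; rfl
  | succ d ih =>
    intro F h n
    simp only [Dl]
    have e1 : Fin.tail (fun i => U * h i) = fun i => U * (Fin.tail h) i := rfl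
    rw [e1, ih]
    congr 1
    ext n
    show F (U * n) * F (U * n + U * h 0) = F (U * n) * F (U * (n + h 0))
    rw [mul_add]

theorem Dl_split (d : ℕ) : ∀ (k : Fin (d + 1)) (F : ℤ → ℝ) (h : Fin (d + 1) → ℤ) (n : ℤ),
    Dl (d + 1) F h n = Dl d F (k.removeNth h) n * Dl d F (k.removeNth h) (n + h k) := by
  induction d with
  | zero =>
    intro k F h n
    obtain rfl : k = 0 := Fin.fin_one_eq_zero k
    rfl
  | succ d ih =>
    intro k F h n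
    refine Fin.cases ?_ (fun k => ?_) k
    · rw [← Dl_De]
      simp only [Dl]
      rw [Fin.removeNth_zero]
    · rw [Dl]
      rw [ih k]
      have e1 : (k.succ.removeNth h : Fin (d + 1) → ℤ) 0 = h 0 := by
        rw [Fin.removeNth_apply, Fin.succ_succAbove_zero]
      have e2 : Fin.tail (k.succ.removeNth h : Fin (d + 1) → ℤ) = k.removeNth (Fin.tail h) := by
        ext j
        show h (k.succ.succAbove j.succ) = h (k.succAbove j).succ
        rw [Fin.succ_succAbove_succ]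
      conv_rhs => rw [Dl, e1, e2]
      rfl

theorem Dl_zero {d : ℕ} {F : ℤ → ℝ} {X : ℕ} (hF : Sup F X) {h : Fin (d + 1) → ℤ} {k : Fin (d + 1)} (hk : (X : ℤ) ≤ |h k|) (n : ℤ) :
    Dl (d + 1) F h n = 0 := by
  rw [Dl_split d k]
  have := congrFun (De_zero (Dl_sup d hF (k.removeNth h)) hk) n
  exact this

/-- the exponential sums -/
noncomputable def ht (p : ℕ) [NeZero p] (X : ℕ) (F : ℤ → ℝ) (ξ : ZMod p) : ℂ := ∑ n ∈ Icc (1 : ℤ) X, (F n : ℂ) * psi p (ξ * n)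

theorem A_ht (p : ℕ) [NeZero p] (g : ℤ → ℝ) (X : ℕ) (h : ℤ) (ξ : ZMod p) : A p g X h ξ = ht p X (De h g) ξ := rfl

theorem ht_le {p : ℕ} [NeZero p] {F : ℤ → ℝ} (hF : B1 F) (X : ℕ) (ξ : ZMod p) : ‖ht p X F ξ‖ ≤ X :=
  phase_triv hF (fun n => (psi_norm _).le)

theorem ht_sq {p : ℕ} [NeZero p] {F : ℤ → ℝ} (hF : B1 F) {X : ℕ} (hp : X ≤ p) : ∑ ξ : ZMod p, ‖ht p X F ξ‖ ^ 2 ≤ p * X := by
  unfold ht
  rw [parseval_inj (Icc (1 : ℤ) X) (fun n : ℤ => (n : ZMod p)) (cast_inj hp)]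
  apply mul_le_mul_of_nonneg_left _ (Nat.cast_nonneg _)
  have h1 : ∀ n ∈ Icc (1 : ℤ) X, ‖(F n : ℂ)‖ ^ 2 ≤ 1 := by
    intro n _
    rw [Complex.norm_real, Real.norm_eq_abs]
    exact pow_le_one₀ (abs_nonneg _) (hF n)
  refine (sum_le_sum h1).trans ?_
  simp

theorem GN2_eq {p : ℕ} [NeZero p] {F : ℤ → ℝ} {X : ℕ} (hs : Sup F X) (hp : 2 * X ≤ p) :
    (p : ℝ) * GN 2 F X = ∑ ξ : ZMod p, ‖ht p X F ξ‖ ^ 4 := by
  unfold ht
  rw [moment_four (p := p) (Icc (1 : ℤ) X) F (L := X) (fun n hn => by rw [mem_Icc] at hn; exact hn) (by exact_mod_cast hp),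
    ← quad_sum hs]
  congr 1
  simp only [GN, De]
  rw [sum_comm]
  have e1 : ∀ y ∈ Icc (-(X : ℤ)) X, ∑ x ∈ Icc (-(X : ℤ)) X, ∑ n ∈ Icc (1 : ℤ) X, F n * F (n + x) * (F (n + y) * F (n + y + x))
      = ∑ n ∈ Icc (1 : ℤ) X, ∑ x ∈ Icc (-(X : ℤ)) X, F n * F (n + x) * (F (n + y) * F (n + y + x)) := fun y _ => sum_comm
  rw [sum_congr rfl e1, sum_comm]
  apply sum_congr rfl; intro n _
  rw [sum_comm]
  apply sum_congr rfl; intro x _
  apply sum_congr rfl; intro y _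
  have : n + y + x = n + x + y := by ring
  rw [this]; ring

theorem GN2_le {p : ℕ} [NeZero p] {F : ℤ → ℝ} {X : ℕ} (hF : B1 F) (hs : Sup F X) (hp : 2 * X ≤ p) {m : ℝ}
    (hm : ∀ ξ : ZMod p, ‖ht p X F ξ‖ ≤ m) : GN 2 F X ≤ m ^ 2 * X := by
  have hp0 : (0 : ℝ) < p := by exact_mod_cast NeZero.pos p
  have h1 : ∀ ξ ∈ (univ : Finset (ZMod p)), ‖ht p X F ξ‖ ^ 4 ≤ m ^ 2 * ‖ht p X F ξ‖ ^ 2 := by
    intro ξ _
    have h2 : ‖ht p X F ξ‖ ^ 2 ≤ m ^ 2 := pow_le_pow_left₀ (norm_nonneg _) (hm ξ) 2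
    have e : ‖ht p X F ξ‖ ^ 4 = ‖ht p X F ξ‖ ^ 2 * ‖ht p X F ξ‖ ^ 2 := by ring
    rw [e]
    exact mul_le_mul_of_nonneg_right h2 (sq_nonneg _)
  have h2 := sum_le_sum h1
  rw [← GN2_eq hs hp, ← mul_sum] at h2
  have h3 : (p : ℝ) * GN 2 F X ≤ p * (m ^ 2 * X) := by
    calc _ ≤ _ := h2
      _ ≤ m ^ 2 * (p * X) := mul_le_mul_of_nonneg_left (ht_sq hF (by omega)) (sq_nonneg _)
      _ = _ := by ring
  exact le_of_mul_le_mul_left h3 hp0

end Pool.Agent.W36.GK
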