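import Pool.Agent.W36.GK.K9

/-! Good base points and pairs of exponents. -/

set_option autoImplicit false

namespace Pool.Agent.W36.GK

open Finset Pool.Agent.W36.GU Pool.Agent.W36.GV

open Classical in
/-- the exponents at which the contracted point is in `P` -/
noncomputable def Eg {D : ℕ} (u v L : ℕ) (P : Finset (Fin D → ℤ)) (γ : Fin D → ℤ) : Finset (Fin D → ℕ) :=
  (gr D L).filter (fun e => pt u v (fun k => e k + L) γ ∈ P)

open Classical in
theorem lots {D L u v Y : ℕ} (hL : 1 ≤ L) (hY : 1 ≤ Y) (hv : 1 ≤ v) (hvu : v ≤ u) (hrat : ∀ i < 2 * L, u ^ i ≤ 2 * v ^ i)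
    {P : Finset (Fin D → ℤ)} (hP : P ⊆ bx D Y) {δ : ℝ} (hδ : 0 ≤ δ) :
    (P.card : ℝ) ≤ ((bx D (3 * Y)).filter (fun γ => δ * (L : ℝ) ^ D ≤ (Eg u v L P γ).card)).card + 9 ^ D * (Y : ℝ) ^ D * δ := by
  have hL0 : (0 : ℝ) < L := by exact_mod_cast hL
  have hu1 : 1 ≤ u := by omega
  -- surjectivity of the contraction
  have h1 : ∀ e ∈ gr D L, P.card ≤ ((bx D (3 * Y)).filter (fun γ => pt u v (fun k => e k + L) γ ∈ P)).card := by
    intro e he
    have he' := mem_gr.1 he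
    have hpt : ∀ β : Fin D → ℤ, pt u v (fun k => e k + L) (fun k => -((-((u : ℤ) ^ (e k + L) * β k)) / (v : ℤ) ^ (e k + L))) = β := by
      intro β
      ext k
      unfold pt
      set a := e k + L
      have hu0 : (0 : ℤ) < (u : ℤ) ^ a := by have : (0 : ℤ) < u := by exact_mod_cast hu1
                                             positivity
      have hv0 : (0 : ℤ) < (v : ℤ) ^ a := by have : (0 : ℤ) < v := by exact_mod_cast hv
                                             positivity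
      have hvu' : (v : ℤ) ^ a ≤ (u : ℤ) ^ a := by exact_mod_cast Nat.pow_le_pow_left hvu a
      have f1 := Int.emod_add_mul_ediv (-((u : ℤ) ^ a * β k)) ((v : ℤ) ^ a)
      have f2 := Int.emod_nonneg (-((u : ℤ) ^ a * β k)) hv0.ne'
      have f3 := Int.emod_lt_of_pos (-((u : ℤ) ^ a * β k)) hv0
      set q := (-((u : ℤ) ^ a * β k)) / ((v : ℤ) ^ a)
      set r := (-((u : ℤ) ^ a * β k)) % ((v : ℤ) ^ a)
      have f4 : (v : ℤ) ^ a * -q = r + (u : ℤ) ^ a * β k := by linarith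
      rw [f4, Int.add_mul_ediv_left _ _ hu0.ne', Int.ediv_eq_zero_of_lt f2 (by linarith), zero_add]
    apply card_le_card_of_injOn (fun β k => -((-((u : ℤ) ^ (e k + L) * β k)) / (v : ℤ) ^ (e k + L)))
    · intro β hβ
      rw [mem_coe] at hβ
      rw [mem_coe, mem_filter]
      refine ⟨?_, by rw [hpt]; exact hβ⟩
      have hβ' := mem_bx.1 (hP hβ)
      rw [mem_bx]
      intro k
      set a := e k + L with ha
      have hu0 : (0 : ℤ) < (u : ℤ) ^ a := by have : (0 : ℤ) < u := by exact_mod_cast hu1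
                                             positivity
      have hv0 : (0 : ℤ) < (v : ℤ) ^ a := by have : (0 : ℤ) < v := by exact_mod_cast hv
                                             positivity
      have hr2 : (u : ℤ) ^ a ≤ 2 * (v : ℤ) ^ a := by exact_mod_cast hrat a (by have := he' k; omega)
      have f1 := Int.emod_add_mul_ediv (-((u : ℤ) ^ a * β k)) ((v : ℤ) ^ a)
      have f2 := Int.emod_nonneg (-((u : ℤ) ^ a * β k)) hv0.ne'
      have f3 := Int.emod_lt_of_pos (-((u : ℤ) ^ a * β k)) hv0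
      simp only
      rw [← ha]
      set q := (-((u : ℤ) ^ a * β k)) / ((v : ℤ) ^ a)
      set r := (-((u : ℤ) ^ a * β k)) % ((v : ℤ) ^ a)
      have h5 : (v : ℤ) ^ a * |-q| ≤ (v : ℤ) ^ a * (3 * Y) := by
        have g1 : (v : ℤ) ^ a * |-q| = |(u : ℤ) ^ a * β k + r| := by
          have g0 : (u : ℤ) ^ a * β k + r = (v : ℤ) ^ a * -q := by linarith
          rw [g0, abs_mul, abs_of_pos hv0]
        rw [g1]
        have g2 : |(u : ℤ) ^ a * β k + r| ≤ (u : ℤ) ^ a * |β k| + r := by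
          refine (abs_add_le _ _).trans ?_
          rw [abs_mul, abs_of_pos hu0, abs_of_nonneg f2]
        have g3 : (u : ℤ) ^ a * |β k| ≤ (2 * (v : ℤ) ^ a) * Y :=
          mul_le_mul hr2 (hβ' k) (abs_nonneg _) (by positivity)
        have hY' : (1 : ℤ) ≤ Y := by exact_mod_cast hY
        nlinarith
      have h6 := le_of_mul_le_mul_left h5 hv0
      push_cast
      exact h6
    · intro β _ β' _ h
      rw [← hpt β, ← hpt β']
      simp only at h
      rw [h]
  have h2 : (L : ℝ) ^ D * P.card ≤ ∑ γ ∈ bx D (3 * Y), ((Eg u v L P γ).card : ℝ) := by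
    have h3 : ∑ γ ∈ bx D (3 * Y), (Eg u v L P γ).card = ∑ e ∈ gr D L, ((bx D (3 * Y)).filter (fun γ => pt u v (fun k => e k + L) γ ∈ P)).card := by
      unfold Eg
      simp only [card_filter]
      rw [sum_comm]
    have h4 : L ^ D * P.card ≤ ∑ γ ∈ bx D (3 * Y), (Eg u v L P γ).card := by
      rw [h3, ← card_gr D L, ← smul_eq_mul]
      exact card_nsmul_le_sum _ _ _ h1
    exact_mod_cast h4
  set G := (bx D (3 * Y)).filter (fun γ => δ * (L : ℝ) ^ D ≤ (Eg u v L P γ).card) with hG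
  have h3 : ∑ γ ∈ bx D (3 * Y), ((Eg u v L P γ).card : ℝ) ≤ (L : ℝ) ^ D * (G.card + 9 ^ D * (Y : ℝ) ^ D * δ) := by
    rw [← sum_filter_add_sum_filter_not (bx D (3 * Y)) (fun γ => δ * (L : ℝ) ^ D ≤ (Eg u v L P γ).card)]
    have a1 : ∑ γ ∈ G, ((Eg u v L P γ).card : ℝ) ≤ G.card * (L : ℝ) ^ D := by
      rw [← nsmul_eq_mul]
      apply sum_le_card_nsmul
      intro γ _
      have : (Eg u v L P γ).card ≤ L ^ D := by
        rw [← card_gr D L]
        exact card_filter_le _ _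
      exact_mod_cast this
    have a2 : ∑ γ ∈ (bx D (3 * Y)).filter (fun γ => ¬ δ * (L : ℝ) ^ D ≤ (Eg u v L P γ).card), ((Eg u v L P γ).card : ℝ)
        ≤ (9 ^ D * (Y : ℝ) ^ D) * (δ * (L : ℝ) ^ D) := by
      refine (sum_le_card_nsmul _ _ (δ * (L : ℝ) ^ D) ?_).trans ?_
      · intro γ hγ
        have := (mem_filter.1 hγ).2
        push Not at this
        exact this.le
      · rw [nsmul_eq_mul]
        apply mul_le_mul_of_nonneg_right _ (by positivity)
        have b1 : (((bx D (3 * Y)).filter (fun γ => ¬ δ * (L : ℝ) ^ D ≤ (Eg u v L P γ).card)).card : ℝ) ≤ ((bx D (3 * Y)).card : ℝ) := by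
          exact_mod_cast card_filter_le _ _
        refine b1.trans ((card_bx_le (by omega) D).trans (le_of_eq ?_))
        push_cast
        rw [mul_pow, ← mul_assoc, ← mul_pow]
        norm_num
    rw [← hG]
    linarith
  exact le_of_mul_le_mul_left (h2.trans h3) (by positivity)

variable {p : ℕ} [NeZero p]

/-- the colour of an exponent -/
def col {D : ℕ} (p : ℕ) (φ : (Fin (D + 1) → ℤ) → ZMod p) (u v L : ℕ) (γ : Fin (D + 1) → ℤ) (e : Fin (D + 1) → ℕ) : ZMod p :=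
  ((dfr (u ^ e 0) (v ^ e 0) (fr φ u v (fun k => e k + L) γ) : ℤ) : ZMod p)

open Classical in
theorem pairs {d : ℕ} {f : ℤ → ℝ} (hf : B1 f) {M N X : ℕ} (hMN : M ≤ N) (hN : N ≤ X) {σ κ : ℝ} {C R J : ℕ} (hn : Num d σ κ C R J X)
    (hp : p = C * X) (hloc : ∀ j : ℕ, j ≤ J → ∑ n ∈ Icc (1 : ℤ) X, |f (n + j) - f n| ≤ κ * X)
    {u v Q L : ℕ} (hv : 1 ≤ v) (hvu : v ≤ u) (huR : u ^ (2 * L) ≤ R) (hQ : Q = v ^ L) (hQR : Q * R ≤ J)
    (hη : ∀ t < L, 4 ^ (d + 1) * (40 * (1 - (v ^ t : ℕ) / ((u ^ t : ℕ) : ℝ))) ≤ σ)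
    (hdu : ∀ t < L, ∑ n ∈ Icc (1 : ℤ) X, |f ((u ^ t : ℕ) * n) - f n| ≤ κ * X)
    (hdv : ∀ t < L, ∑ n ∈ Icc (1 : ℤ) X, |f ((v ^ t : ℕ) * n) - f n| ≤ κ * X)
    {P : Finset (Fin (d + 1) → ℤ)} {φ : (Fin (d + 1) → ℤ) → ZMod p}
    (hPA : ∀ α ∈ P, σ * X ≤ ‖ht p X (Dl (d + 1) (win M N f) (fun i => Q * α i)) (φ α)‖) {Mc : ℕ} (hMc : 4 * C / σ ^ 2 ≤ Mc) {δ : ℝ}
    (hgrid : ∀ E ⊆ gr (d + 1) L, δ * (L : ℝ) ^ (d + 1) ≤ E.card →
      ∀ (τ : Type) (χ : (Fin (d + 1) → ℕ) → τ), (∀ c, ((E.filter (fun e => dg e = c)).image χ).card ≤ Mc) →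
      ∃ e ∈ E, ∃ e' ∈ E, dg e = dg e' ∧ e 0 < e' 0 ∧ χ e = χ e' ∧ Rc E e e')
    {γ : Fin (d + 1) → ℤ} (hγ : δ * (L : ℝ) ^ (d + 1) ≤ (Eg u v L P γ).card) :
    ∃ e ∈ Eg u v L P γ, ∃ e' ∈ Eg u v L P γ, dg e = dg e' ∧ e 0 < e' 0 ∧ col p φ u v L γ e = col p φ u v L γ e' ∧
      Rc (Eg u v L P γ) e e' := by
  have hσ := hn.hσ
  have hX1 : 1 ≤ X := by have := hn.hX; omega
  have hX0 : (0 : ℝ) < X := by exact_mod_cast hX1
  have hXp : X ≤ p := by rw [hp]; exact Nat.le_mul_of_pos_left _ (by have := hn.hC1; omega)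
  have hwB : B1 (win M N f) := win_abs hf M N
  have hu1 : 1 ≤ u := by omega
  refine hgrid (Eg u v L P γ) (filter_subset _ _) hγ (ZMod p) (col p φ u v L γ) ?_
  intro c
  rcases ((Eg u v L P γ).filter (fun e => dg e = c)).eq_empty_or_nonempty with h0 | ⟨e1, he1⟩
  · rw [h0]; simp
  set b : Fin (d + 1) → ℕ := fun k => e1 k + L - e1 0 with hb
  have hsub : ((Eg u v L P γ).filter (fun e => dg e = c)).image (col p φ u v L γ)
      ⊆ univ.filter (fun ξ : ZMod p => σ / 2 * X ≤ ‖ht p X (Dl (d + 1) (win M N f) (fun i => Q * pt u v b γ i)) ξ‖) := by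
    intro ξ hξ
    rw [mem_image] at hξ
    obtain ⟨e, he, rfl⟩ := hξ
    rw [mem_filter] at he he1
    have heE := he.1
    unfold Eg at heE
    rw [mem_filter] at heE
    have heL := mem_gr.1 heE.1
    have he1L : ∀ k, e1 k < L := by
      have := he1.1
      unfold Eg at this
      exact mem_gr.1 (mem_filter.1 this).1
    have ht0 : e 0 < L := heL 0
    have hpush := push (p := p) hf hMN hN hn hp hloc hv hvu ((Nat.pow_le_pow_right hu1 (by omega)).trans huR)
      (by rw [hQ]; exact pow_dvd_pow v ht0.le) hQR (hη _ ht0) (hdu _ ht0) (hdv _ ht0) (fun k => e k + L) (fun k => by omega) γ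
      (φ (pt u v (fun k => e k + L) γ)) (hPA _ heE.2)
    have hbe : (fun k => e k + L - e 0) = b := by
      ext k
      have hdg : dg e = dg e1 := he.2.trans he1.2.symm
      refine Fin.cases ?_ (fun k => ?_) k
      · simp only [hb]; omega
      · have h3 := congrFun hdg k
        unfold dg at h3
        have h4 := heL 0
        have h5 := he1L 0
        simp only [hb]
        omega
    rw [hbe] at hpush
    rw [mem_filter]
    exact ⟨mem_univ _, hpush⟩
  have h1 := card_le_card hsub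
  have h2 := card_spec (p := p) (F := Dl (d + 1) (win M N f) (fun i => Q * pt u v b γ i)) (Dl_B1 (d + 1) hwB _) hX1 hXp (half_pos hσ)
  have h3 : (p : ℝ) / ((σ / 2) ^ 2 * X) = 4 * C / σ ^ 2 := by
    rw [hp]; push_cast; field_simp; ring
  rw [h3] at h2
  have h4 : (((univ.filter (fun ξ : ZMod p => σ / 2 * X ≤ ‖ht p X (Dl (d + 1) (win M N f) (fun i => Q * pt u v b γ i)) ξ‖)).card : ℕ) : ℝ) ≤ Mc :=
    h2.trans hMc
  have h5 : (univ.filter (fun ξ : ZMod p => σ / 2 * X ≤ ‖ht p X (Dl (d + 1) (win M N f) (fun i => Q * pt u v b γ i)) ξ‖)).card ≤ Mc := by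
    exact_mod_cast h4
  exact cif.le.trans (h1.trans h5)

end Pool.Agent.W36.GK
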