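import Pool.Agent.W36.GK.K10

/-! The frequencies are sums of functions that do not depend on one coordinate. -/

set_option autoImplicit false

namespace Pool.Agent.W36.GK

open Finset Pool.Agent.W36.GU Pool.Agent.W36.GV

theorem wt_shift {D : ℕ} (u v : ℕ) (a a' : Fin D → ℕ) (s : ℕ) (h : ∀ k, a' k = a k + s) :
    wt u v a' = wt u v a * ((v : ℝ) / u) ^ (D * s) := by
  unfold wt
  have e : ∀ k, ((v : ℝ) / u) ^ a' k = ((v : ℝ) / u) ^ a k * ((v : ℝ) / u) ^ s := by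
    intro k; rw [h k, pow_add]
  simp only [e]
  rw [prod_mul_distrib, prod_const, card_univ, Fintype.card_fin, ← pow_mul, mul_comm s D]

variable {p : ℕ} [NeZero p]

open Classical in
theorem final_set {d : ℕ} {φ : (Fin (d + 1) → ℤ) → ZMod p} {P : Finset (Fin (d + 1) → ℤ)} {K1 : ℝ} (hK1 : 1 ≤ K1)
    (hStr : ∀ k, Str k φ P K1) {R J : ℕ} (hRJ : R ^ 2 < J) (hsm : ∀ α ∈ P, |(((φ α).valMinAbs : ℤ) : ℝ)| * (4 * J) < p)
    (hpJ : 8 * J < p)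
    {u v : ℕ} (hv : 1 ≤ v) (hvu : v < u) {L : ℕ} (huR : u ^ (2 * L) ≤ R) {E : Finset (Fin (d + 1) → ℕ)} (hE : E ⊆ gr (d + 1) L)
    {K2 : ℕ} (hK2 : (2 * (R : ℝ) ^ 2 + 1) * K1 ^ (2 * R ^ 2 + 1) ≤ K2) {e e' : Fin (d + 1) → ℕ} (he : e ∈ E) (he' : e' ∈ E)
    (hdg : dg e = dg e') (h0 : e 0 < e' 0) {n : ℕ} (hRN : RN E n e e')
    {S : Finset (Fin (d + 1) → ℤ)} (hS : ∀ γ ∈ S, ∀ y ∈ E, pt u v (fun k => y k + L) γ ∈ P)
    (hcol : ∀ γ ∈ S, col p φ u v L γ e = col p φ u v L γ e') :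
    ∃ S3 ⊆ S, S.card ≤ K2 ^ n * ((2 * (R + d + 2) + 1) * 2 ^ (d + 1)) * S3.card ∧ ∃ Z : Fin (d + 1) → (Fin (d + 1) → ℤ) → ℤ,
      (∀ k, Ind k (Z k)) ∧ (∀ γ ∈ S3, fr φ u v (fun k => e k + L) γ = ∑ k, Z k γ) ∧ ∃ par : Fin (d + 1) → ℤ, ∀ γ ∈ S3, ∀ k, γ k % 2 = par k := by
  obtain ⟨S1, hS1, hS1c, F, hF, hFe⟩ := path (p := p) hK1 hStr hRJ hsm hv hvu.le huR hE hK2 n hRN hS
  have hu1 : 1 ≤ u := by omega
  have hu0 : (0 : ℝ) < u := by exact_mod_cast hu1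
  have hv0 : (0 : ℝ) < v := by exact_mod_cast hv
  have hRR : (u : ℝ) ^ (2 * L) ≤ R := by exact_mod_cast huR
  obtain ⟨ρ, hρ⟩ : ∃ ρ : ℝ, ρ = (v : ℝ) / u := ⟨_, rfl⟩
  have hρ0 : 0 < ρ := by rw [hρ]; positivity
  have hρ1 : ρ < 1 := by rw [hρ, div_lt_one hu0]; exact_mod_cast hvu
  obtain ⟨s, hs⟩ : ∃ s : ℕ, s = e' 0 - e 0 := ⟨_, rfl⟩
  have hs1 : 1 ≤ s := by omega
  have hL0 := mem_gr.1 (hE he) 0
  have hL0' := mem_gr.1 (hE he') 0
  set x : (Fin (d + 1) → ℤ) → ℤ := fun γ => fr φ u v (fun k => e k + L) γ with hx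
  set x' : (Fin (d + 1) → ℤ) → ℤ := fun γ => fr φ u v (fun k => e' k + L) γ with hx'
  have hw := wt_pos hu1 hv (fun k => e k + L)
  have hw' := wt_pos hu1 hv (fun k => e' k + L)
  set w := wt u v (fun k => e k + L) with hwd
  set w' := wt u v (fun k => e' k + L) with hwd'
  have hww : w' = w * ρ ^ ((d + 1) * s) := by
    rw [hwd', hwd, hρ]
    apply wt_shift
    intro k
    have := dg_add hdg h0.le k
    omega
  -- the colours
  have hcol' : ∀ γ ∈ S, ρ ^ e 0 * x γ - ρ ^ e' 0 * x' γ = ρ ^ e 0 * x γ - dfr (u ^ e 0) (v ^ e 0) (x γ)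
      - (ρ ^ e' 0 * x' γ - dfr (u ^ e' 0) (v ^ e' 0) (x' γ)) := by
    intro γ hγ
    have h1 := hcol γ hγ
    unfold col at h1
    have hut : 1 ≤ u ^ e 0 := Nat.one_le_pow _ _ hu1
    have hvut : v ^ e 0 ≤ u ^ e 0 := Nat.pow_le_pow_left hvu.le _
    have hut' : 1 ≤ u ^ e' 0 := Nat.one_le_pow _ _ hu1
    have hvut' : v ^ e' 0 ≤ u ^ e' 0 := Nat.pow_le_pow_left hvu.le _
    have hJ1 : 1 ≤ J := by omega
    have hx1 : |x γ| * (4 * J) < p := by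
      have := hsm _ (hS γ hγ e he)
      simp only [hx]; unfold fr
      exact_mod_cast this
    have hx1' : |x' γ| * (4 * J) < p := by
      have := hsm _ (hS γ hγ e' he')
      simp only [hx']; unfold fr
      exact_mod_cast this
    have hJ1' : (1 : ℤ) ≤ J := by exact_mod_cast hJ1
    have hpJ' : (8 : ℤ) * J < p := by exact_mod_cast hpJ
    have b1 := dfr_abs hut hvut (x γ)
    have b2 := dfr_abs hut' hvut' (x' γ)
    have a1 := abs_nonneg (x γ)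
    have a2 := abs_nonneg (x' γ)
    have c1 : 4 * |x γ| < p := by nlinarith
    have c2 : 4 * |x' γ| < p := by nlinarith
    have d1 := val_eq' (p := p) (x := ((dfr (u ^ e 0) (v ^ e 0) (x γ) : ℤ) : ZMod p)) rfl (by linarith)
    have d2 := val_eq' (p := p) (x := ((dfr (u ^ e 0) (v ^ e 0) (x γ) : ℤ) : ZMod p)) (n := dfr (u ^ e' 0) (v ^ e' 0) (x' γ)) h1.symm (by linarith)
    have d3 : dfr (u ^ e 0) (v ^ e 0) (x γ) = dfr (u ^ e' 0) (v ^ e' 0) (x' γ) := d1.symm.trans d2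
    rw [d3]
    ring
  have herr : ∀ (t : ℕ) (y : ℤ), |ρ ^ t * y - dfr (u ^ t) (v ^ t) y| ≤ 1 / 2 := by
    intro t y
    have h1 := dfr_spec (u := u ^ t) (Nat.one_le_pow _ _ hu1) (v ^ t) y
    have h2 : (2 : ℝ) * |(y : ℝ) * (v : ℝ) ^ t - dfr (u ^ t) (v ^ t) y * (u : ℝ) ^ t| ≤ (u : ℝ) ^ t := by exact_mod_cast h1
    have h3 : ρ ^ t * y - dfr (u ^ t) (v ^ t) y = ((y : ℝ) * (v : ℝ) ^ t - dfr (u ^ t) (v ^ t) y * (u : ℝ) ^ t) / (u : ℝ) ^ t := by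
      rw [hρ, div_pow]
      field_simp
    rw [h3, abs_div, abs_of_pos (show (0 : ℝ) < (u : ℝ) ^ t by positivity), div_le_iff₀ (by positivity)]
    linarith
  obtain ⟨θ, hθ⟩ : ∃ θ : (Fin (d + 1) → ℤ) → ℝ, θ = fun γ => ρ ^ e 0 * x γ - ρ ^ e' 0 * x' γ := ⟨_, rfl⟩
  have hθ1 : ∀ γ ∈ S, |θ γ| ≤ 1 := by
    intro γ hγ
    rw [hθ]
    simp only
    rw [hcol' γ hγ]
    have h1 := herr (e 0) (x γ)
    have h2 := herr (e' 0) (x' γ)
    refine (abs_sub _ _).trans ?_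
    linarith
  obtain ⟨c0, hc0⟩ : ∃ c0 : ℝ, c0 = 1 - ρ ^ ((d + 2) * s) := ⟨_, rfl⟩
  have hc0u : 1 / (u : ℝ) ≤ c0 := by
    have h1 : ρ ^ ((d + 2) * s) ≤ ρ ^ 1 := pow_le_pow_of_le_one hρ0.le hρ1.le (by nlinarith)
    have h2 : 1 / (u : ℝ) ≤ 1 - ρ := by
      rw [hρ, div_le_iff₀ hu0, sub_mul, div_mul_cancel₀ _ hu0.ne']
      have : (v : ℝ) + 1 ≤ u := by exact_mod_cast hvu
      linarith
    rw [pow_one] at h1
    linarith
  have hc00 : 0 < c0 := lt_of_lt_of_le (by positivity) hc0u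
  have hkey : ∀ γ ∈ S1, (x γ : ℝ) = (∑ k, c0⁻¹ * ρ ^ s * w' * F k γ) + θ γ / (ρ ^ e 0 * c0) := by
    intro γ hγ
    have h1 := hFe γ hγ
    simp only at h1
    have h1' : (x' γ : ℝ) / w' - (x γ : ℝ) / w = ∑ k, F k γ := h1
    have h2 : (x' γ : ℝ) = w' * ∑ k, F k γ + ρ ^ ((d + 1) * s) * x γ := by
      rw [← h1', mul_sub]
      have e1 : w' * ((x' γ : ℝ) / w') = x' γ := by field_simp
      have e2 : w' * ((x γ : ℝ) / w) = ρ ^ ((d + 1) * s) * x γ := by rw [hww]; field_simp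
      rw [e1, e2]
      ring
    have h3 : θ γ = ρ ^ e 0 * x γ - ρ ^ e' 0 * x' γ := by rw [hθ]
    have h4 : e' 0 = e 0 + s := by omega
    rw [h2, h4, pow_add] at h3
    have h5 : ρ ^ ((d + 2) * s) = ρ ^ s * ρ ^ ((d + 1) * s) := by rw [← pow_add]; congr 1; ring
    have h6 : θ γ = ρ ^ e 0 * (c0 * x γ - ρ ^ s * (w' * ∑ k, F k γ)) := by
      rw [h3, hc0, h5]; ring
    rw [h6, ← mul_sum]
    have hρe : ρ ^ e 0 ≠ 0 := by positivity
    field_simp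
    ring
  have hθ2 : ∀ γ ∈ S1, |θ γ / (ρ ^ e 0 * c0)| ≤ R := by
    intro γ hγ
    rw [abs_div, abs_of_pos (show 0 < ρ ^ e 0 * c0 by positivity), div_le_iff₀ (by positivity)]
    refine (hθ1 γ (hS1 hγ)).trans ?_
    have h1 : (1 / (u : ℝ)) ^ e 0 ≤ ρ ^ e 0 := by
      apply pow_le_pow_left₀ (by positivity)
      rw [hρ]
      apply div_le_div_of_nonneg_right _ hu0.le
      exact_mod_cast hv
    have h2 : (1 / (u : ℝ)) ^ e 0 * (1 / (u : ℝ)) ≤ ρ ^ e 0 * c0 := mul_le_mul h1 hc0u (by positivity) (by positivity)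
    have h3 : (u : ℝ) ^ (e 0 + 1) ≤ R := by
      refine le_trans ?_ hRR
      exact pow_le_pow_right₀ (by exact_mod_cast hu1) (by omega)
    have h4 : (1 : ℝ) = (u : ℝ) ^ (e 0 + 1) * ((1 / (u : ℝ)) ^ e 0 * (1 / (u : ℝ))) := by
      rw [← pow_succ, ← mul_pow, mul_one_div_cancel hu0.ne', one_pow]
    calc (1 : ℝ) = (u : ℝ) ^ (e 0 + 1) * ((1 / (u : ℝ)) ^ e 0 * (1 / (u : ℝ))) := h4
      _ ≤ R * (ρ ^ e 0 * c0) := mul_le_mul h3 h2 (by positivity) (by positivity)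
  set W : Fin (d + 1) → (Fin (d + 1) → ℤ) → ℝ := fun k γ => c0⁻¹ * ρ ^ s * w' * F k γ with hW
  set m : (Fin (d + 1) → ℤ) → ℤ := fun γ => x γ - ∑ k, ⌊W k γ⌋ with hm
  have hmb : ∀ γ ∈ S1, |m γ| ≤ (R + d + 2 : ℕ) := by
    intro γ hγ
    have h1 := hkey γ hγ
    have h2 := hθ2 γ hγ
    have h3 : ((m γ : ℤ) : ℝ) = (∑ k, Int.fract (W k γ)) + θ γ / (ρ ^ e 0 * c0) := by
      simp only [hm]
      push_cast
      rw [h1]
      have : ∀ k, Int.fract (W k γ) = W k γ - ⌊W k γ⌋ := fun k => rfl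
      simp only [this, sum_sub_distrib]
      ring
    have h4 : 0 ≤ ∑ k, Int.fract (W k γ) := sum_nonneg fun k _ => Int.fract_nonneg _
    have h5 : ∑ k, Int.fract (W k γ) ≤ d + 1 := by
      refine (sum_le_card_nsmul _ _ 1 (fun k _ => (Int.fract_lt_one _).le)).trans ?_
      rw [card_univ, Fintype.card_fin, nsmul_eq_mul]
      push_cast; linarith
    have h6 : |((m γ : ℤ) : ℝ)| ≤ R + d + 2 := by
      rw [h3]
      refine (abs_add_le _ _).trans ?_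
      rw [abs_of_nonneg h4]
      linarith
    exact_mod_cast h6
  have hcnt : ∀ c : Unit, ((S1.filter (fun _ => () = c)).image (fun γ => (m γ, fun k => γ k % 2))).card ≤ (2 * (R + d + 2) + 1) * 2 ^ (d + 1) := by
    intro c
    have h1 : (S1.filter (fun _ => () = c)).image (fun γ => (m γ, fun k => γ k % 2))
        ⊆ (Icc (-((R + d + 2 : ℕ) : ℤ)) ((R + d + 2 : ℕ) : ℤ)) ×ˢ (Fintype.piFinset (fun _ : Fin (d + 1) => Ico (0 : ℤ) 2)) := by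
      intro q hq
      rw [mem_image] at hq
      obtain ⟨γ, hγ, rfl⟩ := hq
      rw [mem_filter] at hγ
      rw [mem_product, mem_Icc, Fintype.mem_piFinset]
      refine ⟨abs_le.1 (hmb γ hγ.1), fun k => ?_⟩
      show γ k % 2 ∈ Ico (0 : ℤ) 2
      rw [mem_Ico]
      exact ⟨Int.emod_nonneg _ (by norm_num), Int.emod_lt_of_pos _ (by norm_num)⟩
    refine (card_le_card h1).trans ?_
    rw [card_product, Fintype.card_piFinset, Int.card_Icc]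
    apply le_of_eq
    congr 1
    · omega
    · simp
  obtain ⟨pop, S3, hS3, hS3c, hpop⟩ := select S1 (fun _ => ()) (fun γ => (m γ, fun k => γ k % 2)) ((2 * (R + d + 2) + 1) * 2 ^ (d + 1))
    (fun c => cif.le.trans (hcnt c))
  refine ⟨S3, hS3.trans hS1, ?_, fun k γ => ⌊W k γ⌋ + if k = 0 then (pop ()).1 else 0, ?_, ?_, (pop ()).2, ?_⟩
  · calc S.card ≤ K2 ^ n * S1.card := hS1c
      _ ≤ K2 ^ n * ((2 * (R + d + 2) + 1) * 2 ^ (d + 1) * S3.card) := Nat.mul_le_mul_left _ hS3c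
      _ = _ := by ring
  · intro k γ b
    simp only [hW]
    rw [hF k γ b]
  · intro γ hγ
    have h1 := hpop γ hγ
    have h2 : m γ = (pop ()).1 := congrArg Prod.fst h1
    rw [sum_add_distrib, sum_ite_eq', if_pos (mem_univ _), ← h2]
    simp only [hm]
    ring
  · intro γ hγ k
    have h1 := hpop γ hγ
    have h2 : (fun k => γ k % 2) = (pop ()).2 := congrArg Prod.snd h1
    exact congrFun h2 k

end Pool.Agent.W36.GK
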