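import Pool.Agent.W36.GK.K11

/-! The lower bound for the weighted sum. -/

set_option autoImplicit false

namespace Pool.Agent.W36.GK

open Finset Pool.Agent.W36.GU Pool.Agent.W36.GV

variable {p : ℕ} [NeZero p]

open Classical in
theorem lower {d X Q L : ℕ} {g : ℤ → ℝ} {φ : (Fin (d + 1) → ℤ) → ZMod p} {P : Finset (Fin (d + 1) → ℤ)} {σ : ℝ} (hσ : 0 ≤ σ)
    (hP : ∀ α ∈ P, σ * X ≤ ‖ht p X (Dl (d + 1) g (fun i => Q * α i)) (φ α)‖) (hbx : ∀ α ∈ P, (fun i => (Q : ℤ) * α i) ∈ bx (d + 1) X)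
    (hQ : 1 ≤ Q) {u v : ℕ} (hv : 1 ≤ v) (hvu : v ≤ u) (hrat : ∀ i < 2 * L, u ^ i ≤ 2 * v ^ i) {e : Fin (d + 1) → ℕ}
    (he : e ∈ gr (d + 1) L) {S : Finset (Fin (d + 1) → ℤ)} (hS : ∀ γ ∈ S, pt u v (fun k => e k + L) γ ∈ P)
    {Z : Fin (d + 1) → (Fin (d + 1) → ℤ) → ℤ} (hZ : ∀ k, Ind k (Z k))
    (hfr : ∀ γ ∈ S, fr φ u v (fun k => e k + L) γ = ∑ k, Z k γ) {par : Fin (d + 1) → ℤ} (hpar : ∀ γ ∈ S, ∀ k, γ k % 2 = par k) :
    ∃ Z' : Fin (d + 1) → (Fin (d + 1) → ℤ) → ZMod p, (∀ k, Ind k (Z' k)) ∧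
      (S.card : ℝ) * (σ * X) ^ 2 ≤ ∑ h ∈ bx (d + 1) X, ‖ht p X (Dl (d + 1) g h) (∑ k, Z' k h)‖ ^ 2 := by
  have hQ0 : (0 : ℤ) < Q := by exact_mod_cast hQ
  have hu0 : (0 : ℤ) < u := by exact_mod_cast (by omega : 0 < u)
  have hv0 : (0 : ℤ) < v := by exact_mod_cast hv
  set a : Fin (d + 1) → ℕ := fun k => e k + L with ha
  have heL := mem_gr.1 he
  -- uniqueness
  have huniq : ∀ (k : Fin (d + 1)) (x y : ℤ), x % 2 = y % 2 → ((v : ℤ) ^ a k * x) / (u : ℤ) ^ a k = ((v : ℤ) ^ a k * y) / (u : ℤ) ^ a k → x = y := by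
    intro k x y hxy h
    have hr : (u : ℤ) ^ a k ≤ 2 * (v : ℤ) ^ a k := by
      exact_mod_cast hrat (a k) (by simp only [ha]; have := heL k; omega)
    have f1 := Int.emod_add_mul_ediv ((v : ℤ) ^ a k * x) ((u : ℤ) ^ a k)
    have f2 := Int.emod_nonneg ((v : ℤ) ^ a k * x) (show (u : ℤ) ^ a k ≠ 0 by positivity)
    have f3 := Int.emod_lt_of_pos ((v : ℤ) ^ a k * x) (show (0 : ℤ) < (u : ℤ) ^ a k by positivity)
    have f4 := Int.emod_add_mul_ediv ((v : ℤ) ^ a k * y) ((u : ℤ) ^ a k)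
    have f5 := Int.emod_nonneg ((v : ℤ) ^ a k * y) (show (u : ℤ) ^ a k ≠ 0 by positivity)
    have f6 := Int.emod_lt_of_pos ((v : ℤ) ^ a k * y) (show (0 : ℤ) < (u : ℤ) ^ a k by positivity)
    rw [h] at f1
    set V := (v : ℤ) ^ a k
    set U := (u : ℤ) ^ a k
    have hV : 0 < V := by positivity
    set r := (V * x) % U
    set r' := (V * y) % U
    have h1 : V * (x - y) = r - r' := by linear_combination (-1 : ℤ) * f1 + f4
    have h2 : V * |x - y| < V * 2 := by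
      have : V * |x - y| = |V * (x - y)| := by rw [abs_mul, abs_of_pos hV]
      rw [this, h1]
      have : |r - r'| < U := by
        rw [abs_lt]; constructor <;> linarith
      linarith
    have h3 := lt_of_mul_lt_mul_left h2 hV.le
    rw [abs_lt] at h3
    omega
  -- the sections
  set sec : Fin (d + 1) → ℤ → ℤ := fun k b => if h : ∃ x : ℤ, x % 2 = par k ∧ ((v : ℤ) ^ a k * x) / (u : ℤ) ^ a k = b then h.choose else 0 with hsec
  have hsec1 : ∀ γ ∈ S, ∀ k, sec k (pt u v a γ k) = γ k := by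
    intro γ hγ k
    have hex : ∃ x : ℤ, x % 2 = par k ∧ ((v : ℤ) ^ a k * x) / (u : ℤ) ^ a k = pt u v a γ k := ⟨γ k, hpar γ hγ k, rfl⟩
    simp only [hsec]
    rw [dif_pos hex]
    have h1 := hex.choose_spec
    exact huniq k _ _ (h1.1.trans (hpar γ hγ k).symm) h1.2
  refine ⟨fun k h => ((Z k (fun l => sec l (h l / (Q : ℤ))) : ℤ) : ZMod p), ?_, ?_⟩
  · intro k h b
    simp only
    congr 1
    have : (fun l => sec l (Function.update h k b l / (Q : ℤ))) = Function.update (fun l => sec l (h l / (Q : ℤ))) k (sec k (b / (Q : ℤ))) := by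
      ext l
      by_cases hl : l = k
      · subst hl; simp
      · simp [Function.update_of_ne hl]
    rw [this, hZ k]
  · set ι : (Fin (d + 1) → ℤ) → (Fin (d + 1) → ℤ) := fun γ i => (Q : ℤ) * pt u v a γ i with hι
    have hinj : Set.InjOn ι S := by
      intro γ hγ γ' hγ' h
      ext k
      have h1 : (Q : ℤ) * pt u v a γ k = Q * pt u v a γ' k := congrFun h k
      have h2 := mul_left_cancel₀ hQ0.ne' h1
      rw [← hsec1 γ hγ k, ← hsec1 γ' hγ' k, h2]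
    have hsub : S.image ι ⊆ bx (d + 1) X := by
      intro h hh
      rw [mem_image] at hh
      obtain ⟨γ, hγ, rfl⟩ := hh
      exact hbx _ (hS γ hγ)
    refine le_trans ?_ (sum_le_sum_of_subset_of_nonneg hsub (fun _ _ _ => by positivity))
    rw [sum_image hinj, ← nsmul_eq_mul]
    apply card_nsmul_le_sum
    intro γ hγ
    have h1 : (∑ k, ((Z k (fun l => sec l (ι γ l / (Q : ℤ))) : ℤ) : ZMod p)) = φ (pt u v a γ) := by
      have h2 : (fun l => sec l (ι γ l / (Q : ℤ))) = γ := by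
        ext l
        simp only [hι]
        rw [Int.mul_ediv_cancel_left _ hQ0.ne', hsec1 γ hγ l]
      rw [h2, ← Int.cast_sum, ← hfr γ hγ]
      unfold fr
      rw [ZMod.coe_valMinAbs]
    rw [h1]
    apply pow_le_pow_left₀ (by positivity)
    exact hP _ (hS γ hγ)

end Pool.Agent.W36.GK
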