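import Pool.Agent.W36.GK.K12

/-! The core of the induction step. -/

set_option autoImplicit false

namespace Pool.Agent.W36.GK

open Finset Pool.Agent.W36.GU Pool.Agent.W36.GV
open scoped Pointwise

variable {p : ℕ} [NeZero p]

/-- the number of configurations times the losses -/
def Wt (d R L K2 Nm : ℕ) : ℕ :=
  ((gr (d + 1) L).powerset ×ˢ gr (d + 1) L ×ˢ gr (d + 1) L).card * (K2 ^ Nm * ((2 * (R + d + 2) + 1) * 2 ^ (d + 1)))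

open Classical in
theorem core {d : ℕ} {f : ℤ → ℝ} (hf : B1 f) {M N X : ℕ} (hMN : M ≤ N) (hN : N ≤ X) {ε σ κ : ℝ} (hε : 0 < ε) (hε1 : ε ≤ 1)
    (hσe : ε = 4 * 3 ^ (d + 1) * σ) {C R J : ℕ} (hn : Num d σ κ C R J X)
    (hp : p = C * X) (hloc : ∀ j : ℕ, j ≤ J → ∑ n ∈ Icc (1 : ℤ) X, |f (n + j) - f n| ≤ κ * X)
    {u v Q L : ℕ} (hv : 1 ≤ v) (hvu : v < u) (hL : 1 ≤ L) (huR : u ^ (2 * L) ≤ R) (hQ : Q = v ^ L) (hQR : Q * R ≤ J)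
    (hrat : ∀ i < 2 * L, u ^ i ≤ 2 * v ^ i)
    (hη : ∀ t < L, 4 ^ (d + 1) * (40 * (1 - (v ^ t : ℕ) / ((u ^ t : ℕ) : ℝ))) ≤ σ)
    (hdu : ∀ t < L, ∑ n ∈ Icc (1 : ℤ) X, |f ((u ^ t : ℕ) * n) - f n| ≤ κ * X)
    (hdv : ∀ t < L, ∑ n ∈ Icc (1 : ℤ) X, |f ((v ^ t : ℕ) * n) - f n| ≤ κ * X)
    {θ' K1 : ℝ} (hθ' : 0 < θ') (hK1 : 1 ≤ K1)
    (hall : ∀ (P : Finset (Fin (d + 1) → ℤ)) (φ : (Fin (d + 1) → ℤ) → ZMod p),
      (∀ α ∈ P, σ * X ≤ ‖ht p X (Dl (d + 1) (win M N f) (fun i => Q * α i)) (φ α)‖) → ε / 2 * ((X : ℝ) / Q) ^ (d + 1) ≤ P.card →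
      ∃ P' ⊆ P, θ' * ((X : ℝ) / Q) ^ (d + 1) ≤ P'.card ∧ ∀ k : Fin (d + 1), (k : ℕ) < d + 1 → Str k φ P' K1)
    {Mc : ℕ} (hMc : 4 * C / σ ^ 2 ≤ Mc)
    (hgrid : ∀ E ⊆ gr (d + 1) L, θ' / (2 * 9 ^ (d + 1)) * (L : ℝ) ^ (d + 1) ≤ E.card →
      ∀ (τ : Type) (χ : (Fin (d + 1) → ℕ) → τ), (∀ c, ((E.filter (fun e => dg e = c)).image χ).card ≤ Mc) →
      ∃ e ∈ E, ∃ e' ∈ E, dg e = dg e' ∧ e 0 < e' 0 ∧ χ e = χ e' ∧ Rc E e e')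
    {Nm : ℕ} (hNm : ∀ E ⊆ gr (d + 1) L, ∀ a ∈ gr (d + 1) L, ∀ b ∈ gr (d + 1) L, Rc E a b → ∃ n ≤ Nm, RN E n a b)
    {K2 : ℕ} (hK2 : (2 * (R : ℝ) ^ 2 + 1) * K1 ^ (2 * R ^ 2 + 1) ≤ K2) {εd : ℝ}
    (hdeg : ∀ Z : Fin (d + 1) → (Fin (d + 1) → ℤ) → ZMod p, (∀ k, Ind k (Z k)) →
      ∑ h ∈ bx (d + 1) X, ‖ht p X (Dl (d + 1) (win M N f) h) (∑ k, Z k h)‖ ^ 2 ≤ εd * (X : ℝ) ^ (d + 3))
    (hfin : 2 * ((Q : ℝ) ^ (d + 1) * Wt d R L K2 Nm) * εd < θ' * σ ^ 2) :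
    GN (d + 3) (win M N f) X ≤ ε * (X : ℝ) ^ (d + 4) := by
  by_contra hcon
  push Not at hcon
  have hX1 : 1 ≤ X := by have := hn.hX; omega
  have hX0 : (0 : ℝ) < X := by exact_mod_cast hX1
  have hσ := hn.hσ
  have hQ1 : 1 ≤ Q := by rw [hQ]; exact Nat.one_le_pow _ _ hv
  have hQr : (0 : ℝ) < Q := by exact_mod_cast hQ1
  have hR1 := hn.hR
  have hQJ : Q ≤ J := le_trans (Nat.le_mul_of_pos_right _ hR1) hQR
  have hQX : Q ≤ X := hQJ.trans hn.hJX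
  have hC1 := hn.hC1
  have h2X : 2 * X ≤ p := by rw [hp]; exact Nat.mul_le_mul_right _ (by omega)
  have hs : Sup (win M N f) X := win_sup f M hN
  have hσ1 : σ ≤ 1 := by
    have h3 : (1 : ℝ) ≤ 3 ^ (d + 1) := one_le_pow₀ (by norm_num)
    nlinarith
  have hpJ : 8 * J < p := by
    have h1 := hn.hX2
    have h4 : (4 : ℝ) ≤ 4 ^ (d + 1) := by
      calc (4 : ℝ) = 4 ^ 1 := by norm_num
        _ ≤ 4 ^ (d + 1) := pow_le_pow_right₀ (by norm_num) (by omega)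
    have h2 : (8 : ℝ) * J ≤ X := by
      have hJ0 : (0 : ℝ) ≤ 40 * J := by positivity
      have h3 := mul_le_mul_of_nonneg_right h4 hJ0
      have h5 := mul_le_mul_of_nonneg_right hσ1 hX0.le
      linarith
    have h3 : 8 * J ≤ X := by exact_mod_cast h2
    omega
  obtain ⟨P0, φ, hP0, hP0c⟩ := many_k (p := p) d hf hN hX1 hε hε1 hσe hQ1 hQJ hloc (by
    have h1 := hn.loc
    have : 0 ≤ σ * X := by positivity
    linarith) h2X (by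
    have e : 2 + (d + 1) = d + 3 := by omega
    rw [e]
    exact hcon)
  obtain ⟨P, hPP0, hPc, hStr⟩ := hall P0 φ hP0 (by
    rw [div_pow]
    have h1 : ε / 2 * ((X : ℝ) ^ (d + 1) / (Q : ℝ) ^ (d + 1)) = ε * (X : ℝ) ^ (d + 1) / (2 * (Q : ℝ) ^ (d + 1)) := by
      field_simp
    rw [h1, div_le_iff₀ (by positivity)]
    linarith)
  have hP : ∀ α ∈ P, σ * X ≤ ‖ht p X (Dl (d + 1) (win M N f) (fun i => Q * α i)) (φ α)‖ := fun α hα => hP0 α (hPP0 hα)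
  obtain ⟨Y, hY⟩ : ∃ Y : ℕ, Y = X / Q := ⟨_, rfl⟩
  have hY1 : 1 ≤ Y := by rw [hY]; exact (Nat.one_le_div_iff hQ1).2 hQX
  have hPlt : ∀ α ∈ P, ∀ k, |(Q : ℤ) * α k| < X := fun α hα k => ht_pos (p := p) hs hσ hX1 (hP α hα) k
  have hPbx : P ⊆ bx (d + 1) Y := by
    intro α hα
    rw [mem_bx]
    intro k
    have h1 := hPlt α hα k
    rw [abs_mul, abs_of_nonneg (Int.natCast_nonneg Q), Int.abs_eq_natAbs] at h1
    have h2 : Q * (α k).natAbs < X := by exact_mod_cast h1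
    rw [Int.abs_eq_natAbs]
    have h3 : (α k).natAbs ≤ X / Q := by
      rw [Nat.le_div_iff_mul_le hQ1, mul_comm]
      exact h2.le
    rw [hY]
    exact_mod_cast h3
  have hlots := lots (D := d + 1) hL hY1 hv hvu.le hrat hPbx (δ := θ' / (2 * 9 ^ (d + 1))) (by positivity)
  set G := (bx (d + 1) (3 * Y)).filter (fun γ => θ' / (2 * 9 ^ (d + 1)) * (L : ℝ) ^ (d + 1) ≤ (Eg u v L P γ).card) with hG
  have hGc : θ' / 2 * ((X : ℝ) / Q) ^ (d + 1) ≤ G.card := by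
    have h1 : (Y : ℝ) ≤ X / Q := by rw [hY]; exact Nat.cast_div_le
    have h2 : (Y : ℝ) ^ (d + 1) ≤ ((X : ℝ) / Q) ^ (d + 1) := pow_le_pow_left₀ (Nat.cast_nonneg _) h1 _
    have h3 : 9 ^ (d + 1) * (Y : ℝ) ^ (d + 1) * (θ' / (2 * 9 ^ (d + 1))) = θ' / 2 * (Y : ℝ) ^ (d + 1) := by field_simp
    rw [h3] at hlots
    have h4 := mul_le_mul_of_nonneg_left h2 (show 0 ≤ θ' / 2 by positivity)
    linarith
  have hpairs : ∀ γ ∈ G, ∃ q : Finset (Fin (d + 1) → ℕ) × (Fin (d + 1) → ℕ) × (Fin (d + 1) → ℕ), q.1 = Eg u v L P γ ∧ q.2.1 ∈ q.1 ∧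
      q.2.2 ∈ q.1 ∧ dg q.2.1 = dg q.2.2 ∧ q.2.1 0 < q.2.2 0 ∧ col p φ u v L γ q.2.1 = col p φ u v L γ q.2.2 ∧ Rc q.1 q.2.1 q.2.2 := by
    intro γ hγ
    obtain ⟨e, he, e', he', h1, h2, h3, h4⟩ := pairs (p := p) hf hMN hN hn hp hloc hv hvu.le huR hQ hQR hη hdu hdv hP hMc hgrid
      (mem_filter.1 hγ).2
    exact ⟨(Eg u v L P γ, e, e'), rfl, he, he', h1, h2, h3, h4⟩
  choose! τ hτ using hpairs
  set T := (gr (d + 1) L).powerset ×ˢ gr (d + 1) L ×ˢ gr (d + 1) L with hT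
  have hEg : ∀ γ, Eg u v L P γ ⊆ gr (d + 1) L := fun γ => filter_subset _ _
  have hcnt : ∀ c : Unit, ((G.filter (fun _ => () = c)).image τ).card ≤ T.card := by
    intro c
    apply card_le_card
    intro q hq
    rw [mem_image] at hq
    obtain ⟨γ, hγ, rfl⟩ := hq
    rw [mem_filter] at hγ
    have h1 := hτ γ hγ.1
    rw [hT, mem_product, mem_product, mem_powerset]
    have h2 : (τ γ).1 ⊆ gr (d + 1) L := by rw [h1.1]; exact hEg γ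
    exact ⟨h2, h2 h1.2.1, h2 h1.2.2.1⟩
  obtain ⟨pop, S0, hS0, hS0c, hpop⟩ := select G (fun _ => ()) τ T.card (fun c => cif.le.trans (hcnt c))
  have hGpos : 0 < G.card := by
    have h1 : (0 : ℝ) < θ' / 2 * ((X : ℝ) / Q) ^ (d + 1) := by positivity
    exact_mod_cast h1.trans_le hGc
  have hS0ne : S0.Nonempty := by
    rw [nonempty_iff_ne_empty]
    intro h0
    rw [h0, card_empty, mul_zero] at hS0c
    omega
  obtain ⟨γ0, hγ0⟩ := hS0ne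
  obtain ⟨E, hE⟩ : ∃ E, E = (pop ()).1 := ⟨_, rfl⟩
  obtain ⟨e, he⟩ : ∃ e, e = (pop ()).2.1 := ⟨_, rfl⟩
  obtain ⟨e', he'⟩ : ∃ e', e' = (pop ()).2.2 := ⟨_, rfl⟩
  have hall0 : ∀ γ ∈ S0, E = Eg u v L P γ ∧ e ∈ E ∧ e' ∈ E ∧ dg e = dg e' ∧ e 0 < e' 0 ∧ col p φ u v L γ e = col p φ u v L γ e' ∧ Rc E e e' := by
    intro γ hγ
    have h1 := hτ γ (hS0 hγ)
    rw [hpop γ hγ] at h1
    rw [hE, he, he']
    exact h1
  obtain ⟨k1, k2, k3, k4, k5, -, k7⟩ := hall0 γ0 hγ0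
  have hEgr : E ⊆ gr (d + 1) L := by rw [k1]; exact hEg γ0
  obtain ⟨n, hnN, hRN⟩ := hNm E hEgr e (hEgr k2) e' (hEgr k3) k7
  obtain ⟨S, hS, hSc, Z, hZ, hfr, par, hpar⟩ := final_set (p := p) hK1 (fun k => hStr k k.2) hn.hRJ
    (fun α hα => small_freq (p := p) hf (M := M) hN hn hloc (hP α hα)) hpJ hv hvu huR hEgr hK2 k2 k3 k4 k5 hRN (S := S0)
    (fun γ hγ y hy => by
      rw [(hall0 γ hγ).1] at hy
      exact (mem_filter.1 hy).2)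
    (fun γ hγ => (hall0 γ hγ).2.2.2.2.2.1)
  obtain ⟨Z', hZ', hlow⟩ := lower (p := p) (g := win M N f) hσ.le hP (fun α hα => by
      rw [mem_bx]
      intro k
      exact (hPlt α hα k).le) hQ1 hv hvu.le hrat (hEgr k2) (S := S)
    (fun γ hγ => by
      have h1 := (hall0 γ (hS hγ)).1
      have h2 : e ∈ Eg u v L P γ := by rw [← h1]; exact k2
      exact (mem_filter.1 h2).2) hZ hfr hpar
  have hup := hdeg Z' hZ'
  have hK21 : 1 ≤ K2 := by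
    have h1 : (1 : ℝ) ≤ (2 * (R : ℝ) ^ 2 + 1) * K1 ^ (2 * R ^ 2 + 1) := by
      have h2 : (1 : ℝ) ≤ 2 * (R : ℝ) ^ 2 + 1 := by have := sq_nonneg (R : ℝ); linarith
      have h3 : (1 : ℝ) ≤ K1 ^ (2 * R ^ 2 + 1) := one_le_pow₀ hK1
      nlinarith
    exact_mod_cast h1.trans hK2
  have hSS : G.card ≤ Wt d R L K2 Nm * S.card := by
    unfold Wt
    calc G.card ≤ T.card * S0.card := hS0c
      _ ≤ T.card * (K2 ^ n * ((2 * (R + d + 2) + 1) * 2 ^ (d + 1)) * S.card) := Nat.mul_le_mul_left _ hSc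
      _ ≤ T.card * (K2 ^ Nm * ((2 * (R + d + 2) + 1) * 2 ^ (d + 1)) * S.card) := by
        apply Nat.mul_le_mul_left
        apply Nat.mul_le_mul_right
        apply Nat.mul_le_mul_right
        exact Nat.pow_le_pow_right hK21 hnN
      _ = _ := by rw [hT]; ring
  have hSS' : (G.card : ℝ) ≤ (Wt d R L K2 Nm : ℝ) * S.card := by exact_mod_cast hSS
  have e1 : θ' / 2 * ((X : ℝ) / Q) ^ (d + 1) * (σ * X) ^ 2 ≤ (Wt d R L K2 Nm : ℝ) * (εd * (X : ℝ) ^ (d + 3)) := by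
    calc θ' / 2 * ((X : ℝ) / Q) ^ (d + 1) * (σ * X) ^ 2 ≤ ((Wt d R L K2 Nm : ℝ) * S.card) * (σ * X) ^ 2 :=
          mul_le_mul_of_nonneg_right (hGc.trans hSS') (by positivity)
      _ = (Wt d R L K2 Nm : ℝ) * (S.card * (σ * X) ^ 2) := by ring
      _ ≤ _ := mul_le_mul_of_nonneg_left (hlow.trans hup) (Nat.cast_nonneg _)
  rw [div_pow] at e1
  have e2 : θ' / 2 * ((X : ℝ) ^ (d + 1) / (Q : ℝ) ^ (d + 1)) * (σ * X) ^ 2 = (θ' * σ ^ 2) * (X : ℝ) ^ (d + 3) / (2 * (Q : ℝ) ^ (d + 1)) := by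
    field_simp
    ring
  rw [e2, div_le_iff₀ (by positivity)] at e1
  have e3 : (θ' * σ ^ 2) * (X : ℝ) ^ (d + 3) ≤ (2 * ((Q : ℝ) ^ (d + 1) * Wt d R L K2 Nm) * εd) * (X : ℝ) ^ (d + 3) := by
    calc (θ' * σ ^ 2) * (X : ℝ) ^ (d + 3) ≤ _ := e1
      _ = _ := by ring
  have e4 := le_of_mul_le_mul_right e3 (by positivity)
  linarith

end Pool.Agent.W36.GK
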