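import Pool.Agent.W36.GK.K13

/-! All Gowers norms of the functions of the class are small, uniformly. -/

set_option autoImplicit false

namespace Pool.Agent.W36.GK

open Finset Pool.Agent.W36.GU Pool.Agent.W36.GV

/-- the Gowers norm of order `k` is small on the class -/
def Sm (k : ℕ) (F : Set (ℤ → ℝ)) : Prop :=
  ∀ ε : ℝ, 0 < ε → ∃ X0 : ℕ, ∀ X : ℕ, X0 ≤ X → ∀ f ∈ F, ∀ M N : ℕ, M ≤ N → N ≤ X → GN k (win M N f) X ≤ ε * (X : ℝ) ^ (k + 1)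

theorem Sm_of {k : ℕ} {F : Set (ℤ → ℝ)} (h : ∀ ε : ℝ, 0 < ε → ε ≤ 1 → ∃ X0 : ℕ, ∀ X : ℕ, X0 ≤ X → ∀ f ∈ F, ∀ M N : ℕ, M ≤ N → N ≤ X →
    GN k (win M N f) X ≤ ε * (X : ℝ) ^ (k + 1)) : Sm k F := by
  intro ε hε
  obtain ⟨X0, h0⟩ := h (min ε 1) (lt_min hε one_pos) (min_le_right ε 1)
  refine ⟨X0, fun X hX f hf M N hMN hN => (h0 X hX f hf M N hMN hN).trans ?_⟩
  exact mul_le_mul_of_nonneg_right (min_le_left _ _) (by positivity)

theorem base1 {F : Set (ℤ → ℝ)} {A B : ℕ} (H : Hyp F A B) : Sm 1 F := by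
  apply Sm_of
  intro ε hε hε1
  obtain ⟨X0, h0⟩ := H.fou ε hε
  refine ⟨X0 + 1, fun X hX f hf M N hMN hN => ?_⟩
  have hX0 : (0 : ℝ) < X := by exact_mod_cast (by omega : 0 < X)
  rw [GN_one (win_sup f M hN)]
  have h1 := h0 X (by omega) f hf M N hMN hN 1 0
  have h2 : ‖((GN 0 (win M N f) X : ℝ) : ℂ)‖ ≤ ε * X := by
    refine le_trans (le_of_eq ?_) h1
    congr 1
    unfold GN
    push_cast
    apply sum_congr rfl
    intro n _
    rw [zero_mul]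
    have : psi 1 0 = 1 := by simp [psi]
    rw [this, mul_one]
  rw [Complex.norm_real, Real.norm_eq_abs] at h2
  have h3 : (GN 0 (win M N f) X) ^ 2 ≤ (ε * X) ^ 2 := by
    rw [← sq_abs]
    exact pow_le_pow_left₀ (abs_nonneg _) h2 2
  have h4 : (ε * X) ^ 2 ≤ ε * (X : ℝ) ^ (1 + 1) := by
    have : (ε * X) ^ 2 = (ε * ε) * (X : ℝ) ^ (1 + 1) := by ring
    rw [this]
    apply mul_le_mul_of_nonneg_right _ (by positivity)
    nlinarith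
  exact h3.trans h4

theorem base2 {F : Set (ℤ → ℝ)} {A B : ℕ} (H : Hyp F A B) : Sm 2 F := by
  apply Sm_of
  intro ε hε hε1
  obtain ⟨X0, h0⟩ := H.fou ε hε
  refine ⟨X0 + 1, fun X hX f hf M N hMN hN => ?_⟩
  have hX0 : 0 < X := by omega
  have : NeZero (2 * X) := ⟨by positivity⟩
  have h1 := GN2_le (p := 2 * X) (F := win M N f) (X := X) (win_abs (H.abs f hf) M N) (win_sup f M hN) le_rfl
    (m := ε * X) (fun ξ => h0 X (by omega) f hf M N hMN hN (2 * X) ξ)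
  refine h1.trans ?_
  have : (ε * X) ^ 2 * X = (ε * ε) * (X : ℝ) ^ (2 + 1) := by ring
  rw [this]
  apply mul_le_mul_of_nonneg_right _ (by positivity)
  nlinarith

theorem step {F : Set (ℤ → ℝ)} {A B : ℕ} (H : Hyp F A B) (d : ℕ) (ih : Sm (d + 2) F) : Sm (d + 3) F := by
  apply Sm_of
  intro ε hε hε1
  obtain ⟨σ, hσd⟩ : ∃ σ : ℝ, σ = ε / (4 * 3 ^ (d + 1)) := ⟨_, rfl⟩
  have hσ : 0 < σ := by rw [hσd]; positivity
  have hσe : ε = 4 * 3 ^ (d + 1) * σ := by rw [hσd]; field_simp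
  obtain ⟨C0, hC0⟩ := exists_nat_ge (160 / σ)
  obtain ⟨C, hCd⟩ : ∃ C : ℕ, C = C0 + 4 := ⟨_, rfl⟩
  have hC : 160 ≤ σ * C := by
    rw [div_le_iff₀ hσ] at hC0
    rw [hCd]
    push_cast
    nlinarith
  obtain ⟨θ', hθ', K1, hK1, Hall⟩ := allstr d hσ (show 1 ≤ C by omega) (d + 1) (ε / 2) (by positivity)
  obtain ⟨Mc, hMc⟩ := exists_nat_ge (4 * C / σ ^ 2)
  obtain ⟨L, hL, hgrid⟩ := grid d (δ := θ' / (2 * 9 ^ (d + 1))) (by positivity) Mc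
  obtain ⟨Nm, hNm⟩ := RN_bound (d + 1) L
  obtain ⟨η, hηd⟩ : ∃ η : ℝ, η = min (σ / (40 * 4 ^ (d + 1))) (1 / 2) := ⟨_, rfl⟩
  have hη0 : 0 < η := by rw [hηd]; exact lt_min (by positivity) (by norm_num)
  obtain ⟨k, j, hk, hj, hkj⟩ := ratios H.two_leA H.two_leB H.ind (2 * L) hη0
  have hA1 : 1 ≤ A ^ k := Nat.one_le_pow _ _ (by have := H.two_leA; omega)
  have hB1 : 1 ≤ B ^ j := Nat.one_le_pow _ _ (by have := H.two_leB; omega)
  obtain ⟨U, hU⟩ : ∃ U : ℕ, U = max (A ^ k) (B ^ j) := ⟨_, rfl⟩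
  obtain ⟨V, hV⟩ : ∃ V : ℕ, V = min (A ^ k) (B ^ j) := ⟨_, rfl⟩
  rw [← hU, ← hV] at hkj
  have hne : A ^ k ≠ B ^ j := H.ind k j hk hj
  have hV1 : 1 ≤ V := by rw [hV]; exact le_min hA1 hB1
  have hVU : V < U := by
    rw [hU, hV]
    rcases lt_or_gt_of_ne hne with h | h
    · rw [min_eq_left h.le, max_eq_right h.le]; exact h
    · rw [min_eq_right h.le, max_eq_left h.le]; exact h
  have hU1 : 1 ≤ U := by omega
  have hrat : ∀ i < 2 * L, U ^ i ≤ 2 * V ^ i := by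
    intro i hi
    have h1 := hkj i hi.le
    have h2 : η ≤ 1 / 2 := by rw [hηd]; exact min_le_right _ _
    have hUi : (0 : ℝ) < ((U ^ i : ℕ) : ℝ) := by exact_mod_cast Nat.pos_of_ne_zero (by positivity)
    have h3 : (1 : ℝ) / 2 ≤ ((V ^ i : ℕ) : ℝ) / ((U ^ i : ℕ) : ℝ) := by linarith
    rw [le_div_iff₀ hUi] at h3
    have h4 : ((U ^ i : ℕ) : ℝ) ≤ ((2 * V ^ i : ℕ) : ℝ) := by push_cast at h3 ⊢; linarith
    exact_mod_cast h4
  have hη : ∀ t < L, 4 ^ (d + 1) * (40 * (1 - (V ^ t : ℕ) / ((U ^ t : ℕ) : ℝ))) ≤ σ := by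
    intro t ht
    have h1 := hkj t (by omega)
    have h2 : η ≤ σ / (40 * 4 ^ (d + 1)) := by rw [hηd]; exact min_le_left _ _
    have h3 : 1 - ((V ^ t : ℕ) : ℝ) / ((U ^ t : ℕ) : ℝ) ≤ σ / (40 * 4 ^ (d + 1)) := h1.trans h2
    calc 4 ^ (d + 1) * (40 * (1 - (V ^ t : ℕ) / ((U ^ t : ℕ) : ℝ))) ≤ 4 ^ (d + 1) * (40 * (σ / (40 * 4 ^ (d + 1)))) := by
          apply mul_le_mul_of_nonneg_left _ (by positivity)
          exact mul_le_mul_of_nonneg_left h3 (by norm_num)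
      _ = σ := by field_simp
  obtain ⟨R, hR⟩ : ∃ R : ℕ, R = U ^ (2 * L) := ⟨_, rfl⟩
  obtain ⟨Q, hQ⟩ : ∃ Q : ℕ, Q = V ^ L := ⟨_, rfl⟩
  have hR1 : 1 ≤ R := by rw [hR]; exact Nat.one_le_pow _ _ hU1
  have hQ1 : 1 ≤ Q := by rw [hQ]; exact Nat.one_le_pow _ _ hV1
  have hRR : (1 : ℝ) ≤ R := by exact_mod_cast hR1
  have hQQ : (1 : ℝ) ≤ Q := by exact_mod_cast hQ1
  obtain ⟨J0, hJ0⟩ := exists_nat_ge (200 * R / σ)
  obtain ⟨J, hJd⟩ : ∃ J : ℕ, J = J0 + R ^ 2 + Q * R + 1 := ⟨_, rfl⟩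
  have hJ : 200 * (R : ℝ) ≤ σ * J := by
    rw [div_le_iff₀ hσ] at hJ0
    rw [hJd]
    push_cast
    have : 0 ≤ σ * ((R : ℝ) ^ 2 + Q * R + 1) := by positivity
    linarith
  obtain ⟨κ, hκd⟩ : ∃ κ : ℝ, κ = σ / (4 ^ (d + 1) * (80 * R)) := ⟨_, rfl⟩
  have hκ : 0 < κ := by rw [hκd]; positivity
  have hκR : 4 ^ (d + 1) * (80 * R * κ) ≤ σ := by
    have : 4 ^ (d + 1) * (80 * R * κ) = κ * (4 ^ (d + 1) * (80 * R)) := by ring
    rw [this, hκd]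
    exact (div_mul_cancel₀ σ (by positivity)).le
  obtain ⟨K2, hK2⟩ := exists_nat_ge ((2 * (R : ℝ) ^ 2 + 1) * K1 ^ (2 * R ^ 2 + 1))
  obtain ⟨εd, hεd⟩ : ∃ εd : ℝ, εd = θ' * σ ^ 2 / (4 * ((Q : ℝ) ^ (d + 1) * Wt d R L K2 Nm + 1)) := ⟨_, rfl⟩
  have hW0 : (0 : ℝ) ≤ (Q : ℝ) ^ (d + 1) * Wt d R L K2 Nm := by positivity
  have hεd0 : 0 < εd := by rw [hεd]; positivity
  have hfin : 2 * ((Q : ℝ) ^ (d + 1) * Wt d R L K2 Nm) * εd < θ' * σ ^ 2 := by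
    have h1 : 4 * ((Q : ℝ) ^ (d + 1) * Wt d R L K2 Nm + 1) * εd = θ' * σ ^ 2 := by
      rw [hεd]; field_simp
    have h2 : 0 ≤ ((Q : ℝ) ^ (d + 1) * Wt d R L K2 Nm) * εd := by positivity
    nlinarith
  obtain ⟨δd, hδd, Hdeg⟩ := degenerate d hεd0
  obtain ⟨X6, hX6⟩ := ih δd hδd
  obtain ⟨X1, hX1⟩ := H.loc_all hκ J
  obtain ⟨X2, hX2⟩ := (Dil.pow (by have := H.two_leA; omega) H.dilA k).all hA1 hκ L
  obtain ⟨X3, hX3⟩ := (Dil.pow (by have := H.two_leB; omega) H.dilB j).all hB1 hκ L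
  obtain ⟨X5, hX5⟩ := exists_nat_ge (4 ^ (d + 1) * (120 * (R : ℝ) ^ 2) / σ + 4 ^ (d + 1) * (40 * (J : ℝ)) / σ)
  refine ⟨X1 + X2 + X3 + X5 + X6 + J + 2, fun X hX f hf M N hMN hN => ?_⟩
  have hp1 : C * X ≠ 0 := by
    have : 0 < C := by omega
    have : 0 < X := by omega
    positivity
  have : NeZero (C * X) := ⟨hp1⟩
  have hXX : 4 ^ (d + 1) * (120 * (R : ℝ) ^ 2) + 4 ^ (d + 1) * (40 * (J : ℝ)) ≤ σ * X := by
    have h1 : 4 ^ (d + 1) * (120 * (R : ℝ) ^ 2) / σ + 4 ^ (d + 1) * (40 * (J : ℝ)) / σ ≤ X := by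
      refine hX5.trans ?_
      exact_mod_cast (by omega : X5 ≤ X)
    rw [← add_div, div_le_iff₀ hσ] at h1
    linarith
  have hnum : Num d σ κ C R J X := by
    refine ⟨hσ, hκ.le, hκR, ?_, ?_, hC, by omega, hJ, by omega, hR1, by omega, by omega⟩
    · have : (0 : ℝ) ≤ 4 ^ (d + 1) * (40 * (J : ℝ)) := by positivity
      linarith
    · have : (0 : ℝ) ≤ 4 ^ (d + 1) * (120 * (R : ℝ) ^ 2) := by positivity
      linarith
  have hfB := H.abs f hf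
  have hwB := win_abs hfB M N
  have hwS := win_sup f M hN
  have hQR : Q * R ≤ J := by omega
  have hQX : Q ≤ X := by
    have : Q ≤ Q * R := Nat.le_mul_of_pos_right _ hR1
    omega
  refine core (p := C * X) hfB hMN hN hε hε1 hσe hnum rfl (fun t ht => hX1 X (by omega) f hf t ht) hV1 hVU hL hR.ge hQ hQR hrat hη
    ?_ ?_ hθ' hK1 (fun P φ h1 h2 => Hall (C * X) X Q hQ1 hQX rfl (win M N f) hwB hwS P φ h1 h2) hMc hgrid hNm hK2
    (fun Z hZ => Hdeg X (by omega) (win M N f) hwB hwS (hX6 X (by omega) f hf M N hMN hN) (C * X) Z hZ) hfin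
  · intro t ht
    rw [hU]
    rcases max_choice (A ^ k) (B ^ j) with h | h
    · rw [h]; exact hX2 X (by omega) f hf t ht.le
    · rw [h]; exact hX3 X (by omega) f hf t ht.le
  · intro t ht
    rw [hV]
    rcases min_choice (A ^ k) (B ^ j) with h | h
    · rw [h]; exact hX2 X (by omega) f hf t ht.le
    · rw [h]; exact hX3 X (by omega) f hf t ht.le

/-- All Gowers norms of the functions of the class are small on all windows, uniformly. -/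
theorem GN_all {F : Set (ℤ → ℝ)} {A B : ℕ} (H : Hyp F A B) (k : ℕ) : Sm (k + 1) F := by
  rcases k with _ | k
  · exact base1 H
  · induction k with
    | zero => exact base2 H
    | succ k ih => exact step H k ih

end Pool.Agent.W36.GK
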