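import Pool.Agent.W36.GK.K1
import Pool.Agent.W36.GU.GU3

/-! Degenerate phases. -/

set_option autoImplicit false

namespace Pool.Agent.W36.GK

open Finset Pool.Agent.W36.GU Pool.Agent.W36.GV

/-- independent of the coordinate `k` -/
def Ind {d : ℕ} {β : Type*} (k : Fin d) (b : (Fin d → ℤ) → β) : Prop := ∀ h a, b (Function.update h k a) = b h

/-- the weighted sum of the derivatives -/
noncomputable def T (d X : ℕ) (F : ℤ → ℝ) (b : Fin d → (Fin d → ℤ) → ℂ) : ℂ :=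
  ∑ h ∈ bx d X, (∏ k, b k h) * ((GN 0 (Dl d F h) X : ℝ) : ℂ)

theorem card_I {X : ℕ} (hX : 1 ≤ X) : ((Icc (-(X : ℤ)) X).card : ℝ) ≤ 3 * X := by
  rw [Int.card_Icc]
  have hX1 : (1 : ℝ) ≤ X := by exact_mod_cast hX
  have : ((X : ℤ) + 1 - -(X : ℤ)).toNat = 2 * X + 1 := by omega
  rw [this]; push_cast; linarith

theorem T_triv {d X : ℕ} (hX : 1 ≤ X) {F : ℤ → ℝ} (hF : B1 F) {b : Fin d → (Fin d → ℤ) → ℂ} (hb : ∀ k h, ‖b k h‖ ≤ 1) :
    ‖T d X F b‖ ≤ 3 ^ d * (X : ℝ) ^ (d + 1) := by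
  unfold T
  refine (norm_sum_le _ _).trans ?_
  have h1 : ∀ h ∈ bx d X, ‖(∏ k, b k h) * ((GN 0 (Dl d F h) X : ℝ) : ℂ)‖ ≤ X := by
    intro h _
    rw [norm_mul, norm_prod, Complex.norm_real, Real.norm_eq_abs]
    have h2 : ∏ k, ‖b k h‖ ≤ 1 := prod_le_one (fun _ _ => norm_nonneg _) fun k _ => hb k h
    have h3 := GN_le 0 hX (Dl_B1 d hF h)
    rw [pow_zero, one_mul, zero_add, pow_one] at h3
    calc (∏ k, ‖b k h‖) * |GN 0 (Dl d F h) X| ≤ 1 * X := mul_le_mul h2 h3 (abs_nonneg _) zero_le_one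
      _ = X := one_mul _
  refine (sum_le_card_nsmul _ _ _ h1).trans ?_
  rw [nsmul_eq_mul]
  calc ((bx d X).card : ℝ) * X ≤ (3 ^ d * (X : ℝ) ^ d) * X := mul_le_mul_of_nonneg_right (card_bx_le hX d) (Nat.cast_nonneg _)
    _ = _ := by ring

/-- the weights after the elimination -/
noncomputable def bb {d : ℕ} (b : Fin (d + 1) → (Fin (d + 1) → ℤ) → ℂ) (t t' : ℤ) : Fin d → (Fin d → ℤ) → ℂ :=
  fun k h => b k.succ (Fin.cons t h) * starRingEnd ℂ (b k.succ (Fin.cons t' h))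

theorem bb_norm {d : ℕ} {b : Fin (d + 1) → (Fin (d + 1) → ℤ) → ℂ} (hb : ∀ k h, ‖b k h‖ ≤ 1) (t t' : ℤ) :
    ∀ k h, ‖bb b t t' k h‖ ≤ 1 := by
  intro k h
  unfold bb
  rw [norm_mul, RCLike.norm_conj]
  exact mul_le_one₀ (hb _ _) (norm_nonneg _) (hb _ _)

theorem bb_ind {d : ℕ} {b : Fin (d + 1) → (Fin (d + 1) → ℤ) → ℂ} (hb : ∀ k, Ind k (b k)) (t t' : ℤ) :
    ∀ k, Ind k (bb b t t' k) := by
  intro k h a
  unfold bb
  rw [Fin.cons_update, Fin.cons_update, hb, hb]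

theorem T_sq {d X : ℕ} {F : ℤ → ℝ} (hF : B1 F) (hs : Sup F X) {b : Fin (d + 1) → (Fin (d + 1) → ℤ) → ℂ}
    (hb : ∀ k h, ‖b k h‖ ≤ 1) (hi : ∀ k, Ind k (b k)) :
    ‖T (d + 1) X F b‖ ^ 2 ≤ ((bx d X).card * X) * ∑ t ∈ Icc (-(X : ℤ)) X, ∑ t' ∈ Icc (-(X : ℤ)) X,
      ‖T d X (De (t' - t) F) (bb b t t')‖ := by
  set I := Icc (-(X : ℤ)) X with hI
  set E : (Fin d → ℤ) → ℤ → ℝ := fun h => Dl d F h with hE
  set β : (Fin d → ℤ) → ℤ → ℂ := fun h t => ∏ k : Fin d, b k.succ (Fin.cons t h) with hβ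
  set c : (Fin d → ℤ) → ℤ → ℂ := fun h n => ∑ t ∈ I, β h t * (E h (n + t) : ℂ) with hc
  have e1 : T (d + 1) X F b = ∑ q ∈ bx d X ×ˢ Icc (1 : ℤ) X, (b 0 (Fin.cons 0 q.1) * (E q.1 q.2 : ℂ)) * c q.1 q.2 := by
    unfold T
    rw [sum_bx_succ, sum_product, sum_comm]
    apply sum_congr rfl
    intro h _
    have e2 : ∀ t ∈ I, (∏ k, b k (Fin.cons t h)) * ((GN 0 (Dl (d + 1) F (Fin.cons t h)) X : ℝ) : ℂ)
        = ∑ n ∈ Icc (1 : ℤ) X, (b 0 (Fin.cons 0 h) * (E h n : ℂ)) * (β h t * (E h (n + t) : ℂ)) := by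
      intro t _
      rw [Dl_cons, Fin.prod_univ_succ]
      have e3 : b 0 (Fin.cons t h) = b 0 (Fin.cons 0 h) := by
        have := hi 0 (Fin.cons 0 h) t
        rw [Fin.update_cons_zero] at this
        exact this
      rw [e3]
      unfold GN
      rw [Complex.ofReal_sum, mul_sum]
      apply sum_congr rfl
      intro n _
      rw [Dl_De]
      simp only [hE, hβ]
      push_cast
      ring
    rw [sum_congr rfl e2, sum_comm]
    apply sum_congr rfl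
    intro n _
    simp only [hc]
    rw [mul_sum]
  have e2 : ‖T (d + 1) X F b‖ ≤ ∑ q ∈ bx d X ×ˢ Icc (1 : ℤ) X, ‖c q.1 q.2‖ := by
    rw [e1]
    refine (norm_sum_le _ _).trans (sum_le_sum fun q _ => ?_)
    rw [norm_mul]
    apply mul_le_of_le_one_left (norm_nonneg _)
    rw [norm_mul, Complex.norm_real, Real.norm_eq_abs]
    exact mul_le_one₀ (hb _ _) (abs_nonneg _) (Dl_B1 d hF q.1 q.2)
  have e3 : ‖T (d + 1) X F b‖ ^ 2 ≤ ((bx d X).card * X) * ∑ q ∈ bx d X ×ˢ Icc (1 : ℤ) X, ‖c q.1 q.2‖ ^ 2 := by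
    refine (pow_le_pow_left₀ (norm_nonneg _) e2 2).trans (sq_sum_le_card_mul_sum_sq.trans (le_of_eq ?_))
    rw [card_product, Int.card_Icc]
    congr 1
    push_cast
    congr 1
    norm_num
  have e4 : ∑ q ∈ bx d X ×ˢ Icc (1 : ℤ) X, ‖c q.1 q.2‖ ^ 2 ≤ ∑ h ∈ bx d X, ∑ n ∈ Icc (-(X : ℤ)) (2 * X), ‖c h n‖ ^ 2 := by
    rw [sum_product]
    apply sum_le_sum
    intro h _
    apply sum_le_sum_of_subset_of_nonneg
    · intro n hn
      rw [mem_Icc] at hn ⊢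
      omega
    · intro _ _ _; positivity
  have e5 : ((∑ h ∈ bx d X, ∑ n ∈ Icc (-(X : ℤ)) (2 * X), ‖c h n‖ ^ 2 : ℝ) : ℂ)
      = ∑ t ∈ I, ∑ t' ∈ I, T d X (De (t' - t) F) (bb b t t') := by
    have e6 : ∀ h : Fin d → ℤ, ∑ n ∈ Icc (-(X : ℤ)) (2 * X), ((‖c h n‖ ^ 2 : ℝ) : ℂ)
        = ∑ t ∈ I, ∑ t' ∈ I, (β h t * starRingEnd ℂ (β h t')) * ((GN 0 (Dl d (De (t' - t) F) h) X : ℝ) : ℂ) := by
      intro h
      have e7 : ∀ n : ℤ, ((‖c h n‖ ^ 2 : ℝ) : ℂ)
          = ∑ t ∈ I, ∑ t' ∈ I, (β h t * starRingEnd ℂ (β h t')) * ((E h (n + t) * E h (n + t') : ℝ) : ℂ) := by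
        intro n
        rw [norm_sq_c]
        simp only [hc]
        rw [map_sum, sum_mul_sum]
        apply sum_congr rfl; intro t _
        apply sum_congr rfl; intro t' _
        rw [map_mul, Complex.conj_ofReal]
        push_cast
        ring
      simp only [e7]
      rw [sum_comm]
      apply sum_congr rfl; intro t ht
      rw [sum_comm]
      apply sum_congr rfl; intro t' _
      rw [← mul_sum]
      congr 1
      have ht' : |t| ≤ X := abs_le.2 (mem_Icc.1 ht)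
      have e8 := shift_big (G := fun m : ℤ => ((E h m * E h (m + (t' - t)) : ℝ) : ℂ)) (X := X) (by
        intro n hn
        apply Dl_sup d hs h
        intro h0
        apply hn
        simp only [hE]
        rw [h0]; simp) ht'
      have e9 : ∑ n ∈ Icc (-(X : ℤ)) (2 * X), ((E h (n + t) * E h (n + t') : ℝ) : ℂ)
          = ∑ n ∈ Icc (-(X : ℤ)) (2 * X), (fun m : ℤ => ((E h m * E h (m + (t' - t)) : ℝ) : ℂ)) (n + t) := by
        apply sum_congr rfl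
        intro n _
        have : n + t + (t' - t) = n + t' := by ring
        simp only [this]
      rw [e9, e8]
      unfold GN
      rw [Complex.ofReal_sum]
      apply sum_congr rfl
      intro m _
      rw [Dl_De]
    rw [Complex.ofReal_sum]
    have e10 : ∀ h ∈ bx d X, (((∑ n ∈ Icc (-(X : ℤ)) (2 * X), ‖c h n‖ ^ 2 : ℝ)) : ℂ)
        = ∑ t ∈ I, ∑ t' ∈ I, (β h t * starRingEnd ℂ (β h t')) * ((GN 0 (Dl d (De (t' - t) F) h) X : ℝ) : ℂ) := by
      intro h _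
      rw [Complex.ofReal_sum, e6]
    rw [sum_congr rfl e10, sum_comm]
    apply sum_congr rfl; intro t _
    rw [sum_comm]
    apply sum_congr rfl; intro t' _
    unfold T
    apply sum_congr rfl; intro h _
    congr 1
    simp only [hβ, bb]
    rw [map_prod, prod_mul_distrib]
  have e6 : ∑ h ∈ bx d X, ∑ n ∈ Icc (-(X : ℤ)) (2 * X), ‖c h n‖ ^ 2
      ≤ ∑ t ∈ I, ∑ t' ∈ I, ‖T d X (De (t' - t) F) (bb b t t')‖ := by
    have h0 : 0 ≤ ∑ h ∈ bx d X, ∑ n ∈ Icc (-(X : ℤ)) (2 * X), ‖c h n‖ ^ 2 :=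
      sum_nonneg fun _ _ => sum_nonneg fun _ _ => by positivity
    have e7 : ∑ h ∈ bx d X, ∑ n ∈ Icc (-(X : ℤ)) (2 * X), ‖c h n‖ ^ 2
        = ‖((∑ h ∈ bx d X, ∑ n ∈ Icc (-(X : ℤ)) (2 * X), ‖c h n‖ ^ 2 : ℝ) : ℂ)‖ := by
      rw [Complex.norm_real, Real.norm_eq_abs, abs_of_nonneg h0]
    rw [e7, e5]
    refine (norm_sum_le _ _).trans (sum_le_sum fun t _ => norm_sum_le _ _)
  calc ‖T (d + 1) X F b‖ ^ 2 ≤ _ := e3
    _ ≤ ((bx d X).card * X) * ∑ t ∈ I, ∑ t' ∈ I, ‖T d X (De (t' - t) F) (bb b t t')‖ := by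
      apply mul_le_mul_of_nonneg_left (e4.trans e6) (by positivity)

theorem Dl_null (d : ℕ) : ∀ h : Fin d → ℤ, Dl d (fun _ => (0 : ℝ)) h = fun _ => 0 := by
  induction d with
  | zero => intro h; rfl
  | succ d ih =>
    intro h
    rw [Dl]
    have e : De (h 0) (fun _ => (0 : ℝ)) = fun _ => 0 := by ext n; simp [De]
    rw [e, ih]

theorem T_null (d X : ℕ) (b : Fin d → (Fin d → ℤ) → ℂ) : T d X (fun _ => 0) b = 0 := by
  unfold T
  apply sum_eq_zero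
  intro h _
  rw [Dl_null, GN_null]
  simp

/-- The weighted sums are controlled by the Gowers norm. -/
theorem T_small (d : ℕ) : ∀ ε : ℝ, 0 < ε → ∃ δ : ℝ, 0 < δ ∧ ∀ X : ℕ, 1 ≤ X → ∀ F : ℤ → ℝ, B1 F → Sup F X →
    GN (d + 1) F X ≤ δ * (X : ℝ) ^ (d + 2) → ∀ b : Fin (d + 1) → (Fin (d + 1) → ℤ) → ℂ, (∀ k h, ‖b k h‖ ≤ 1) → (∀ k, Ind k (b k)) →
      ‖T (d + 1) X F b‖ ≤ ε * (X : ℝ) ^ (d + 2) := by
  induction d with
  | zero =>
    intro ε hε
    refine ⟨ε, hε, fun X hX F hF hs hG b hb hi => ?_⟩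
    have e1 : T 1 X F b = b 0 (fun _ => 0) * ((GN 1 F X : ℝ) : ℂ) := by
      have e0 := GN_Dl 0 1 X F
      rw [zero_add] at e0
      rw [e0, Complex.ofReal_sum, mul_sum]
      unfold T
      apply sum_congr rfl
      intro h _
      congr 1
      rw [Fin.prod_univ_succ]
      simp only [univ_eq_empty, prod_empty, mul_one]
      have := hi 0 (fun _ => 0) (h 0)
      rw [← this]
      congr 1
      ext i
      obtain rfl : i = 0 := Fin.fin_one_eq_zero i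
      simp
    show ‖T 1 X F b‖ ≤ ε * (X : ℝ) ^ 2
    rw [e1, norm_mul, Complex.norm_real, Real.norm_eq_abs, abs_of_nonneg (GN_nonneg 0 hs)]
    calc ‖b 0 (fun _ => 0)‖ * GN 1 F X ≤ 1 * GN 1 F X := mul_le_mul_of_nonneg_right (hb _ _) (GN_nonneg 0 hs)
      _ = GN (0 + 1) F X := one_mul _
      _ ≤ _ := hG
  | succ d ih =>
    intro ε hε
    obtain ⟨δ', hδ', h⟩ := ih (ε ^ 2 / (2 * 3 ^ (d + 3))) (by positivity)
    refine ⟨δ' * (ε ^ 2 / (2 * 3 ^ (2 * d + 3))), by positivity, fun X hX F hF hs hG b hb hi => ?_⟩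
    have hX1 : (1 : ℝ) ≤ X := by exact_mod_cast hX
    have h1 := T_sq hF hs hb hi
    set I := Icc (-(X : ℤ)) X with hI
    have hIc : (I.card : ℝ) ≤ 3 * X := card_I hX
    set V : ℝ := (3 * X) * (ε ^ 2 / (2 * 3 ^ (d + 3)) * (X : ℝ) ^ (d + 2)) + ε ^ 2 / (2 * 3 ^ (2 * d + 3)) * X * (3 ^ (d + 1) * (X : ℝ) ^ (d + 2)) with hV
    have h2 : ∀ t ∈ I, ∑ t' ∈ I, ‖T (d + 1) X (De (t' - t) F) (bb b t t')‖ ≤ V := by
      intro t ht
      have h3 : ∑ t' ∈ I, ‖T (d + 1) X (De (t' - t) F) (bb b t t')‖ ≤ ∑ r ∈ I, ‖T (d + 1) X (De r F) (bb b t (t + r))‖ := by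
        have e1 : ∑ t' ∈ I, ‖T (d + 1) X (De (t' - t) F) (bb b t t')‖
            = ∑ r ∈ I.image (fun t' => t' - t), ‖T (d + 1) X (De r F) (bb b t (t + r))‖ := by
          rw [sum_image (by intro a _ b _ hab; simpa using hab)]
          apply sum_congr rfl
          intro t' _
          have : t + (t' - t) = t' := by ring
          rw [this]
        rw [e1]
        have e2 : ∑ r ∈ I.image (fun t' => t' - t), ‖T (d + 1) X (De r F) (bb b t (t + r))‖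
            = ∑ r ∈ (I.image (fun t' => t' - t)).filter (fun r => r ∈ I), ‖T (d + 1) X (De r F) (bb b t (t + r))‖ := by
          symm
          apply sum_subset (filter_subset _ _)
          intro r hr hr2
          have hr3 : r ∉ I := fun h => hr2 (mem_filter.2 ⟨hr, h⟩)
          have hr4 : (X : ℤ) ≤ |r| := by
            by_contra hcon
            push Not at hcon
            exact hr3 (by rw [hI, mem_Icc]; exact abs_le.1 hcon.le)
          rw [De_zero hs hr4, T_null, norm_zero]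
        rw [e2]
        apply sum_le_sum_of_subset_of_nonneg
        · intro r hr; exact (mem_filter.1 hr).2
        · intro _ _ _; exact norm_nonneg _
      refine h3.trans ?_
      have h4 := markov I (fun r => GN (d + 1) (De r F) X) (fun r => ‖T (d + 1) X (De r F) (bb b t (t + r))‖)
        (fun r _ => GN_nonneg d (De_sup hs r)) (η := δ' * (X : ℝ) ^ (d + 2)) (B := 3 ^ (d + 1) * (X : ℝ) ^ (d + 2))
        (b0 := ε ^ 2 / (2 * 3 ^ (d + 3)) * (X : ℝ) ^ (d + 2)) (by positivity) (by positivity)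
        (fun r _ => T_triv hX (De_B1 hF r) (bb_norm hb _ _)) (by positivity)
        (fun r _ hr => h X hX (De r F) (De_B1 hF r) (De_sup hs r) hr _ (bb_norm hb _ _) (bb_ind hi _ _))
      refine h4.trans ?_
      rw [hV]
      apply add_le_add
      · exact mul_le_mul_of_nonneg_right hIc (by positivity)
      · apply mul_le_mul_of_nonneg_right _ (by positivity)
        have e : ∑ r ∈ I, GN (d + 1) (De r F) X = GN (d + 1 + 1) F X := by
          conv_rhs => rw [GN]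
        rw [e, div_le_iff₀ (by positivity)]
        calc GN (d + 1 + 1) F X ≤ δ' * (ε ^ 2 / (2 * 3 ^ (2 * d + 3))) * (X : ℝ) ^ (d + 1 + 2) := hG
          _ = _ := by ring
    have hV0 : 0 ≤ V := by rw [hV]; positivity
    have h3 : ∑ t ∈ I, ∑ t' ∈ I, ‖T (d + 1) X (De (t' - t) F) (bb b t t')‖ ≤ (3 * X) * V := by
      refine (sum_le_card_nsmul _ _ _ h2).trans ?_
      rw [nsmul_eq_mul]
      exact mul_le_mul_of_nonneg_right hIc hV0
    have h4 : ‖T (d + 1 + 1) X F b‖ ^ 2 ≤ (ε * (X : ℝ) ^ (d + 1 + 2)) ^ 2 := by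
      calc ‖T (d + 1 + 1) X F b‖ ^ 2 ≤ ((bx (d + 1) X).card * X) * ∑ t ∈ I, ∑ t' ∈ I, ‖T (d + 1) X (De (t' - t) F) (bb b t t')‖ := h1
        _ ≤ ((3 ^ (d + 1) * (X : ℝ) ^ (d + 1)) * X) * ((3 * X) * V) := by
            apply mul_le_mul _ h3 (sum_nonneg fun _ _ => sum_nonneg fun _ _ => norm_nonneg _) (by positivity)
            exact mul_le_mul_of_nonneg_right (card_bx_le hX (d + 1)) (by positivity)
        _ = _ := by
            rw [hV]
            field_simp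
            ring
    exact le_of_sq_le_sq h4 (by positivity)

/-- Large derivatives at degenerate frequencies give a large Gowers norm of lower order. -/
theorem degenerate (d : ℕ) {ε : ℝ} (hε : 0 < ε) : ∃ δ : ℝ, 0 < δ ∧ ∀ X : ℕ, 1 ≤ X → ∀ g : ℤ → ℝ, B1 g → Sup g X →
    GN (d + 2) g X ≤ δ * (X : ℝ) ^ (d + 3) → ∀ (p : ℕ) [NeZero p] (Z : Fin (d + 1) → (Fin (d + 1) → ℤ) → ZMod p),
    (∀ k, Ind k (Z k)) → ∑ h ∈ bx (d + 1) X, ‖ht p X (Dl (d + 1) g h) (∑ k, Z k h)‖ ^ 2 ≤ ε * (X : ℝ) ^ (d + 3) := by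
  obtain ⟨δ', hδ', h⟩ := T_small d (ε / 6) (by positivity)
  refine ⟨δ' * (ε / (2 * 3 ^ (d + 1))), by positivity, fun X hX g hg hs hG p _ Z hZ => ?_⟩
  have hX1 : (1 : ℝ) ≤ X := by exact_mod_cast hX
  set b : ℤ → Fin (d + 1) → (Fin (d + 1) → ℤ) → ℂ := fun t k h => psi p (Z k h * t) with hb
  have hb1 : ∀ t k h, ‖b t k h‖ ≤ 1 := fun t k h => (psi_norm _).le
  have hb2 : ∀ t k, Ind k (b t k) := by
    intro t k h a
    simp only [hb]
    rw [hZ k h a]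
  have hpsi : ∀ (s : Finset (Fin (d + 1))) (w : Fin (d + 1) → ZMod p), psi p (∑ k ∈ s, w k) = ∏ k ∈ s, psi p (w k) := by
    intro s w
    induction s using Finset.induction_on with
    | empty => simp [psi_zero]
    | insert a s ha ih => rw [sum_insert ha, prod_insert ha, psi_add, ih]
  have e1 : ((∑ h ∈ bx (d + 1) X, ‖ht p X (Dl (d + 1) g h) (∑ k, Z k h)‖ ^ 2 : ℝ) : ℂ)
      = ∑ t ∈ Icc (-(X : ℤ)) X, T (d + 1) X (De t g) (b t) := by
    rw [Complex.ofReal_sum]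
    have e2 : ∀ h ∈ bx (d + 1) X, ((‖ht p X (Dl (d + 1) g h) (∑ k, Z k h)‖ ^ 2 : ℝ) : ℂ)
        = ∑ t ∈ Icc (-(X : ℤ)) X, (∏ k, b t k h) * ((GN 0 (Dl (d + 1) (De t g) h) X : ℝ) : ℂ) := by
      intro h _
      set F := Dl (d + 1) g h with hF
      set ξ := ∑ k, Z k h with hξ
      unfold ht
      rw [norm_sq_c, mul_comm, map_sum, sum_mul]
      have e3 : ∀ n ∈ Icc (1 : ℤ) X, starRingEnd ℂ ((F n : ℂ) * psi p (ξ * n)) * ∑ m ∈ Icc (1 : ℤ) X, (F m : ℂ) * psi p (ξ * m)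
          = ∑ t ∈ Icc (-(X : ℤ)) X, psi p (ξ * t) * (De t F n : ℂ) := by
        intro n hn
        have h2 := shift_sumC (G := fun m => starRingEnd ℂ ((F n : ℂ) * psi p (ξ * n)) * ((F m : ℂ) * psi p (ξ * m))) (X := X) (by
          intro m hm
          apply Dl_sup (d + 1) hs h
          intro h0
          apply hm
          rw [← hF] at h0
          rw [h0]; simp) (mem_Icc.1 hn)
        rw [mul_sum, ← h2]
        apply sum_congr rfl
        intro t _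
        unfold De
        rw [map_mul, Complex.conj_ofReal, psi_conj]
        have e4 : psi p (ξ * t) = psi p (-(ξ * n)) * psi p (ξ * (n + t : ℤ)) := by
          rw [← psi_add]; congr 1; push_cast; ring
        rw [e4]
        push_cast
        ring
      rw [sum_congr rfl e3, sum_comm]
      apply sum_congr rfl
      intro t _
      rw [← mul_sum]
      congr 1
      · rw [hξ, sum_mul, hpsi]
      · unfold GN
        rw [Complex.ofReal_sum]
        apply sum_congr rfl; intro n _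
        rw [← De_Dl]
    rw [sum_congr rfl e2, sum_comm]
    rfl
  have e2 : ∑ h ∈ bx (d + 1) X, ‖ht p X (Dl (d + 1) g h) (∑ k, Z k h)‖ ^ 2 ≤ ∑ t ∈ Icc (-(X : ℤ)) X, ‖T (d + 1) X (De t g) (b t)‖ := by
    have h0 : 0 ≤ ∑ h ∈ bx (d + 1) X, ‖ht p X (Dl (d + 1) g h) (∑ k, Z k h)‖ ^ 2 := sum_nonneg fun _ _ => by positivity
    have e3 : ∑ h ∈ bx (d + 1) X, ‖ht p X (Dl (d + 1) g h) (∑ k, Z k h)‖ ^ 2
        = ‖((∑ h ∈ bx (d + 1) X, ‖ht p X (Dl (d + 1) g h) (∑ k, Z k h)‖ ^ 2 : ℝ) : ℂ)‖ := by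
      rw [Complex.norm_real, Real.norm_eq_abs, abs_of_nonneg h0]
    rw [e3, e1]
    exact norm_sum_le _ _
  refine e2.trans ?_
  have h4 := markov (Icc (-(X : ℤ)) X) (fun r => GN (d + 1) (De r g) X) (fun r => ‖T (d + 1) X (De r g) (b r)‖)
    (fun r _ => GN_nonneg d (De_sup hs r)) (η := δ' * (X : ℝ) ^ (d + 2)) (B := 3 ^ (d + 1) * (X : ℝ) ^ (d + 2))
    (b0 := ε / 6 * (X : ℝ) ^ (d + 2)) (by positivity) (by positivity)
    (fun r _ => T_triv hX (De_B1 hg r) (hb1 r)) (by positivity)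
    (fun r _ hr => h X hX (De r g) (De_B1 hg r) (De_sup hs r) hr _ (hb1 r) (hb2 r))
  refine h4.trans ?_
  have e3 : ∑ r ∈ Icc (-(X : ℤ)) X, GN (d + 1) (De r g) X = GN (d + 1 + 1) g X := by
    conv_rhs => rw [GN]
  have e4 : (∑ r ∈ Icc (-(X : ℤ)) X, GN (d + 1) (De r g) X) / (δ' * (X : ℝ) ^ (d + 2)) ≤ ε / (2 * 3 ^ (d + 1)) * X := by
    rw [e3, div_le_iff₀ (by positivity)]
    calc GN (d + 1 + 1) g X ≤ δ' * (ε / (2 * 3 ^ (d + 1))) * (X : ℝ) ^ (d + 3) := hG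
      _ = _ := by ring
  calc ((Icc (-(X : ℤ)) X).card : ℝ) * (ε / 6 * (X : ℝ) ^ (d + 2))
      + (∑ r ∈ Icc (-(X : ℤ)) X, GN (d + 1) (De r g) X) / (δ' * (X : ℝ) ^ (d + 2)) * (3 ^ (d + 1) * (X : ℝ) ^ (d + 2))
      ≤ (3 * X) * (ε / 6 * (X : ℝ) ^ (d + 2)) + (ε / (2 * 3 ^ (d + 1)) * X) * (3 ^ (d + 1) * (X : ℝ) ^ (d + 2)) := by
        apply add_le_add
        · exact mul_le_mul_of_nonneg_right (card_I hX) (by positivity)
        · exact mul_le_mul_of_nonneg_right e4 (by positivity)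
    _ = _ := by field_simp; ring

end Pool.Agent.W36.GK
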