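import Pool.Agent.W36.GV.GV1
import Pool.Agent.W36.GK.K2

/-! Sums over several directions of a product of functions, all but one of which are independent of one direction. -/

set_option autoImplicit false

namespace Pool.Agent.W36.GK

open Finset Pool.Agent.W36.GU Pool.Agent.W36.GV

/-- the cube -/
noncomputable def cb (K H : ℕ) : Finset (Fin K → ℤ) := Fintype.piFinset (fun _ => Icc (1 : ℤ) H)

theorem mem_cb {K H : ℕ} {h : Fin K → ℤ} : h ∈ cb K H ↔ ∀ j, 1 ≤ h j ∧ h j ≤ H := by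
  unfold cb
  simp only [Fintype.mem_piFinset, mem_Icc]

theorem card_cb (K H : ℕ) : (cb K H).card = H ^ K := by
  unfold cb
  rw [Fintype.card_piFinset, prod_const, card_univ, Fintype.card_fin, Int.card_Icc]
  simp

theorem sum_cb_succ {β : Type*} [AddCommMonoid β] (K H : ℕ) (Φ : (Fin (K + 1) → ℤ) → β) :
    ∑ h ∈ cb (K + 1) H, Φ h = ∑ h ∈ cb K H, ∑ t ∈ Icc (1 : ℤ) H, Φ (Fin.cons t h) := by
  rw [← sum_product']
  symm
  apply sum_nbij' (fun q : (Fin K → ℤ) × ℤ => (Fin.cons q.2 q.1 : Fin (K + 1) → ℤ)) (fun h => (Fin.tail h, h 0))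
  · rintro ⟨h, t⟩ hq
    rw [mem_product, mem_cb, mem_Icc] at hq
    rw [mem_cb]
    intro k
    refine Fin.cases ?_ (fun k => ?_) k
    · simp only [Fin.cons_zero]; exact hq.2
    · simp only [Fin.cons_succ]; exact hq.1 k
  · intro h hh
    rw [mem_cb] at hh
    rw [mem_product, mem_cb, mem_Icc]
    exact ⟨fun k => hh k.succ, hh 0⟩
  · rintro ⟨h, t⟩ _; simp [Fin.tail_cons]
  · intro h _; exact Fin.cons_self_tail h
  · rintro ⟨h, t⟩ _; rfl

open Classical in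
theorem fiber_sum {ι : Type} (Ω : Finset ι) (n : ι → ℤ) {m : ℝ} (hm : ∀ y, ((Ω.filter (fun x => n x = y)).card : ℝ) ≤ m)
    {r : ℤ → ℝ} (hr : ∀ y, 0 ≤ r y) {Y : Finset ℤ} (hY : ∀ y, r y ≠ 0 → y ∈ Y) : ∑ x ∈ Ω, r (n x) ≤ m * ∑ y ∈ Y, r y := by
  have h1 : ∑ x ∈ Ω, r (n x) = ∑ x ∈ Ω.filter (fun x => n x ∈ Y), r (n x) := by
    symm
    apply sum_subset (filter_subset _ _)
    intro x hx hx'
    by_contra h
    exact hx' (mem_filter.2 ⟨hx, hY _ h⟩)
  rw [h1, ← sum_fiberwise_of_maps_to (t := Y) (g := n) (fun x hx => (mem_filter.1 hx).2), mul_sum]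
  apply sum_le_sum
  intro y _
  have h2 : ∑ x ∈ (Ω.filter (fun x => n x ∈ Y)).filter (fun x => n x = y), r (n x)
      = (((Ω.filter (fun x => n x ∈ Y)).filter (fun x => n x = y)).card : ℝ) * r y := by
    rw [← nsmul_eq_mul, ← sum_const]
    apply sum_congr rfl
    intro x hx
    rw [(mem_filter.1 hx).2]
  rw [h2]
  apply mul_le_mul_of_nonneg_right _ (hr y)
  refine le_trans ?_ (hm y)
  have : (Ω.filter (fun x => n x ∈ Y)).filter (fun x => n x = y) ⊆ Ω.filter (fun x => n x = y) :=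
    filter_subset_filter _ (filter_subset _ _)
  exact_mod_cast card_le_card this

theorem sq_le_le {a b : ℝ} (h : a ^ 2 ≤ b ^ 2) (hb : 0 ≤ b) : a ≤ b := (le_abs_self a).trans (abs_le_of_sq_le_sq h hb)

/-- sums over the multiples of `a` -/
theorem mult_sum {X H : ℕ} {a : ℤ} (ha : a ≠ 0) {r : ℤ → ℝ} (hr : ∀ τ, 0 ≤ r τ) (hz : ∀ τ : ℤ, (X : ℤ) ≤ |τ| → r τ = 0) :
    ∑ q ∈ Icc (1 : ℤ) H ×ˢ Icc (1 : ℤ) H, r (a * (q.2 - q.1)) ≤ H * ∑ τ ∈ Icc (-(X : ℤ)) X, r τ := by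
  classical
  rw [sum_product]
  have h1 : ∀ t ∈ Icc (1 : ℤ) H, ∑ t' ∈ Icc (1 : ℤ) H, r (a * (t' - t)) ≤ ∑ τ ∈ Icc (-(X : ℤ)) X, r τ := by
    intro t _
    have hinj : Set.InjOn (fun t' : ℤ => a * (t' - t)) ((Icc (1 : ℤ) H).filter (fun t' => |a * (t' - t)| ≤ X) : Finset ℤ) := by
      intro x _ y _ h
      have := mul_left_cancel₀ ha h
      linarith
    have h2 : ∑ t' ∈ Icc (1 : ℤ) H, r (a * (t' - t)) = ∑ t' ∈ (Icc (1 : ℤ) H).filter (fun t' => |a * (t' - t)| ≤ X), r (a * (t' - t)) := by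
      symm
      apply sum_subset (filter_subset _ _)
      intro x hx hx'
      apply hz
      by_contra h
      push Not at h
      exact hx' (mem_filter.2 ⟨hx, h.le⟩)
    rw [h2, ← sum_image (f := r) (g := fun t' : ℤ => a * (t' - t)) hinj]
    apply sum_le_sum_of_subset_of_nonneg _ (fun τ _ _ => hr τ)
    intro τ hτ
    rw [mem_image] at hτ
    obtain ⟨t', ht', rfl⟩ := hτ
    rw [mem_Icc]
    exact abs_le.1 (mem_filter.1 ht').2
  refine (sum_le_card_nsmul _ _ _ h1).trans (le_of_eq ?_)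
  rw [Int.card_Icc, nsmul_eq_mul]
  simp

theorem card_Y {A X : ℕ} (h : 1 ≤ A * X) : ((Icc (-((A * X : ℕ) : ℤ)) ((A * X : ℕ) : ℤ)).card : ℝ) ≤ 3 * A * X := by
  have h1 := card_I h
  push_cast at h1 ⊢
  linarith

/-- the statement for `K` directions -/
def PK (K : ℕ) : Prop := ∀ a : Fin K → ℤ, (∀ j, a j ≠ 0) → ∀ ε : ℝ, 0 < ε → ∃ δ : ℝ, 0 < δ ∧ ∀ X H : ℕ, 1 ≤ X → H ≤ X →
  ∀ F : ℤ → ℝ, B1 F → Sup F X → GN (K + 1) F X ≤ δ * (X : ℝ) ^ (K + 2) → ∀ {ι : Type} (Ω : Finset ι) (n : ι → ℤ) (m : ℝ), 0 ≤ m →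
  (∀ y : ℤ, ((Ω.filter (fun x => n x = y)).card : ℝ) ≤ m) →
  ∀ b : ι → Fin K → (Fin K → ℤ) → ℝ, (∀ x j h, |b x j h| ≤ 1) → (∀ x j, Ind j (b x j)) →
  ∑ x ∈ Ω, |∑ h ∈ cb K H, F (n x + ∑ j, a j * h j) * ∏ j, b x j h| ≤ ε * m * (X : ℝ) ^ (K + 1)

theorem PK_one : PK 1 := by
  classical
  intro a ha ε hε
  obtain ⟨A, hA⟩ : ∃ A : ℕ, A = (a 0).natAbs + 1 := ⟨_, rfl⟩
  have hA1 : (1 : ℝ) ≤ A := by rw [hA]; push_cast; linarith [show (0 : ℝ) ≤ ((a 0).natAbs : ℝ) from Nat.cast_nonneg _]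
  obtain ⟨κ, hκ⟩ : ∃ κ : ℝ, κ = ε ^ 2 / (3 * A) := ⟨_, rfl⟩
  have hκ0 : 0 < κ := by rw [hκ]; positivity
  refine ⟨κ ^ 2 / 3, by positivity, fun X H hX hHX F hF hs hG ι Ω n m hm0 hm b hb hi => ?_⟩
  have hX1 : (1 : ℝ) ≤ X := by exact_mod_cast hX
  have hHX' : (H : ℝ) ≤ X := by exact_mod_cast hHX
  have haA : |a 0| = (A : ℤ) - 1 := by rw [hA, Int.abs_eq_natAbs]; push_cast; ring
  set I := Icc (1 : ℤ) H with hI
  set R : ℤ → ℝ := fun y => ∑ t ∈ I, F (y + a 0 * t) with hR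
  set Y := Icc (-((A * X : ℕ) : ℤ)) ((A * X : ℕ) : ℤ) with hY
  have hat : ∀ t ∈ I, |a 0 * t| ≤ ((A : ℤ) - 1) * X := by
    intro t ht
    rw [mem_Icc] at ht
    rw [abs_mul, haA, abs_of_pos (by linarith [ht.1] : (0 : ℤ) < t)]
    have h1 : (0 : ℤ) ≤ (A : ℤ) - 1 := by rw [← haA]; exact abs_nonneg _
    exact mul_le_mul_of_nonneg_left (ht.2.trans (by exact_mod_cast hHX)) h1
  have hRY : ∀ y, |R y| ≠ 0 → y ∈ Y := by
    intro y hy
    rw [Ne, abs_eq_zero] at hy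
    obtain ⟨t, ht, hne⟩ := exists_ne_zero_of_sum_ne_zero hy
    have h1 := hs _ hne
    have h2 := abs_le.1 (hat t ht)
    rw [hY, mem_Icc]
    push_cast
    constructor <;> nlinarith
  have e1 : ∀ x ∈ Ω, |∑ h ∈ cb 1 H, F (n x + ∑ j, a j * h j) * ∏ j, b x j h| ≤ |R (n x)| := by
    intro x _
    have h1 : ∑ h ∈ cb 1 H, F (n x + ∑ j, a j * h j) * ∏ j, b x j h = b x 0 (fun _ => 0) * R (n x) := by
      rw [sum_cb_succ]
      have h2 : cb 0 H = {Fin.elim0} := by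
        ext h
        rw [mem_singleton]
        constructor
        · intro _; exact Subsingleton.elim _ _
        · intro _; rw [mem_cb]; intro j; exact Fin.elim0 j
      rw [h2, sum_singleton, mul_sum]
      apply sum_congr rfl
      intro t _
      rw [Fin.prod_univ_one, Fin.sum_univ_one, Fin.cons_zero]
      have h3 : b x 0 (Fin.cons t Fin.elim0) = b x 0 (fun _ => 0) := by
        have h4 := hi x 0 (fun _ => 0) t
        rw [← h4]
        congr 1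
        ext j
        have hj : j = 0 := Fin.eq_zero j
        rw [hj, Function.update_self, Fin.cons_zero]
      rw [h3]
      ring
    rw [h1, abs_mul]
    calc |b x 0 fun _ => 0| * |R (n x)| ≤ 1 * |R (n x)| := mul_le_mul_of_nonneg_right (hb _ _ _) (abs_nonneg _)
      _ = _ := one_mul _
  refine (sum_le_sum e1).trans ?_
  refine (fiber_sum Ω n (fun y => by convert hm y) (r := fun y => |R y|) (fun y => abs_nonneg _) hRY).trans ?_
  have e2 : ∑ τ ∈ Icc (-(X : ℤ)) X, |GN 0 (De τ F) X| ≤ κ * (X : ℝ) ^ 2 := by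
    apply sq_le_le _ (by positivity)
    refine (sq_sum_le_card_mul_sum_sq).trans ?_
    have h1 : ∑ τ ∈ Icc (-(X : ℤ)) X, |GN 0 (De τ F) X| ^ 2 = GN 2 F X := by
      conv_rhs => rw [GN]
      apply sum_congr rfl
      intro τ _
      rw [GN_one (De_sup hs τ), sq_abs]
    rw [h1]
    have h2 := card_I hX
    have h3 : 0 ≤ GN 2 F X := GN_nonneg 1 hs
    calc ((Icc (-(X : ℤ)) X).card : ℝ) * GN 2 F X ≤ (3 * X) * (κ ^ 2 / 3 * (X : ℝ) ^ (1 + 2)) := mul_le_mul h2 hG h3 (by positivity)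
      _ = _ := by ring
  have e3 : ∑ y ∈ Y, |R y| ^ 2 ≤ κ * (X : ℝ) ^ 3 := by
    have h1 : ∑ y ∈ Y, |R y| ^ 2 = ∑ q ∈ I ×ˢ I, GN 0 (De (a 0 * (q.2 - q.1)) F) X := by
      have h2 : ∀ y ∈ Y, |R y| ^ 2 = ∑ q ∈ I ×ˢ I, F (y + a 0 * q.1) * F (y + a 0 * q.2) := by
        intro y _
        rw [sq_abs, sq]
        simp only [hR]
        rw [sum_mul_sum, ← sum_product']
      rw [sum_congr rfl h2, sum_comm]
      apply sum_congr rfl
      rintro ⟨t, t'⟩ hq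
      rw [mem_product] at hq
      simp only at hq ⊢
      have h3 : ∀ y : ℤ, F (y + a 0 * t) * F (y + a 0 * t') = De (a 0 * (t' - t)) F (y + a 0 * t) := by
        intro y
        unfold De
        congr 2
        ring
      simp only [h3]
      have h4 : ∑ y ∈ Y, De (a 0 * (t' - t)) F (y + a 0 * t) = ∑ z ∈ Y.map (addRightEmbedding (a 0 * t)), De (a 0 * (t' - t)) F z := by
        rw [sum_map]; rfl
      rw [h4, GN]
      symm
      apply sum_subset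
      · intro z hz
        rw [mem_Icc] at hz
        rw [mem_map]
        refine ⟨z - a 0 * t, ?_, by simp⟩
        have h5 := abs_le.1 (hat t hq.1)
        rw [hY, mem_Icc]
        push_cast
        constructor <;> nlinarith
      · intro z _ hz
        by_contra h
        exact hz (by rw [mem_Icc]; exact De_sup hs _ z h)
    rw [h1]
    calc ∑ q ∈ I ×ˢ I, GN 0 (De (a 0 * (q.2 - q.1)) F) X ≤ ∑ q ∈ I ×ˢ I, |GN 0 (De (a 0 * (q.2 - q.1)) F) X| :=
          sum_le_sum fun q _ => le_abs_self _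
      _ ≤ H * ∑ τ ∈ Icc (-(X : ℤ)) X, |GN 0 (De τ F) X| := mult_sum (ha 0) (r := fun τ => |GN 0 (De τ F) X|) (fun τ => abs_nonneg _)
          (fun τ hτ => by rw [De_zero hs hτ, GN_null, abs_zero])
      _ ≤ X * (κ * (X : ℝ) ^ 2) := mul_le_mul hHX' e2 (sum_nonneg fun _ _ => abs_nonneg _) (by positivity)
      _ = _ := by ring
  have e4 : ∑ y ∈ Y, |R y| ≤ ε * (X : ℝ) ^ 2 := by
    apply sq_le_le _ (by positivity)
    refine (sq_sum_le_card_mul_sum_sq).trans ?_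
    have h2 : (Y.card : ℝ) ≤ 3 * A * X := card_Y (by
      have h1 : 1 ≤ A := by omega
      exact Nat.mul_le_mul h1 hX)
    calc (Y.card : ℝ) * ∑ y ∈ Y, |R y| ^ 2 ≤ (3 * A * X) * (κ * (X : ℝ) ^ 3) :=
          mul_le_mul h2 e3 (sum_nonneg fun _ _ => by positivity) (by positivity)
      _ = (3 * A * κ) * (X : ℝ) ^ 4 := by ring
      _ = (ε * (X : ℝ) ^ 2) ^ 2 := by
        have : 3 * A * κ = ε ^ 2 := by rw [hκ]; field_simp
        rw [this]; ring
  calc m * ∑ y ∈ Y, |R y| ≤ m * (ε * (X : ℝ) ^ 2) := mul_le_mul_of_nonneg_left e4 hm0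
    _ = _ := by ring

end Pool.Agent.W36.GK
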