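import Pool.Agent.W36.GK.K15

/-! The induction step for the sums over several directions. -/

set_option autoImplicit false

namespace Pool.Agent.W36.GK

open Finset Pool.Agent.W36.GU Pool.Agent.W36.GV

theorem PK_succ (K : ℕ) (ih : PK K) : PK (K + 1) := by
  classical
  intro a ha ε hε
  obtain ⟨A, hA⟩ : ∃ A : ℕ, A = (∑ j, (a j).natAbs) + 1 := ⟨_, rfl⟩
  have hA1 : (1 : ℝ) ≤ A := by exact_mod_cast (by omega : 1 ≤ A)
  have hA0 : (0 : ℝ) < A := by linarith
  obtain ⟨δ', hδ', h⟩ := ih (fun j => a j.succ) (fun j => ha _) (ε ^ 2 / (6 * A)) (by positivity)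
  refine ⟨δ' * ε ^ 2 / (18 * A ^ 2), by positivity, fun X H hX hHX F hF hs hG ι Ω n m hm0 hm b hb hi => ?_⟩
  have hX1 : (1 : ℝ) ≤ X := by exact_mod_cast hX
  have hHX' : (H : ℝ) ≤ X := by exact_mod_cast hHX
  have hH0 : (0 : ℝ) ≤ H := Nat.cast_nonneg _
  set I := Icc (1 : ℤ) H with hI
  have hIc : (I.card : ℝ) ≤ X := by
    rw [hI, Int.card_Icc]
    simp only [add_sub_cancel_right, Int.toNat_natCast]
    exact hHX'
  set Y := Icc (-((A * X : ℕ) : ℤ)) ((A * X : ℕ) : ℤ) with hY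
  have hYc : (Y.card : ℝ) ≤ 3 * A * X := card_Y (by
    have h1 : 1 ≤ A := by omega
    exact Nat.mul_le_mul h1 hX)
  set Ω' := Ω.filter (fun x => n x ∈ Y) with hΩ'
  set S : ι → ℝ := fun x => ∑ h ∈ cb (K + 1) H, F (n x + ∑ j, a j * h j) * ∏ j, b x j h with hS
  have hdot : ∀ h ∈ cb (K + 1) H, |∑ j, a j * h j| ≤ ((A : ℤ) - 1) * X := by
    intro h hh
    rw [mem_cb] at hh
    refine (abs_sum_le_sum_abs _ _).trans ?_
    have e1 : ((A : ℤ) - 1) * X = ∑ j, |a j| * X := by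
      rw [← sum_mul, hA]
      push_cast
      congr 1
      ring
    rw [e1]
    apply sum_le_sum
    intro j _
    rw [abs_mul, abs_of_pos (by linarith [(hh j).1] : (0 : ℤ) < h j)]
    exact mul_le_mul_of_nonneg_left ((hh j).2.trans (by exact_mod_cast hHX)) (abs_nonneg _)
  have hS0 : ∀ x ∈ Ω, x ∉ Ω' → |S x| = 0 := by
    intro x hx hx'
    rw [abs_eq_zero]
    apply sum_eq_zero
    intro h hh
    have h1 : F (n x + ∑ j, a j * h j) = 0 := by
      by_contra hne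
      have h2 := hs _ hne
      have h3 := abs_le.1 (hdot h hh)
      apply hx'
      rw [hΩ', mem_filter]
      refine ⟨hx, ?_⟩
      rw [hY, mem_Icc]
      push_cast
      constructor <;> nlinarith
    rw [h1, zero_mul]
  have hsum : ∑ x ∈ Ω, |S x| = ∑ x ∈ Ω', |S x| := by
    symm
    exact sum_subset (filter_subset _ _) hS0
  have hΩc : (Ω'.card : ℝ) ≤ m * (3 * A * X) := by
    have h1 := fiber_sum Ω n (fun y => by convert hm y) (r := fun y => if y ∈ Y then 1 else 0) (fun y => by split_ifs <;> norm_num)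
      (Y := Y) (fun y hy => by by_contra hc; simp [hc] at hy)
    have h2 : (Ω'.card : ℝ) = ∑ x ∈ Ω, (if n x ∈ Y then (1 : ℝ) else 0) := by
      rw [hΩ', card_filter]; push_cast; rfl
    have h3 : ∑ y ∈ Y, (if y ∈ Y then (1 : ℝ) else 0) = Y.card := by
      rw [sum_ite_mem, inter_self, sum_const, nsmul_eq_mul, mul_one]
    rw [h2]
    refine h1.trans ?_
    rw [h3]
    exact mul_le_mul_of_nonneg_left hYc hm0
  -- the pieces
  set w : ι → ℤ → (Fin K → ℤ) → ℝ := fun x t h' => F (n x + a 0 * t + ∑ j, a j.succ * h' j) * ∏ j : Fin K, b x j.succ (Fin.cons t h') with hw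
  set bb' : ι → ℤ × ℤ → Fin K → (Fin K → ℤ) → ℝ := fun x q j h' => b x j.succ (Fin.cons q.1 h') * b x j.succ (Fin.cons q.2 h') with hbb
  set D : ℤ × ℤ → ι → ℝ := fun q x => ∑ h' ∈ cb K H, De (a 0 * (q.2 - q.1)) F (n x + a 0 * q.1 + ∑ j, a j.succ * h' j) * ∏ j, bb' x q j h' with hD
  have hSw : ∀ x, S x = ∑ h' ∈ cb K H, b x 0 (Fin.cons 0 h') * ∑ t ∈ I, w x t h' := by
    intro x
    simp only [hS]
    rw [sum_cb_succ]
    apply sum_congr rfl
    intro h' _
    rw [mul_sum]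
    apply sum_congr rfl
    intro t _
    simp only [hw]
    rw [Fin.sum_univ_succ, Fin.prod_univ_succ, Fin.cons_zero]
    simp only [Fin.cons_succ]
    have h3 : b x 0 (Fin.cons t h') = b x 0 (Fin.cons 0 h') := by
      have h4 := hi x 0 (Fin.cons 0 h') t
      rw [← h4]
      congr 1
      rw [Fin.update_cons_zero]
    rw [h3, ← add_assoc]
    ring
  have hcbc : ((cb K H).card : ℝ) ≤ (X : ℝ) ^ K := by
    rw [card_cb]; push_cast
    exact pow_le_pow_left₀ hH0 hHX' K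
  have hSsq : ∀ x, S x ^ 2 ≤ (X : ℝ) ^ K * ∑ q ∈ I ×ˢ I, D q x := by
    intro x
    have h1 : S x ^ 2 ≤ (∑ h' ∈ cb K H, |∑ t ∈ I, w x t h'|) ^ 2 := by
      apply sq_le_sq'
      · have h2 : |S x| ≤ ∑ h' ∈ cb K H, |∑ t ∈ I, w x t h'| := by
          rw [hSw]
          refine (abs_sum_le_sum_abs _ _).trans (sum_le_sum fun h' _ => ?_)
          rw [abs_mul]
          calc _ ≤ 1 * |∑ t ∈ I, w x t h'| := mul_le_mul_of_nonneg_right (hb _ _ _) (abs_nonneg _)
            _ = _ := one_mul _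
        linarith [neg_abs_le (S x)]
      · have h2 : |S x| ≤ ∑ h' ∈ cb K H, |∑ t ∈ I, w x t h'| := by
          rw [hSw]
          refine (abs_sum_le_sum_abs _ _).trans (sum_le_sum fun h' _ => ?_)
          rw [abs_mul]
          calc _ ≤ 1 * |∑ t ∈ I, w x t h'| := mul_le_mul_of_nonneg_right (hb _ _ _) (abs_nonneg _)
            _ = _ := one_mul _
        linarith [le_abs_self (S x)]
    refine h1.trans ((sq_sum_le_card_mul_sum_sq).trans ?_)
    have h3 : ∑ h' ∈ cb K H, |∑ t ∈ I, w x t h'| ^ 2 = ∑ q ∈ I ×ˢ I, D q x := by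
      have h4 : ∀ h' ∈ cb K H, |∑ t ∈ I, w x t h'| ^ 2 = ∑ q ∈ I ×ˢ I, w x q.1 h' * w x q.2 h' := by
        intro h' _
        rw [sq_abs, sq, sum_mul_sum, ← sum_product']
      rw [sum_congr rfl h4, sum_comm]
      apply sum_congr rfl
      rintro ⟨t, t'⟩ _
      simp only [hD]
      apply sum_congr rfl
      intro h' _
      simp only [hw, hbb]
      rw [prod_mul_distrib]
      unfold De
      have e2 : n x + a 0 * t + ∑ j : Fin K, a j.succ * h' j + a 0 * (t' - t) = n x + a 0 * t' + ∑ j : Fin K, a j.succ * h' j := by ring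
      rw [e2]
      ring
    rw [h3]
    apply mul_le_mul_of_nonneg_right hcbc
    rw [← h3]
    exact sum_nonneg fun _ _ => by positivity
  have hbb1 : ∀ x q j h', |bb' x q j h'| ≤ 1 := by
    intro x q j h'
    simp only [hbb]
    rw [abs_mul]
    exact mul_le_one₀ (hb _ _ _) (abs_nonneg _) (hb _ _ _)
  have hbb2 : ∀ x q j, Ind j (bb' x q j) := by
    intro x q j h' t
    simp only [hbb]
    rw [Fin.cons_update, Fin.cons_update, hi, hi]
  have hm' : ∀ (c : ℤ) (y : ℤ), ((Ω'.filter (fun x => n x + c = y)).card : ℝ) ≤ m := by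
    intro c y
    refine le_trans ?_ (hm (y - c))
    have : Ω'.filter (fun x => n x + c = y) ⊆ Ω.filter (fun x => n x = y - c) := by
      intro x hx
      rw [mem_filter] at hx ⊢
      exact ⟨(mem_filter.1 hx.1).1, by linarith [hx.2]⟩
    have h2 := card_le_card this
    have h3 : ((Ω.filter (fun x => n x = y - c)).card : ℝ) = ((Ω.filter (fun x => n x = y - c)).card : ℝ) := rfl
    refine le_trans (Nat.cast_le.2 h2) (le_of_eq ?_)
    congr!
  have hV := markov (I ×ˢ I) (fun q => GN (K + 1) (De (a 0 * (q.2 - q.1)) F) X) (fun q => ∑ x ∈ Ω', |D q x|)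
    (fun q _ => GN_nonneg K (De_sup hs _)) (η := δ' * (X : ℝ) ^ (K + 2)) (B := 3 * A * m * (X : ℝ) ^ (K + 1))
    (b0 := ε ^ 2 / (6 * A) * m * (X : ℝ) ^ (K + 1)) (by positivity) (by positivity)
    (fun q _ => by
      refine (sum_le_card_nsmul Ω' _ ((X : ℝ) ^ K) (fun x _ => ?_)).trans ?_
      · simp only [hD]
        refine (abs_sum_le_sum_abs _ _).trans ((sum_le_card_nsmul _ _ 1 (fun h' _ => ?_)).trans ?_)
        · rw [abs_mul, abs_prod]
          exact mul_le_one₀ (De_B1 hF _ _) (prod_nonneg fun _ _ => abs_nonneg _) (prod_le_one (fun _ _ => abs_nonneg _) fun _ _ => hbb1 _ _ _ _)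
        · rw [nsmul_eq_mul, mul_one]; exact hcbc
      · rw [nsmul_eq_mul]
        calc (Ω'.card : ℝ) * (X : ℝ) ^ K ≤ (m * (3 * A * X)) * (X : ℝ) ^ K := mul_le_mul_of_nonneg_right hΩc (by positivity)
          _ = _ := by ring)
    (by positivity)
    (fun q _ hq => h X H hX hHX (De (a 0 * (q.2 - q.1)) F) (De_B1 hF _) (De_sup hs _) hq Ω' (fun x => n x + a 0 * q.1) m hm0
      (fun y => by convert hm' (a 0 * q.1) y) (fun x => bb' x q) (fun x => hbb1 x q) (fun x => hbb2 x q))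
  have hg : ∑ q ∈ I ×ˢ I, GN (K + 1) (De (a 0 * (q.2 - q.1)) F) X ≤ X * (δ' * ε ^ 2 / (18 * A ^ 2) * (X : ℝ) ^ (K + 3)) := by
    refine (mult_sum (ha 0) (r := fun τ => GN (K + 1) (De τ F) X) (fun τ => GN_nonneg K (De_sup hs _))
      (fun τ hτ => by rw [De_zero hs hτ, GN_null])).trans ?_
    have h1 : ∑ τ ∈ Icc (-(X : ℤ)) X, GN (K + 1) (De τ F) X = GN (K + 1 + 1) F X := by
      conv_rhs => rw [GN]
    rw [h1]
    exact mul_le_mul hHX' hG (GN_nonneg _ hs) (by positivity)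
  have hV2 : ∑ q ∈ I ×ˢ I, ∑ x ∈ Ω', |D q x| ≤ ε ^ 2 / (3 * A) * m * (X : ℝ) ^ (K + 3) := by
    refine hV.trans ?_
    have h1 : ((I ×ˢ I).card : ℝ) ≤ (X : ℝ) ^ 2 := by
      rw [card_product]; push_cast
      rw [sq]
      exact mul_le_mul hIc hIc (Nat.cast_nonneg _) (by positivity)
    have h2 : (∑ q ∈ I ×ˢ I, GN (K + 1) (De (a 0 * (q.2 - q.1)) F) X) / (δ' * (X : ℝ) ^ (K + 2)) ≤ ε ^ 2 / (18 * A ^ 2) * (X : ℝ) ^ 2 := by
      rw [div_le_iff₀ (by positivity)]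
      refine hg.trans (le_of_eq ?_)
      ring
    calc _ ≤ (X : ℝ) ^ 2 * (ε ^ 2 / (6 * A) * m * (X : ℝ) ^ (K + 1)) + (ε ^ 2 / (18 * A ^ 2) * (X : ℝ) ^ 2) * (3 * A * m * (X : ℝ) ^ (K + 1)) := by
          apply add_le_add
          · exact mul_le_mul_of_nonneg_right h1 (by positivity)
          · exact mul_le_mul_of_nonneg_right h2 (by positivity)
      _ = _ := by field_simp; ring
  show ∑ x ∈ Ω, |S x| ≤ _
  rw [hsum]
  apply sq_le_le _ (by positivity)
  refine (sq_sum_le_card_mul_sum_sq).trans ?_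
  have h5 : ∑ x ∈ Ω', |S x| ^ 2 ≤ (X : ℝ) ^ K * (ε ^ 2 / (3 * A) * m * (X : ℝ) ^ (K + 3)) := by
    calc ∑ x ∈ Ω', |S x| ^ 2 ≤ ∑ x ∈ Ω', (X : ℝ) ^ K * ∑ q ∈ I ×ˢ I, D q x := sum_le_sum fun x _ => by rw [sq_abs]; exact hSsq x
      _ ≤ ∑ x ∈ Ω', (X : ℝ) ^ K * ∑ q ∈ I ×ˢ I, |D q x| := by
          apply sum_le_sum; intro x _
          apply mul_le_mul_of_nonneg_left _ (by positivity)
          exact sum_le_sum fun q _ => le_abs_self _
      _ = (X : ℝ) ^ K * ∑ q ∈ I ×ˢ I, ∑ x ∈ Ω', |D q x| := by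
          rw [← mul_sum, sum_comm]
      _ ≤ _ := mul_le_mul_of_nonneg_left hV2 (by positivity)
  calc (Ω'.card : ℝ) * ∑ x ∈ Ω', |S x| ^ 2 ≤ (m * (3 * A * X)) * ((X : ℝ) ^ K * (ε ^ 2 / (3 * A) * m * (X : ℝ) ^ (K + 3))) :=
        mul_le_mul hΩc h5 (sum_nonneg fun _ _ => by positivity) (by positivity)
    _ = (ε * m * (X : ℝ) ^ (K + 1 + 1)) ^ 2 := by field_simp; ring

theorem PK_all (K : ℕ) : PK (K + 1) := by
  induction K with
  | zero => exact PK_one
  | succ K ih => exact PK_succ (K + 1) ih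

end Pool.Agent.W36.GK
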