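import Pool.Agent.W36.GK.K16

/-! Systems of affine linear forms on boxes. -/

set_option autoImplicit false

namespace Pool.Agent.W36.GK

open Finset Pool.Agent.W36.GU Pool.Agent.W36.GV

/-- the scalar product -/
def dot {D : ℕ} (a x : Fin D → ℤ) : ℤ := ∑ j, a j * x j

theorem dot_add {D : ℕ} (a x y : Fin D → ℤ) : dot a (x + y) = dot a x + dot a y := by
  unfold dot
  simp only [Pi.add_apply, mul_add, sum_add_distrib]

theorem dot_sum {D r : ℕ} (a : Fin D → ℤ) (h : Fin r → ℤ) (v : Fin r → Fin D → ℤ) :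
    dot a (fun j => ∑ l, h l * v l j) = ∑ l, dot a (v l) * h l := by
  unfold dot
  simp only [mul_sum, sum_mul]
  rw [sum_comm]
  apply sum_congr rfl; intro l _
  apply sum_congr rfl; intro j _
  ring

theorem dot_self_pos {D : ℕ} {a : Fin D → ℤ} (ha : a ≠ 0) : 0 < dot a a := by
  unfold dot
  obtain ⟨j, hj⟩ := Function.ne_iff.1 ha
  have h1 : 0 < a j * a j := by
    have : a j ≠ 0 := hj
    exact mul_self_pos.2 this
  exact lt_of_lt_of_le h1 (single_le_sum (f := fun j => a j * a j) (fun i _ => mul_self_nonneg _) (mem_univ j))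

theorem dot_comm {D : ℕ} (a b : Fin D → ℤ) : dot a b = dot b a := by
  unfold dot; apply sum_congr rfl; intro j _; ring

/-- independence over the integers of two vectors -/
def Indep {D : ℕ} (a b : Fin D → ℤ) : Prop := ∀ s t : ℤ, s • a = t • b → s = 0 ∧ t = 0

theorem Indep.ne {D : ℕ} {a b : Fin D → ℤ} (h : Indep a b) : a ≠ 0 ∧ b ≠ 0 := by
  constructor
  · rintro rfl
    have := h 1 0 (by simp)
    simp at this
  · rintro rfl
    have := h 0 1 (by simp)
    simp at this

theorem exists_dir {D : ℕ} {a b : Fin D → ℤ} (h : Indep a b) : ∃ v : Fin D → ℤ, dot b v = 0 ∧ dot a v ≠ 0 := by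
  obtain ⟨ha, hb⟩ := h.ne
  set v : Fin D → ℤ := fun j => dot b b * a j - dot a b * b j with hv
  have e1 : ∀ c : Fin D → ℤ, dot c v = dot b b * dot c a - dot a b * dot c b := by
    intro c
    simp only [hv]
    unfold dot
    rw [mul_sum, mul_sum, ← sum_sub_distrib]
    apply sum_congr rfl; intro j _; ring
  refine ⟨v, ?_, ?_⟩
  · rw [e1, dot_comm b a]; ring
  · intro h0
    have h1 : dot b v = 0 := by rw [e1, dot_comm b a]; ring
    have h2 : dot v v = 0 := by
      rw [e1, dot_comm v a, dot_comm v b, h0, h1]; ring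
    have h3 : v = 0 := by
      by_contra hne
      have := dot_self_pos hne
      omega
    have h4 := h (dot b b) (dot a b) (by
      ext j
      have := congrFun h3 j
      simp only [hv, Pi.zero_apply] at this
      simp only [Pi.smul_apply, smul_eq_mul]
      linarith)
    have := dot_self_pos hb
    omega

/-- the box -/
noncomputable def box {D : ℕ} (P P' : Fin D → ℤ) : Finset (Fin D → ℤ) := Fintype.piFinset (fun j => Ioc (P j) (P' j))

theorem mem_box {D : ℕ} {P P' x : Fin D → ℤ} : x ∈ box P P' ↔ ∀ j, P j < x j ∧ x j ≤ P' j := by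
  unfold box
  simp only [Fintype.mem_piFinset, mem_Ioc]

theorem card_I_le {a b : ℤ} {X : ℕ} (h : b - a ≤ X) : (Ioc a b).card ≤ X := by
  rw [Int.card_Ioc]; omega

open Classical in
theorem box_fiber {D X : ℕ} {P P' : Fin (D + 1) → ℤ} (hP : ∀ j, P' j - P j ≤ X) {a : Fin (D + 1) → ℤ} (ha : a ≠ 0) (y : ℤ) :
    ((box P P').filter (fun x => dot a x = y)).card ≤ X ^ D := by
  obtain ⟨k, hk⟩ := Function.ne_iff.1 ha
  have hk' : a k ≠ 0 := hk
  have h1 : ((box P P').filter (fun x => dot a x = y)).card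
      ≤ (Fintype.piFinset (fun l : Fin D => Ioc (P (k.succAbove l)) (P' (k.succAbove l)))).card := by
    apply card_le_card_of_injOn (fun x => (fun l : Fin D => x (k.succAbove l)))
    · intro x hx
      rw [mem_coe, mem_filter, mem_box] at hx
      rw [mem_coe, Fintype.mem_piFinset]
      intro l
      rw [mem_Ioc]
      exact hx.1 _
    · intro x hx x' hx' h
      rw [mem_coe, mem_filter] at hx hx'
      have h2 : ∀ l : Fin D, x (k.succAbove l) = x' (k.succAbove l) := fun l => congrFun h l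
      have h3 := hx.2.trans hx'.2.symm
      unfold dot at h3
      rw [Fin.sum_univ_succAbove _ k, Fin.sum_univ_succAbove _ k] at h3
      simp only [h2] at h3
      have h4 : a k * x k = a k * x' k := by linarith
      have h5 := mul_left_cancel₀ hk' h4
      ext j
      rcases Fin.eq_self_or_eq_succAbove k j with h6 | ⟨l, rfl⟩
      · rw [h6]; exact h5
      · exact h2 l
  refine h1.trans ?_
  rw [Fintype.card_piFinset]
  calc ∏ l : Fin D, (Ioc (P (k.succAbove l)) (P' (k.succAbove l))).card ≤ ∏ _l : Fin D, X :=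
        prod_le_prod' fun l _ => card_I_le (hP _)
    _ = X ^ D := by rw [prod_const, card_univ, Fintype.card_fin]

open Classical in
theorem box_edge {D X : ℕ} {P P' : Fin (D + 1) → ℤ} (hP : ∀ j, P' j - P j ≤ X) (w : Fin (D + 1) → ℤ) :
    ((box P P').filter (fun x => x + w ∉ box P P')).card ≤ (∑ j, (w j).natAbs) * X ^ D := by
  have h1 : (box P P').filter (fun x => x + w ∉ box P P') ⊆ univ.biUnion (fun k : Fin (D + 1) =>
      Fintype.piFinset (fun j => if j = k then (Ioc (P j) (P' j)).filter (fun t => t + w j ∉ Ioc (P j) (P' j)) else Ioc (P j) (P' j))) := by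
    intro x hx
    rw [mem_filter, mem_box, mem_box] at hx
    obtain ⟨hx1, hx2⟩ := hx
    push Not at hx2
    obtain ⟨k, hk⟩ := hx2
    rw [mem_biUnion]
    refine ⟨k, mem_univ _, ?_⟩
    rw [Fintype.mem_piFinset]
    intro j
    split_ifs with hj
    · rw [mem_filter, mem_Ioc, mem_Ioc]
      refine ⟨hx1 j, ?_⟩
      intro h2
      subst hj
      have h3 := hk h2.1
      simp only [Pi.add_apply] at h3
      omega
    · rw [mem_Ioc]; exact hx1 j
  refine (card_le_card h1).trans (card_biUnion_le.trans ?_)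
  rw [sum_mul]
  apply sum_le_sum
  intro k _
  rw [Fintype.card_piFinset, Fin.prod_univ_succAbove _ k, if_pos rfl]
  apply Nat.mul_le_mul
  · have h2 : (Ioc (P k) (P' k)).filter (fun t => t + w k ∉ Ioc (P k) (P' k)) ⊆
        if 0 ≤ w k then Ioc (P' k - w k) (P' k) else Ioc (P k) (P k - w k) := by
      intro t ht
      rw [mem_filter, mem_Ioc, mem_Ioc] at ht
      split_ifs with h3
      · rw [mem_Ioc]; omega
      · rw [mem_Ioc]; omega
    refine (card_le_card h2).trans ?_
    split_ifs with h3 <;> rw [Int.card_Ioc] <;> omega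
  · calc ∏ l : Fin D, (if k.succAbove l = k then (Ioc (P (k.succAbove l)) (P' (k.succAbove l))).filter
          (fun t => t + w (k.succAbove l) ∉ Ioc (P (k.succAbove l)) (P' (k.succAbove l))) else Ioc (P (k.succAbove l)) (P' (k.succAbove l))).card
        ≤ ∏ _l : Fin D, X := by
          apply prod_le_prod'
          intro l _
          rw [if_neg (Fin.succAbove_ne k l)]
          exact card_I_le (hP _)
      _ = X ^ D := by rw [prod_const, card_univ, Fintype.card_fin]

theorem box_shift {D X : ℕ} {P P' : Fin (D + 1) → ℤ} (hP : ∀ j, P' j - P j ≤ X) (w : Fin (D + 1) → ℤ) {Φ : (Fin (D + 1) → ℤ) → ℝ}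
    (hΦ : ∀ x, |Φ x| ≤ 1) :
    |∑ x ∈ box P P', Φ x - ∑ x ∈ box P P', Φ (x + w)| ≤ 2 * ((∑ j, (w j).natAbs : ℕ) : ℝ) * (X : ℝ) ^ D := by
  classical
  have h1 : ∑ x ∈ box P P', Φ (x + w) = ∑ x ∈ (box P P').map (addRightEmbedding w), Φ x := by
    rw [sum_map]; rfl
  set A := box P P' with hA
  set B := (box P P').map (addRightEmbedding w) with hB
  have hBm : ∀ x, x ∈ B ↔ x - w ∈ A := by
    intro x
    rw [hB, mem_map]
    constructor
    · rintro ⟨y, hy, rfl⟩
      simpa using hy
    · intro h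
      exact ⟨x - w, h, by simp⟩
  have h2 : ∑ x ∈ A, Φ x = ∑ x ∈ A ∩ B, Φ x + ∑ x ∈ A \ B, Φ x := by
    rw [← sum_union (disjoint_sdiff_self_right.mono_left inter_subset_right)]
    congr 1
    ext x; simp only [mem_union, mem_inter, mem_sdiff]; tauto
  have h3 : ∑ x ∈ B, Φ x = ∑ x ∈ A ∩ B, Φ x + ∑ x ∈ B \ A, Φ x := by
    rw [← sum_union (disjoint_sdiff_self_right.mono_left inter_subset_left)]
    congr 1
    ext x; simp only [mem_union, mem_inter, mem_sdiff]; tauto
  have hcard : ∀ T : Finset (Fin (D + 1) → ℤ), |∑ x ∈ T, Φ x| ≤ T.card := by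
    intro T
    refine (abs_sum_le_sum_abs _ _).trans ((sum_le_card_nsmul _ _ 1 (fun x _ => hΦ x)).trans ?_)
    rw [nsmul_eq_mul, mul_one]
  have h4 : ((A \ B).card : ℝ) ≤ ((∑ j, (w j).natAbs : ℕ) : ℝ) * (X : ℝ) ^ D := by
    have h5 : A \ B ⊆ A.filter (fun x => x + (-w) ∉ A) := by
      intro x hx
      rw [mem_sdiff, hBm] at hx
      rw [mem_filter]
      refine ⟨hx.1, ?_⟩
      rw [← sub_eq_add_neg]; exact hx.2
    have h6 := (card_le_card h5).trans (by convert box_edge hP (-w))
    simp only [Pi.neg_apply, Int.natAbs_neg] at h6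
    exact_mod_cast h6
  have h5 : ((B \ A).card : ℝ) ≤ ((∑ j, (w j).natAbs : ℕ) : ℝ) * (X : ℝ) ^ D := by
    have h5 : (B \ A).card ≤ (A.filter (fun x => x + w ∉ A)).card := by
      apply card_le_card_of_injOn (fun x => x - w)
      · intro x hx
        rw [mem_coe, mem_sdiff, hBm] at hx
        rw [mem_coe, mem_filter]
        refine ⟨hx.1, ?_⟩
        rw [sub_add_cancel]; exact hx.2
      · intro x _ y _ h
        simpa using h
    have h6 := h5.trans (by convert box_edge hP w)
    exact_mod_cast h6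
  rw [h1, h2, h3]
  have h6 : ∑ x ∈ A ∩ B, Φ x + ∑ x ∈ A \ B, Φ x - (∑ x ∈ A ∩ B, Φ x + ∑ x ∈ B \ A, Φ x) = ∑ x ∈ A \ B, Φ x - ∑ x ∈ B \ A, Φ x := by ring
  rw [h6]
  refine (abs_sub _ _).trans ?_
  have := hcard (A \ B)
  have := hcard (B \ A)
  linarith

end Pool.Agent.W36.GK
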