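import Pool.Agent.W36.GK.K17

/-! Multilinear sums over systems of affine linear forms are controlled by the Gowers norms. -/

set_option autoImplicit false

namespace Pool.Agent.W36.GK

open Finset Pool.Agent.W36.GU Pool.Agent.W36.GV

theorem forms_small {D r : ℕ} (Λ : Fin r → Fin D → ℤ) (h0 : ∀ i, Λ i ≠ 0) (hΛ : ∀ i j, i ≠ j → Indep (Λ i) (Λ j)) (i0 : Fin r)
    {ε : ℝ} (hε : 0 < ε) : ∃ δ : ℝ, 0 < δ ∧ ∃ X0 : ℕ, ∀ X : ℕ, X0 ≤ X → ∀ c : Fin r → ℤ, ∀ P P' : Fin D → ℤ,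
    (∀ j, P' j - P j ≤ X) → ∀ g : Fin r → ℤ → ℝ, (∀ i, B1 (g i)) → Sup (g i0) X → GN (r + 1) (g i0) X ≤ δ * (X : ℝ) ^ (r + 2) →
    |∑ x ∈ box P P', ∏ i, g i (dot (Λ i) x + c i)| ≤ ε * (X : ℝ) ^ D := by
  classical
  obtain ⟨K, rfl⟩ : ∃ K, r = K + 1 := ⟨r - 1, by have := i0.2; omega⟩
  obtain ⟨D', rfl⟩ : ∃ D', D = D' + 1 := by
    obtain ⟨j, -⟩ := Function.ne_iff.1 (h0 i0)
    exact ⟨D - 1, by have := j.2; omega⟩
  have hex : ∀ l : Fin (K + 1), ∃ v : Fin (D' + 1) → ℤ, dot (Λ i0) v ≠ 0 ∧ (l ≠ i0 → dot (Λ l) v = 0) := by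
    intro l
    by_cases hl : l = i0
    · exact ⟨Λ i0, (dot_self_pos (h0 i0)).ne', fun h => absurd hl h⟩
    · obtain ⟨v, hv1, hv2⟩ := exists_dir (hΛ i0 l (Ne.symm hl))
      exact ⟨v, hv2, fun _ => hv1⟩
  choose v hv1 hv2 using hex
  obtain ⟨V, hV⟩ : ∃ V : ℕ, V = ∑ l, ∑ j, (v l j).natAbs := ⟨_, rfl⟩
  have hV0 : (0 : ℝ) ≤ V := Nat.cast_nonneg _
  obtain ⟨η, hη⟩ : ∃ η : ℝ, η = min (ε / (8 * (V + 1))) (1 / 2) := ⟨_, rfl⟩
  have hη0 : 0 < η := by rw [hη]; exact lt_min (by positivity) (by norm_num)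
  have hη2 : η ≤ 1 / 2 := by rw [hη]; exact min_le_right _ _
  have hη1 : 8 * V * η ≤ ε := by
    have h1 : η ≤ ε / (8 * (V + 1)) := by rw [hη]; exact min_le_left _ _
    rw [le_div_iff₀ (by positivity)] at h1
    linarith
  obtain ⟨δ, hδ, hPK⟩ := PK_all K (fun l => dot (Λ i0) (v l)) hv1 (η ^ (K + 1) * (ε / 4)) (by positivity)
  obtain ⟨X1, hX1⟩ := exists_nat_ge (8 * V / ε)
  refine ⟨δ, hδ, X1 + 2, fun X hX c P P' hP g hg hs hG => ?_⟩
  have hX2 : (2 : ℝ) ≤ X := by exact_mod_cast (by omega : 2 ≤ X)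
  have hX0 : (0 : ℝ) < X := by linarith
  have hXV : 8 * V ≤ ε * X := by
    rw [div_le_iff₀ hε] at hX1
    have : (X1 : ℝ) ≤ X := by exact_mod_cast (by omega : X1 ≤ X)
    have := mul_le_mul_of_nonneg_right this hε.le
    linarith
  obtain ⟨H, hH⟩ : ∃ H : ℕ, H = ⌊η * X⌋₊ + 1 := ⟨_, rfl⟩
  have hH1 : η * X ≤ H := by rw [hH]; push_cast; exact (Nat.lt_floor_add_one _).le
  have hH2 : (H : ℝ) ≤ η * X + 1 := by
    rw [hH]; push_cast
    have := Nat.floor_le (show 0 ≤ η * X by positivity)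
    linarith
  have hHX : H ≤ X := by
    have h1 : (H : ℝ) ≤ X := by
      have := mul_le_mul_of_nonneg_right hη2 hX0.le
      linarith
    exact_mod_cast h1
  have hH0 : (0 : ℝ) < H := lt_of_lt_of_le (by positivity) hH1
  set Φ : (Fin (D' + 1) → ℤ) → ℝ := fun x => ∏ i, g i (dot (Λ i) x + c i) with hΦ
  have hΦ1 : ∀ x, |Φ x| ≤ 1 := by
    intro x
    simp only [hΦ]
    rw [abs_prod]
    exact prod_le_one (fun _ _ => abs_nonneg _) fun i _ => hg i _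
  set w : (Fin (K + 1) → ℤ) → (Fin (D' + 1) → ℤ) := fun h j => ∑ l, h l * v l j with hw
  have hwV : ∀ h ∈ cb (K + 1) H, ∑ j, (w h j).natAbs ≤ H * V := by
    intro h hh
    rw [mem_cb] at hh
    have h1 : ∀ j, (w h j).natAbs ≤ ∑ l, H * (v l j).natAbs := by
      intro j
      simp only [hw]
      refine (Int.natAbs_sum_le _ _).trans (sum_le_sum fun l _ => ?_)
      rw [Int.natAbs_mul]
      apply Nat.mul_le_mul_right
      have := hh l
      omega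
    refine (sum_le_sum fun j _ => h1 j).trans (le_of_eq ?_)
    rw [hV, sum_comm, mul_sum]
    apply sum_congr rfl; intro l _
    rw [mul_sum]
  have hdiff : ∀ h ∈ cb (K + 1) H, |∑ x ∈ box P P', Φ x - ∑ x ∈ box P P', Φ (x + w h)| ≤ 2 * (H * V) * (X : ℝ) ^ D' := by
    intro h hh
    refine (box_shift hP (w h) hΦ1).trans ?_
    apply mul_le_mul_of_nonneg_right _ (by positivity)
    apply mul_le_mul_of_nonneg_left _ (by norm_num)
    exact_mod_cast hwV h hh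
  set n : (Fin (D' + 1) → ℤ) → ℤ := fun x => dot (Λ i0) x + c i0 with hn
  set b : (Fin (D' + 1) → ℤ) → Fin (K + 1) → (Fin (K + 1) → ℤ) → ℝ := fun x j h =>
    if j = i0 then 1 else g j (dot (Λ j) x + c j + ∑ l, dot (Λ j) (v l) * h l) with hb
  have hprod : ∀ x h, Φ (x + w h) = g i0 (n x + ∑ l, dot (Λ i0) (v l) * h l) * ∏ j, b x j h := by
    intro x h
    simp only [hΦ]
    rw [← mul_prod_erase univ _ (mem_univ i0), ← mul_prod_erase univ (fun j => b x j h) (mem_univ i0)]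
    have e1 : ∀ i, dot (Λ i) (x + w h) + c i = dot (Λ i) x + c i + ∑ l, dot (Λ i) (v l) * h l := by
      intro i
      rw [dot_add]
      simp only [hw]
      rw [dot_sum]
      ring
    have e2 : b x i0 h = 1 := by simp [hb]
    rw [e1, e2, one_mul]
    congr 1
    apply prod_congr rfl
    intro j hj
    rw [e1]
    simp only [hb]
    rw [if_neg (ne_of_mem_erase hj)]
  have hmain := hPK X H (by omega) hHX (g i0) (hg i0) hs hG (box P P') n ((X : ℝ) ^ D') (by positivity) (by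
    intro y
    have h1 := box_fiber hP (h0 i0) (y - c i0)
    have h2 : (box P P').filter (fun x => n x = y) = (box P P').filter (fun x => dot (Λ i0) x = y - c i0) := by
      apply filter_congr
      intro x _
      simp only [hn]
      constructor <;> intro h <;> linarith
    rw [h2]
    exact_mod_cast h1) b (by
    intro x j h
    simp only [hb]
    split_ifs
    · simp
    · exact hg j _) (by
    intro x j h t
    simp only [hb]
    split_ifs with hj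
    · rfl
    · congr 2
      rw [← add_sum_erase univ _ (mem_univ j), ← add_sum_erase univ (fun l => dot (Λ j) (v l) * h l) (mem_univ j), hv2 j hj]
      simp only [zero_mul, zero_add]
      apply sum_congr rfl
      intro l hl
      rw [Function.update_of_ne (ne_of_mem_erase hl)])
  have hHK : (0 : ℝ) < (H : ℝ) ^ (K + 1) := by positivity
  have hcard : ((cb (K + 1) H).card : ℝ) = (H : ℝ) ^ (K + 1) := by rw [card_cb]; push_cast; rfl
  have e1 : (H : ℝ) ^ (K + 1) * ∑ x ∈ box P P', Φ x = ∑ x ∈ box P P', ∑ h ∈ cb (K + 1) H, Φ (x + w h)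
      + ∑ h ∈ cb (K + 1) H, (∑ x ∈ box P P', Φ x - ∑ x ∈ box P P', Φ (x + w h)) := by
    rw [sum_sub_distrib, sum_const, nsmul_eq_mul, hcard, sum_comm (s := cb (K + 1) H)]
    ring
  have e2 : |∑ x ∈ box P P', ∑ h ∈ cb (K + 1) H, Φ (x + w h)| ≤ η ^ (K + 1) * (ε / 4) * (X : ℝ) ^ D' * (X : ℝ) ^ (K + 1 + 1) := by
    refine (abs_sum_le_sum_abs _ _).trans ?_
    refine le_trans (le_of_eq ?_) hmain
    apply sum_congr rfl; intro x _
    congr 1
    apply sum_congr rfl; intro h _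
    exact hprod x h
  have e3 : |∑ h ∈ cb (K + 1) H, (∑ x ∈ box P P', Φ x - ∑ x ∈ box P P', Φ (x + w h))| ≤ (H : ℝ) ^ (K + 1) * (2 * (H * V) * (X : ℝ) ^ D') := by
    refine (abs_sum_le_sum_abs _ _).trans ((sum_le_card_nsmul _ _ _ hdiff).trans ?_)
    rw [nsmul_eq_mul, hcard]
  have e4 : (H : ℝ) ^ (K + 1) * |∑ x ∈ box P P', Φ x| ≤ (H : ℝ) ^ (K + 1) * (ε * (X : ℝ) ^ (D' + 1)) := by
    have h1 : (H : ℝ) ^ (K + 1) * |∑ x ∈ box P P', Φ x| = |(H : ℝ) ^ (K + 1) * ∑ x ∈ box P P', Φ x| := by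
      rw [abs_mul, abs_of_pos hHK]
    rw [h1, e1]
    refine (abs_add_le _ _).trans ?_
    have h2 : η ^ (K + 1) * (ε / 4) * (X : ℝ) ^ D' * (X : ℝ) ^ (K + 1 + 1) ≤ (H : ℝ) ^ (K + 1) * (ε / 4 * (X : ℝ) ^ (D' + 1)) := by
      have h3 : (η * X) ^ (K + 1) ≤ (H : ℝ) ^ (K + 1) := pow_le_pow_left₀ (by positivity) hH1 _
      calc η ^ (K + 1) * (ε / 4) * (X : ℝ) ^ D' * (X : ℝ) ^ (K + 1 + 1) = (η * X) ^ (K + 1) * (ε / 4 * (X : ℝ) ^ (D' + 1)) := by
            rw [mul_pow]; ring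
        _ ≤ _ := mul_le_mul_of_nonneg_right h3 (by positivity)
    have h4 : 2 * (H * V) * (X : ℝ) ^ D' ≤ ε / 2 * (X : ℝ) ^ (D' + 1) := by
      have h5 : 2 * (H * V) ≤ ε / 2 * X := by
        have h6 : (H : ℝ) * V ≤ (η * X + 1) * V := mul_le_mul_of_nonneg_right hH2 hV0
        have h7 := mul_le_mul_of_nonneg_right hη1 hX0.le
        nlinarith
      calc 2 * (H * V) * (X : ℝ) ^ D' ≤ (ε / 2 * X) * (X : ℝ) ^ D' := mul_le_mul_of_nonneg_right h5 (by positivity)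
        _ = _ := by ring
    have h5 := mul_le_mul_of_nonneg_left h4 hHK.le
    have h6 : (H : ℝ) ^ (K + 1) * (ε * (X : ℝ) ^ (D' + 1)) = (H : ℝ) ^ (K + 1) * (ε / 4 * (X : ℝ) ^ (D' + 1))
        + (H : ℝ) ^ (K + 1) * (ε / 2 * (X : ℝ) ^ (D' + 1)) + (H : ℝ) ^ (K + 1) * (ε / 4 * (X : ℝ) ^ (D' + 1)) := by ring
    have h7 : 0 ≤ (H : ℝ) ^ (K + 1) * (ε / 4 * (X : ℝ) ^ (D' + 1)) := by positivity
    linarith
  exact le_of_mul_le_mul_left e4 hHK

end Pool.Agent.W36.GK
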