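import Pool.Agent.W36.GK.K14
import Pool.Agent.W36.GK.K18
import Pool.Agent.W36.GU.GU13

/-! The number of points of a box at which given affine linear forms have values in given invariant sets. -/

set_option autoImplicit false

namespace Pool.Agent.W36.GK

open Finset Pool.Agent.W36.GU Pool.Agent.W36.GV Filter Topology

theorem telescope' {ι V : Type} [Fintype ι] [DecidableEq ι] (Ω : Finset V) (a b : ι → V → ℝ) {E : ℝ}
    (h : ∀ (j : ι) (g : ι → V → ℝ), (∀ i, g i = a i ∨ g i = b i) → |∑ v ∈ Ω, (a j v - b j v) * ∏ i ∈ univ.erase j, g i v| ≤ E) :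
    |∑ v ∈ Ω, ∏ i, a i v - ∑ v ∈ Ω, ∏ i, b i v| ≤ Fintype.card ι * E := by
  have key : ∀ T : Finset ι, |∑ v ∈ Ω, ∏ i, (if i ∈ T then a i v else b i v) - ∑ v ∈ Ω, ∏ i, b i v| ≤ T.card * E := by
    intro T
    induction T using Finset.induction_on with
    | empty => simp
    | insert j T hj ih =>
      have h1 := h j (fun i => if i ∈ T then a i else b i) (fun i => by by_cases hi : i ∈ T <;> simp [hi])
      have h2 : ∀ v : V, ∏ i, (if i ∈ insert j T then a i v else b i v) - ∏ i, (if i ∈ T then a i v else b i v)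
          = (a j v - b j v) * ∏ i ∈ univ.erase j, (if i ∈ T then a i else b i) v := by
        intro v
        rw [← mul_prod_erase univ (fun i => if i ∈ insert j T then a i v else b i v) (mem_univ j),
          ← mul_prod_erase univ (fun i => if i ∈ T then a i v else b i v) (mem_univ j)]
        have e1 : ∏ i ∈ univ.erase j, (if i ∈ insert j T then a i v else b i v) = ∏ i ∈ univ.erase j, (if i ∈ T then a i else b i) v := by
          apply prod_congr rfl
          intro i hi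
          have hij := ne_of_mem_erase hi
          by_cases hiT : i ∈ T
          · simp [hiT]
          · simp [hiT, hij]
        have e2 : ∏ i ∈ univ.erase j, (if i ∈ T then a i v else b i v) = ∏ i ∈ univ.erase j, (if i ∈ T then a i else b i) v := by
          apply prod_congr rfl
          intro i _
          by_cases hiT : i ∈ T <;> simp [hiT]
        rw [e1, e2, if_pos (mem_insert_self _ _), if_neg hj]
        ring
      have h3 : ∑ v ∈ Ω, ∏ i, (if i ∈ insert j T then a i v else b i v) - ∑ v ∈ Ω, ∏ i, (if i ∈ T then a i v else b i v)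
          = ∑ v ∈ Ω, (a j v - b j v) * ∏ i ∈ univ.erase j, (if i ∈ T then a i else b i) v := by
        rw [← sum_sub_distrib]
        exact sum_congr rfl fun v _ => h2 v
      rw [card_insert_of_notMem hj]
      push_cast
      calc |∑ v ∈ Ω, ∏ i, (if i ∈ insert j T then a i v else b i v) - ∑ v ∈ Ω, ∏ i, b i v|
          = |(∑ v ∈ Ω, ∏ i, (if i ∈ insert j T then a i v else b i v) - ∑ v ∈ Ω, ∏ i, (if i ∈ T then a i v else b i v))
            + (∑ v ∈ Ω, ∏ i, (if i ∈ T then a i v else b i v) - ∑ v ∈ Ω, ∏ i, b i v)| := by congr 1; ring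
        _ ≤ _ := abs_add_le _ _
        _ ≤ E + T.card * E := by rw [h3]; exact add_le_add h1 ih
        _ = _ := by ring
  have := key univ
  simpa using this

theorem forms_count {D r : ℕ} (Λ : Fin r → Fin D → ℤ) (h0 : ∀ i, Λ i ≠ 0) (hΛ : ∀ i j, i ≠ j → Indep (Λ i) (Λ j))
    {ε : ℝ} (hε : 0 < ε) : ∃ δ : ℝ, 0 < δ ∧ ∃ X0 : ℕ, ∀ X : ℕ, X0 ≤ X → ∀ c : Fin r → ℤ, ∀ P P' : Fin D → ℤ,
    (∀ j, P' j - P j ≤ X) → ∀ A B : Fin r → ℤ → ℝ, (∀ i, B1 (A i)) → (∀ i, B1 (B i)) → (∀ i, B1 (fun n => A i n - B i n)) →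
    (∀ i, Sup (fun n => A i n - B i n) X) → (∀ i, GN (r + 1) (fun n => A i n - B i n) X ≤ δ * (X : ℝ) ^ (r + 2)) →
    |∑ x ∈ box P P', ∏ i, A i (dot (Λ i) x + c i) - ∑ x ∈ box P P', ∏ i, B i (dot (Λ i) x + c i)| ≤ ε * (X : ℝ) ^ D := by
  classical
  have h1 : ∀ i0 : Fin r, ∃ δ : ℝ, 0 < δ ∧ ∃ X0 : ℕ, ∀ X : ℕ, X0 ≤ X → ∀ c : Fin r → ℤ, ∀ P P' : Fin D → ℤ,
    (∀ j, P' j - P j ≤ X) → ∀ g : Fin r → ℤ → ℝ, (∀ i, B1 (g i)) → Sup (g i0) X → GN (r + 1) (g i0) X ≤ δ * (X : ℝ) ^ (r + 2) →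
    |∑ x ∈ box P P', ∏ i, g i (dot (Λ i) x + c i)| ≤ ε / (r + 1) * (X : ℝ) ^ D :=
    fun i0 => forms_small Λ h0 hΛ i0 (by positivity)
  choose δ' hδ' X0' h using h1
  obtain ⟨δ, hδ, hδ0⟩ : ∃ δ : ℝ, (∀ i, δ ∈ Set.Ioc 0 (δ' i)) ∧ δ ∈ Set.Ioi (0 : ℝ) :=
    ((eventually_all.2 fun i => (Ioc_mem_nhdsGT (hδ' i) : ∀ᶠ x in 𝓝[>] (0 : ℝ), x ∈ Set.Ioc 0 (δ' i))).and self_mem_nhdsWithin).exists
  refine ⟨δ, hδ0, ∑ i, X0' i, fun X hX c P P' hP A B hA hB hAB hS hG => ?_⟩
  have hX0 : ∀ i, X0' i ≤ X := fun i => (single_le_sum (f := X0') (fun _ _ => Nat.zero_le _) (mem_univ i)).trans hX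
  have h2 := telescope' (box P P') (fun i x => A i (dot (Λ i) x + c i)) (fun i x => B i (dot (Λ i) x + c i))
    (E := ε / (r + 1) * (X : ℝ) ^ D) (by
    intro j g hg
    have h3 : ∀ i, ∃ G : ℤ → ℝ, B1 G ∧ g i = fun x => G (dot (Λ i) x + c i) := by
      intro i
      rcases hg i with h4 | h4
      · exact ⟨A i, hA i, h4⟩
      · exact ⟨B i, hB i, h4⟩
    choose G hG1 hG2 using h3
    have h5 := h j X (hX0 j) c P P' hP (fun i => if i = j then (fun n => A j n - B j n) else G i) (by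
      intro i
      by_cases hi : i = j
      · simp only [hi, if_true]; exact hAB j
      · simp only [if_neg hi]; exact hG1 i) (by simpa using hS j) (by
      simp only [if_true]
      refine (hG j).trans ?_
      exact mul_le_mul_of_nonneg_right (hδ j).2 (by positivity))
    refine le_trans (le_of_eq ?_) h5
    congr 1
    apply sum_congr rfl; intro x _
    rw [← mul_prod_erase univ (fun i => (if i = j then (fun n => A j n - B j n) else G i) (dot (Λ i) x + c i)) (mem_univ j)]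
    simp only [if_true]
    congr 1
    apply prod_congr rfl; intro i hi
    rw [if_neg (ne_of_mem_erase hi), hG2])
  refine h2.trans ?_
  rw [Fintype.card_fin, ← mul_assoc]
  apply mul_le_mul_of_nonneg_right _ (by positivity)
  have h3 : (r : ℝ) * (ε / (r + 1)) = ε * (r / (r + 1)) := by ring
  rw [h3]
  have h4 : (r : ℝ) / (r + 1) ≤ 1 := by rw [div_le_one (by positivity)]; linarith
  calc ε * ((r : ℝ) / (r + 1)) ≤ ε * 1 := mul_le_mul_of_nonneg_left h4 hε.le
    _ = ε := mul_one _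

open Pool.Agent.W41.FU Pool.Agent.W41 Pool.Agent.H499R2.ND Pool.Agent.H499R2.CO

/-- the number of the points of a box at which the forms have values in given sets and intervals -/
noncomputable def Cn {D r : ℕ} (Λ : Fin r → Fin D → ℤ) (c s : Fin r → ℤ) (M N : Fin r → ℕ) (P P' : Fin D → ℤ) (S : Fin r → Set ℤ) : ℕ :=
  {x : Fin D → ℤ | (∀ j, P j < x j ∧ x j ≤ P' j) ∧ ∀ i, (∑ j, Λ i j * x j + c i) ∈ S i ∧
    (M i : ℤ) < s i * (∑ j, Λ i j * x j + c i) ∧ s i * (∑ j, Λ i j * x j + c i) ≤ N i}.ncard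

theorem Cn_eq {D r : ℕ} (Λ : Fin r → Fin D → ℤ) (c : Fin r → ℤ) {s : Fin r → ℤ} (hs : ∀ i, s i = 1 ∨ s i = -1) (M N : Fin r → ℕ)
    (P P' : Fin D → ℤ) (S : Fin r → Set ℤ) :
    (Cn Λ c s M N P P' S : ℝ) = ∑ x ∈ box P P', ∏ i, win (M i) (N i) (ind (s i) (S i)) (dot (fun j => s i * Λ i j) x + s i * c i) := by
  classical
  have e1 : {x : Fin D → ℤ | (∀ j, P j < x j ∧ x j ≤ P' j) ∧ ∀ i, (∑ j, Λ i j * x j + c i) ∈ S i ∧
      (M i : ℤ) < s i * (∑ j, Λ i j * x j + c i) ∧ s i * (∑ j, Λ i j * x j + c i) ≤ N i}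
      = ((box P P').filter (fun x : Fin D → ℤ => ∀ i, (∑ j, Λ i j * x j + c i) ∈ S i ∧
      (M i : ℤ) < s i * (∑ j, Λ i j * x j + c i) ∧ s i * (∑ j, Λ i j * x j + c i) ≤ N i) : Finset (Fin D → ℤ)) := by
    ext x
    rw [Finset.mem_coe, mem_filter, mem_box]
    rfl
  unfold Cn
  rw [e1, Set.ncard_coe_finset, card_filter]
  push_cast
  apply sum_congr rfl
  intro x _
  have e3 : ∀ i, dot (fun j => s i * Λ i j) x + s i * c i = s i * (∑ j, Λ i j * x j + c i) := by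
    intro i
    unfold dot
    rw [mul_add, mul_sum]
    congr 1
    apply sum_congr rfl; intro j _; ring
  have e2 : ∀ i, win (M i) (N i) (ind (s i) (S i)) (dot (fun j => s i * Λ i j) x + s i * c i)
      = if (∑ j, Λ i j * x j + c i) ∈ S i ∧ (M i : ℤ) < s i * (∑ j, Λ i j * x j + c i) ∧ s i * (∑ j, Λ i j * x j + c i) ≤ N i then 1 else 0 := by
    intro i
    rw [e3]
    unfold win ind
    have : s i * (s i * (∑ j, Λ i j * x j + c i)) = ∑ j, Λ i j * x j + c i := by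
      rcases hs i with h | h <;> rw [h] <;> ring
    rw [this]
    by_cases a1 : (∑ j, Λ i j * x j + c i) ∈ S i <;>
      by_cases a2 : (M i : ℤ) < s i * (∑ j, Λ i j * x j + c i) ∧ s i * (∑ j, Λ i j * x j + c i) ≤ N i <;> simp [a1, a2]
  simp only [e2]
  by_cases h : ∀ i, (∑ j, Λ i j * x j + c i) ∈ S i ∧
      (M i : ℤ) < s i * (∑ j, Λ i j * x j + c i) ∧ s i * (∑ j, Λ i j * x j + c i) ≤ N i
  · rw [if_pos h, prod_eq_one]
    intro i _
    rw [if_pos (h i)]
  · rw [if_neg h]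
    push Not at h
    obtain ⟨i, h2⟩ := h
    symm
    apply prod_eq_zero (mem_univ i)
    rw [if_neg]
    rintro ⟨b1, b2, b3⟩
    have := h2 b1 b2
    omega

theorem count {D r : ℕ} (hsm : ∀ s : ℤ, (s = 1 ∨ s = -1) → Sm (r + 1) (Bal s)) (Λ : Fin r → Fin D → ℤ) (h0 : ∀ i, Λ i ≠ 0)
    (hΛ : ∀ i j, i ≠ j → Indep (Λ i) (Λ j)) {s : Fin r → ℤ} (hs : ∀ i, s i = 1 ∨ s i = -1) {ε : ℝ} (hε : 0 < ε) :
    ∃ X0 : ℕ, ∀ S : Fin r → Set ℤ, (∀ i, Inv 1 (S i)) → ∀ δ : Fin r → ℝ, (∀ i, HD (s i) (S i) (δ i)) → ∀ X : ℕ, X0 ≤ X →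
      ∀ c : Fin r → ℤ, ∀ M N : Fin r → ℕ, (∀ i, M i ≤ N i) → (∀ i, N i ≤ X) → ∀ P P' : Fin D → ℤ, (∀ j, P' j - P j ≤ X) →
      |(Cn Λ c s M N P P' S : ℝ) - (∏ i, δ i) * Cn Λ c s M N P P' (fun _ => Set.univ)| ≤ ε * (X : ℝ) ^ D := by
  classical
  set Λ' : Fin r → Fin D → ℤ := fun i j => s i * Λ i j with hΛ'
  have hs0 : ∀ i, s i ≠ 0 := fun i => by rcases hs i with h | h <;> rw [h] <;> norm_num
  obtain ⟨η, hη, X1, h⟩ := forms_count Λ' (by
    intro i h1
    apply h0 i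
    ext j
    have := congrFun h1 j
    simp only [hΛ', Pi.zero_apply] at this
    simp only [Pi.zero_apply]
    exact (mul_eq_zero.1 this).resolve_left (hs0 i)) (by
    intro i j hij a b hab
    have h1 := hΛ i j hij (a * s i) (b * s j) (by
      ext l
      have := congrFun hab l
      simp only [hΛ', Pi.smul_apply, smul_eq_mul] at this ⊢
      linarith)
    exact ⟨(mul_eq_zero.1 h1.1).resolve_right (hs0 i), (mul_eq_zero.1 h1.2).resolve_right (hs0 j)⟩) hε
  obtain ⟨X2, h2⟩ := hsm 1 (Or.inl rfl) η hη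
  obtain ⟨X3, h3⟩ := hsm (-1) (Or.inr rfl) η hη
  refine ⟨X1 + X2 + X3, fun S hS δ hδ X hX c M N hM hN P P' hP => ?_⟩
  rw [Cn_eq Λ c hs, Cn_eq Λ c hs]
  have hd : ∀ i, 0 ≤ δ i ∧ δ i ≤ 1 := fun i => HD_mem (hs i) (hδ i)
  have hind1 : ∀ (s : ℤ) (T : Set ℤ) (n : ℤ), |ind s T n| ≤ 1 := by
    intro s T n
    rw [abs_of_nonneg (ind_nonneg _ _ _)]
    exact ind_le_one _ _ _
  have e1 : (∏ i, δ i) * ∑ x ∈ box P P', ∏ i, win (M i) (N i) (ind (s i) Set.univ) (dot (fun j => s i * Λ i j) x + s i * c i)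
      = ∑ x ∈ box P P', ∏ i, (fun n => δ i * win (M i) (N i) (ind (s i) Set.univ) n) (dot (fun j => s i * Λ i j) x + s i * c i) := by
    rw [mul_sum]
    apply sum_congr rfl; intro x _
    rw [prod_mul_distrib]
  rw [e1]
  have e2 : ∀ i, (fun n => win (M i) (N i) (ind (s i) (S i)) n - δ i * win (M i) (N i) (ind (s i) Set.univ) n)
      = win (M i) (N i) (bal (s i) (S i) (δ i)) := by
    intro i
    ext n
    unfold win bal
    have : ind (s i) Set.univ n = 1 := by unfold ind; simp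
    rw [this]
    split_ifs <;> ring
  have hmem : ∀ i, bal (s i) (S i) (δ i) ∈ Bal (s i) := fun i => ⟨S i, hS i, δ i, hδ i, rfl⟩
  refine h X (by omega) (fun i => s i * c i) P P' hP (fun i => win (M i) (N i) (ind (s i) (S i)))
    (fun i n => δ i * win (M i) (N i) (ind (s i) Set.univ) n) (fun i => win_abs (hind1 _ _) _ _) ?_ ?_ ?_ ?_
  · intro i n
    rw [abs_mul, abs_of_nonneg (hd i).1]
    exact mul_le_one₀ (hd i).2 (abs_nonneg _) (win_abs (hind1 _ _) _ _ _)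
  · intro i
    rw [e2]
    exact win_abs (fun n => Bal_abs (hs i) (hmem i) n) _ _
  · intro i
    rw [e2]
    exact win_sup _ _ (hN i)
  · intro i
    rw [e2]
    have hm := hmem i
    rcases hs i with hh | hh
    · rw [hh] at hm ⊢
      exact h2 X (by omega) _ hm _ _ (hM i) (hN i)
    · rw [hh] at hm ⊢
      exact h3 X (by omega) _ hm _ _ (hM i) (hN i)

end Pool.Agent.W36.GK
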