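import Pool.Agent.W36.GK.K19

/-! Many points at which given forms have values in an invariant set. -/

set_option autoImplicit false

namespace Pool.Agent.W36.GK

open Finset Pool.Agent.W36.GU Pool.Agent.W36.GV Filter Topology
open Pool.Agent.W41.FU Pool.Agent.W41 Pool.Agent.H499R2.ND Pool.Agent.H499R2.CO

theorem dot_abs {D : ℕ} (a x : Fin D → ℤ) {m : ℤ} (hx : ∀ j, |x j| ≤ m) : |dot a x| ≤ (∑ j, |a j|) * m := by
  unfold dot
  refine (abs_sum_le_sum_abs _ _).trans ?_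
  rw [sum_mul]
  apply sum_le_sum; intro j _
  rw [abs_mul]
  exact mul_le_mul_of_nonneg_left (hx j) (abs_nonneg _)

theorem pts_lower {D r : ℕ} (Λ : Fin r → Fin D → ℤ) (v : Fin D → ℤ) (hv : ∀ i, 0 < dot (Λ i) v) {s : ℤ} (hs : s = 1 ∨ s = -1) :
    ∃ κ : ℝ, 0 < κ ∧ ∃ N0 : ℕ, ∀ N : ℕ, N0 ≤ N →
      κ * (N : ℝ) ^ D ≤ Cn Λ 0 (fun _ => s) (fun _ => 0) (fun _ => N) (fun _ => -(N : ℤ)) (fun _ => (N : ℤ)) (fun _ => Set.univ) := by
  classical
  obtain ⟨A, hA⟩ : ∃ A : ℕ, A = (∑ i, ∑ j, (Λ i j).natAbs) + 1 := ⟨_, rfl⟩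
  obtain ⟨B, hB⟩ : ∃ B : ℕ, B = (∑ j, (v j).natAbs) + 1 := ⟨_, rfl⟩
  obtain ⟨W, hW⟩ : ∃ W : ℕ, W = 2 * A ^ 2 * B := ⟨_, rfl⟩
  have hA1 : 1 ≤ A := by omega
  have hB1 : 1 ≤ B := by omega
  have hW1 : 1 ≤ W := by
    rw [hW]
    have : 0 < 2 * A ^ 2 * B := by positivity
    omega
  have hAi : ∀ i, (∑ j, |Λ i j|) ≤ (A : ℤ) - 1 := by
    intro i
    have h1 : ∑ j, (Λ i j).natAbs ≤ ∑ i, ∑ j, (Λ i j).natAbs := single_le_sum (f := fun i => ∑ j, (Λ i j).natAbs) (fun _ _ => Nat.zero_le _) (mem_univ i)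
    have h2 : ∑ j, |Λ i j| = ((∑ j, (Λ i j).natAbs : ℕ) : ℤ) := by push_cast; rfl
    rw [h2]; omega
  have hBj : ∀ j, |v j| ≤ (B : ℤ) - 1 := by
    intro j
    have h1 : (v j).natAbs ≤ ∑ j, (v j).natAbs := single_le_sum (f := fun j => (v j).natAbs) (fun _ _ => Nat.zero_le _) (mem_univ j)
    rw [Int.abs_eq_natAbs]; omega
  refine ⟨(1 / (2 * W)) ^ D, by positivity, 2 * W, fun N hN => ?_⟩
  obtain ⟨m, hm⟩ : ∃ m : ℕ, m = N / W := ⟨_, rfl⟩
  have hmN : m * W ≤ N := by rw [hm]; exact Nat.div_mul_le_self N W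
  have hm2 : (N : ℝ) / (2 * W) ≤ m := by
    have hW0 : (0 : ℝ) < W := by exact_mod_cast hW1
    rw [div_le_iff₀ (by positivity)]
    have h1 : N < W * (N / W + 1) := Nat.lt_mul_div_succ N (by omega)
    have h2 : 1 ≤ N / W := (Nat.le_div_iff_mul_le (by omega)).2 (by omega)
    rw [← hm] at h1 h2
    have h3 : N ≤ m * (2 * W) := by nlinarith
    exact_mod_cast h3
  have hss : s * s = 1 := by rcases hs with rfl | rfl <;> norm_num
  have hsa : |s| = 1 := by rcases hs with rfl | rfl <;> simp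
  set T : Finset (Fin D → ℤ) := (cb D m).image (fun u j => s * (A * m * v j + u j)) with hT
  have hTc : T.card = m ^ D := by
    rw [hT, card_image_of_injective, card_cb]
    intro u u' h
    ext j
    have h1 : s * (A * m * v j + u j) = s * (A * m * v j + u' j) := congrFun h j
    have hs0 : s ≠ 0 := by rcases hs with rfl | rfl <;> norm_num
    have := mul_left_cancel₀ hs0 h1
    linarith
  have hAZ : (1 : ℤ) ≤ A := by exact_mod_cast hA1
  have hBZ : (1 : ℤ) ≤ B := by exact_mod_cast hB1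
  have hm0 : (0 : ℤ) ≤ m := Int.natCast_nonneg _
  have hmW : (m : ℤ) * (2 * A ^ 2 * B) ≤ N := by rw [hW] at hmN; exact_mod_cast hmN
  have hN0 : (0 : ℤ) < N := by exact_mod_cast (by omega : 0 < N)
  have hAA : (m : ℤ) * A * B ≤ m * A ^ 2 * B := by
    have h1 : (0 : ℤ) ≤ m * B * (A * (A - 1)) := by
      have : (0 : ℤ) ≤ A - 1 := by linarith
      positivity
    nlinarith
  have hsub : (T : Set (Fin D → ℤ)) ⊆ {x : Fin D → ℤ | (∀ j, (-(N : ℤ)) < x j ∧ x j ≤ (N : ℤ)) ∧ ∀ i, (∑ j, Λ i j * x j + (0 : Fin r → ℤ) i) ∈ (Set.univ : Set ℤ) ∧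
      ((0 : ℕ) : ℤ) < s * (∑ j, Λ i j * x j + (0 : Fin r → ℤ) i) ∧ s * (∑ j, Λ i j * x j + (0 : Fin r → ℤ) i) ≤ N} := by
    intro x hx
    rw [hT, coe_image, Set.mem_image] at hx
    obtain ⟨u, hu, rfl⟩ := hx
    rw [mem_coe, mem_cb] at hu
    have hm1 : (1 : ℤ) ≤ m ∨ D = 0 := by
      rcases Nat.eq_zero_or_pos D with h | h
      · exact Or.inr h
      · left
        have := hu ⟨0, h⟩
        linarith [this.1, this.2]
    refine ⟨fun j => ?_, fun i => ⟨Set.mem_univ _, ?_⟩⟩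
    · have h1 : |s * (A * m * v j + u j)| ≤ A * m * (B - 1) + m := by
        rw [abs_mul, hsa, one_mul]
        refine (abs_add_le _ _).trans ?_
        have h2 : |(A : ℤ) * m * v j| ≤ A * m * (B - 1) := by
          rw [abs_mul, abs_of_nonneg (show (0 : ℤ) ≤ A * m by positivity)]
          exact mul_le_mul_of_nonneg_left (hBj j) (by positivity)
        have h3 : |u j| ≤ m := by rw [abs_of_pos (by linarith [(hu j).1])]; exact (hu j).2
        linarith
      have h2 : (A : ℤ) * m * (B - 1) + m ≤ A * m * B := by nlinarith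
      have h3 : (A : ℤ) * m * B < N := by
        have h4 : 2 * ((m : ℤ) * A * B) ≤ N := by nlinarith
        rcases hm1 with h5 | h5
        · have : (0 : ℤ) < m * A * B := by positivity
          nlinarith
        · subst h5; exact Fin.elim0 j
      have h4 := abs_le.1 (h1.trans h2)
      constructor <;> linarith [h4.1, h4.2]
    · have e1 : s * (∑ j, Λ i j * (s * (A * m * v j + u j)) + (0 : Fin r → ℤ) i) = A * m * dot (Λ i) v + dot (Λ i) u := by
        unfold dot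
        simp only [Pi.zero_apply, add_zero]
        rw [mul_sum, mul_sum, ← sum_add_distrib]
        apply sum_congr rfl; intro j _
        have : s * (Λ i j * (s * (A * m * v j + u j))) = (s * s) * (Λ i j * (A * m * v j + u j)) := by ring
        rw [this, hss]; ring
      rw [e1]
      have h1 := dot_abs (Λ i) u (m := (m : ℤ)) (fun j => by rw [abs_of_pos (by linarith [(hu j).1])]; exact (hu j).2)
      have h2 : (∑ j, |Λ i j|) * (m : ℤ) ≤ (A - 1) * m := mul_le_mul_of_nonneg_right (hAi i) hm0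
      have h3 := abs_le.1 (h1.trans h2)
      have h4 : (1 : ℤ) ≤ dot (Λ i) v := hv i
      have h5 : dot (Λ i) v ≤ (A - 1) * (B - 1) := by
        refine (le_abs_self _).trans ((dot_abs (Λ i) v hBj).trans ?_)
        exact mul_le_mul_of_nonneg_right (hAi i) (by linarith)
      have hD : D ≠ 0 := by
        rintro rfl
        unfold dot at h4
        simp at h4
      have hm1' : (1 : ℤ) ≤ m := hm1.resolve_right hD
      constructor
      · have h6 : (A : ℤ) * m * 1 ≤ A * m * dot (Λ i) v := mul_le_mul_of_nonneg_left h4 (by positivity)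
        push_cast
        nlinarith [h3.1]
      · have h6 : (A : ℤ) * m * dot (Λ i) v ≤ A * m * (A * B - 1) := by
          apply mul_le_mul_of_nonneg_left _ (by positivity)
          nlinarith
        have h7 : (A : ℤ) * m * (A * B - 1) + (A - 1) * m ≤ m * A ^ 2 * B := by nlinarith
        have h8 : (m : ℤ) * A ^ 2 * B ≤ N := by
          have : (0 : ℤ) ≤ m * A ^ 2 * B := by positivity
          nlinarith
        linarith [h3.2]
  have hfin : {x : Fin D → ℤ | (∀ j, (-(N : ℤ)) < x j ∧ x j ≤ (N : ℤ)) ∧ ∀ i, (∑ j, Λ i j * x j + (0 : Fin r → ℤ) i) ∈ (Set.univ : Set ℤ) ∧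
      ((0 : ℕ) : ℤ) < s * (∑ j, Λ i j * x j + (0 : Fin r → ℤ) i) ∧ s * (∑ j, Λ i j * x j + (0 : Fin r → ℤ) i) ≤ N}.Finite := by
    apply (Finset.finite_toSet (box (fun _ : Fin D => -(N : ℤ)) (fun _ => (N : ℤ)))).subset
    intro x hx
    rw [mem_coe, mem_box]
    exact hx.1
  have h1 := Set.ncard_le_ncard hsub hfin
  rw [Set.ncard_coe_finset, hTc] at h1
  have h2 : ((m ^ D : ℕ) : ℝ) ≤ Cn Λ 0 (fun _ => s) (fun _ => 0) (fun _ => N) (fun _ => -(N : ℤ)) (fun _ => (N : ℤ)) (fun _ => Set.univ) := by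
    exact_mod_cast h1
  refine le_trans ?_ h2
  push_cast
  rw [← mul_pow]
  apply pow_le_pow_left₀ (by positivity)
  calc 1 / (2 * (W : ℝ)) * N = N / (2 * W) := by ring
    _ ≤ m := hm2

/-- many points at which all forms have values in an invariant set of positive density -/
theorem many_pts {D r : ℕ} (hsm : ∀ s : ℤ, (s = 1 ∨ s = -1) → Sm (r + 1) (Bal s)) (Λ : Fin r → Fin D → ℤ)
    (hΛ : ∀ i j, i ≠ j → Indep (Λ i) (Λ j)) (v : Fin D → ℤ) (hv : ∀ i, 0 < dot (Λ i) v) {s : ℤ} (hs : s = 1 ∨ s = -1)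
    {S : Fin r → Set ℤ} (hS : ∀ i, Inv 1 (S i)) {δ : Fin r → ℝ} (hδ : ∀ i, HD s (S i) (δ i)) (hδ0 : ∀ i, 0 < δ i) :
    ∃ κ : ℝ, 0 < κ ∧ ∃ N0 : ℕ, ∀ N : ℕ, N0 ≤ N →
      κ * (N : ℝ) ^ D ≤ Cn Λ 0 (fun _ => s) (fun _ => 0) (fun _ => N) (fun _ => -(N : ℤ)) (fun _ => (N : ℤ)) S := by
  obtain ⟨κ, hκ, N1, h1⟩ := pts_lower Λ v hv hs
  have hP : 0 < ∏ i, δ i := prod_pos fun i _ => hδ0 i
  have h0 : ∀ i, Λ i ≠ 0 := by
    intro i h
    have := hv i
    rw [h] at this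
    unfold dot at this
    simp at this
  obtain ⟨N2, h2⟩ := count hsm Λ h0 hΛ (s := fun _ => s) (fun _ => hs) (ε := (∏ i, δ i) * κ / (2 * 2 ^ D)) (by positivity)
  refine ⟨(∏ i, δ i) * κ / 2, by positivity, N1 + N2, fun N hN => ?_⟩
  have h3 := h2 S hS δ hδ (2 * N) (by omega) 0 (fun _ => 0) (fun _ => N) (fun _ => Nat.zero_le _) (fun _ => by omega)
    (fun _ => -(N : ℤ)) (fun _ => (N : ℤ)) (fun _ => by push_cast; linarith)
  have h4 := h1 N (by omega)
  have h5 := (abs_le.1 h3).1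
  have h6 := mul_le_mul_of_nonneg_left h4 hP.le
  have h7 : (∏ i, δ i) * κ / (2 * 2 ^ D) * ((2 * N : ℕ) : ℝ) ^ D = (∏ i, δ i) * κ / 2 * (N : ℝ) ^ D := by
    push_cast
    rw [mul_pow]
    field_simp
  rw [h7] at h5
  nlinarith

end Pool.Agent.W36.GK
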