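import Pool.Agent.W36.GK.K1
import Pool.Agent.W36.GU.GU7
import Pool.Agent.W36.GU.GU8

/-! Closeness of functions and local constancy of the derivatives. -/

set_option autoImplicit false

namespace Pool.Agent.W36.GK

open Finset Pool.Agent.W36.GU Pool.Agent.W36.GV

/-- closeness in the mean -/
def Cl (D : ℝ) (F G : ℤ → ℝ) : Prop := ∀ s : Finset ℤ, ∑ m ∈ s, |F m - G m| ≤ D

theorem Cl.nonneg {D : ℝ} {F G : ℤ → ℝ} (h : Cl D F G) : 0 ≤ D := by simpa using h ∅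

theorem Cl.mono {D D' : ℝ} {F G : ℤ → ℝ} (h : Cl D F G) (hD : D ≤ D') : Cl D' F G := fun s => (h s).trans hD

theorem Cl.refl {D : ℝ} (hD : 0 ≤ D) (F : ℤ → ℝ) : Cl D F F := by intro s; simpa using hD

theorem Cl.symm {D : ℝ} {F G : ℤ → ℝ} (h : Cl D F G) : Cl D G F := by
  intro s
  simp only [abs_sub_comm (G _) (F _)]
  exact h s

theorem Cl.trans {D D' : ℝ} {F G H : ℤ → ℝ} (h : Cl D F G) (h' : Cl D' G H) : Cl (D + D') F H := by
  intro s
  calc ∑ m ∈ s, |F m - H m| ≤ ∑ m ∈ s, (|F m - G m| + |G m - H m|) := sum_le_sum fun m _ => abs_sub_le _ _ _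
    _ = ∑ m ∈ s, |F m - G m| + ∑ m ∈ s, |G m - H m| := sum_add_distrib
    _ ≤ _ := add_le_add (h s) (h' s)

theorem Cl.tr {D : ℝ} {F G : ℤ → ℝ} (h : Cl D F G) (t : ℤ) : Cl D (fun n => F (n + t)) (fun n => G (n + t)) := by
  intro s
  have := sum_tr s t (fun n => |F n - G n|)
  rw [this]
  exact h _

theorem Cl.De {D : ℝ} {F G : ℤ → ℝ} (h : Cl D F G) (hF : B1 F) (hG : B1 G) (t : ℤ) : Cl (2 * D) (De t F) (De t G) := by
  intro s
  calc ∑ m ∈ s, |GV.De t F m - GV.De t G m| ≤ ∑ m ∈ s, (|F m - G m| + |F (m + t) - G (m + t)|) := by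
        apply sum_le_sum
        intro m _
        have e : GV.De t F m - GV.De t G m = (F m - G m) * F (m + t) + G m * (F (m + t) - G (m + t)) := by
          unfold GV.De; ring
        rw [e]
        refine (abs_add_le _ _).trans ?_
        rw [abs_mul, abs_mul]
        exact add_le_add (mul_le_of_le_one_right (abs_nonneg _) (hF _)) (mul_le_of_le_one_left (abs_nonneg _) (hG _))
    _ = ∑ m ∈ s, |F m - G m| + ∑ m ∈ s, |F (m + t) - G (m + t)| := sum_add_distrib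
    _ ≤ D + D := add_le_add (h s) (h.tr t s)
    _ = _ := by ring

theorem Cl.Dl (d : ℕ) : ∀ {D : ℝ} {F G : ℤ → ℝ}, Cl D F G → B1 F → B1 G → ∀ h : Fin d → ℤ, Cl (2 ^ d * D) (Dl d F h) (Dl d G h) := by
  induction d with
  | zero => intro D F G h _ _ h'; simpa [GK.Dl] using h
  | succ d ih =>
    intro D F G h hF hG h'
    have := ih (h.De hF hG (h' 0)) (De_B1 hF _) (De_B1 hG _) (Fin.tail h')
    have e : (2 : ℝ) ^ (d + 1) * D = 2 ^ d * (2 * D) := by ring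
    rw [e]
    exact this

/-- almost constant under shifts by at most `J` -/
def Lc (g : ℤ → ℝ) (J : ℕ) (D : ℝ) : Prop := ∀ j : ℤ, |j| ≤ J → Cl D (fun n => g (n + j)) g

theorem Lc.nonneg {g : ℤ → ℝ} {J : ℕ} {D : ℝ} (h : Lc g J D) : 0 ≤ D := (h 0 (by simp)).nonneg

theorem Lc.De {g : ℤ → ℝ} {J : ℕ} {D : ℝ} (h : Lc g J D) (hg : B1 g) (t : ℤ) : Lc (De t g) J (2 * D) := by
  intro j hj
  have h1 := (h j hj).De (fun n => hg _) hg t
  have e : GV.De t (fun n => g (n + j)) = fun n => GV.De t g (n + j) := by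
    ext n
    show g (n + j) * g (n + t + j) = g (n + j) * g (n + j + t)
    have : n + t + j = n + j + t := by ring
    rw [this]
  rw [e] at h1
  exact h1

theorem Lc.Dl (d : ℕ) : ∀ {g : ℤ → ℝ} {J : ℕ} {D : ℝ}, Lc g J D → B1 g → ∀ h : Fin d → ℤ, Lc (Dl d g h) J (2 ^ d * D) := by
  induction d with
  | zero => intro g J D h _ h'; simpa [GK.Dl] using h
  | succ d ih =>
    intro g J D h hg h'
    have := ih (h.De hg (h' 0)) (De_B1 hg _) (Fin.tail h')
    have e : (2 : ℝ) ^ (d + 1) * D = 2 ^ d * (2 * D) := by ring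
    rw [e]
    exact this

theorem win_Lc {f : ℤ → ℝ} (hf : ∀ n, |f n| ≤ 1) {M N X J : ℕ} (hN : N ≤ X) {κ : ℝ}
    (h1 : ∀ j : ℕ, j ≤ J → ∑ n ∈ Icc (1 : ℤ) X, |f (n + j) - f n| ≤ κ * X) : Lc (win M N f) J (κ * X + 2 * J) := by
  have key : ∀ j : ℕ, j ≤ J → ∀ s : Finset ℤ, ∑ m ∈ s, |win M N f (m + j) - win M N f m| ≤ κ * X + 2 * J := by
    intro j hj s
    have h2 := win_local hf (M := M) hN j (h1 j hj) s
    have h3 : (j : ℝ) ≤ J := by exact_mod_cast hj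
    linarith
  intro j hj s
  rcases le_or_gt 0 j with h | h
  · obtain ⟨i, rfl⟩ := Int.eq_ofNat_of_zero_le h
    rw [abs_of_nonneg h] at hj
    exact key i (by exact_mod_cast hj) s
  · obtain ⟨i, hi⟩ := Int.eq_ofNat_of_zero_le (show 0 ≤ -j by omega)
    have hij : j = -(i : ℤ) := by omega
    rw [abs_of_neg h, hi] at hj
    have h2 := key i (by exact_mod_cast hj) (s.map (addRightEmbedding j))
    rw [← sum_tr s j (fun m => |win M N f (m + i) - win M N f m|)] at h2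
    have e : ∀ m ∈ s, |win M N f (m + j) - win M N f m| = |win M N f (m + j + i) - win M N f (m + j)| := by
      intro m _
      have : m + j + i = m := by rw [hij]; ring
      rw [this, abs_sub_comm]
    rw [sum_congr rfl e]
    exact h2

/-- the derivatives change little when the differences change little -/
theorem Dl_shift (d : ℕ) : ∀ {g : ℤ → ℝ} {J : ℕ} {D : ℝ}, Lc g J D → B1 g → ∀ h h' : Fin d → ℤ, (∀ k, |h' k - h k| ≤ J) →
    Cl (4 ^ d * D) (Dl d g h') (Dl d g h) := by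
  induction d with
  | zero =>
    intro g J D h _ h1 h2 _
    simpa [GK.Dl] using Cl.refl h.nonneg g
  | succ d ih =>
    intro g J D hL hg h h' hh
    have a1 : Cl D (De (h' 0) g) (De (h 0) g) := by
      have a2 := (hL (h' 0 - h 0) (hh 0)).tr (h 0)
      intro s
      refine le_trans (sum_le_sum fun m _ => ?_) (a2 s)
      have e : De (h' 0) g m - De (h 0) g m = g m * (g (m + h 0 + (h' 0 - h 0)) - g (m + h 0)) := by
        unfold De
        have : m + h 0 + (h' 0 - h 0) = m + h' 0 := by ring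
        rw [this]; ring
      rw [e, abs_mul]
      exact mul_le_of_le_one_left (abs_nonneg _) (hg _)
    have a2 := Cl.Dl d a1 (De_B1 hg _) (De_B1 hg _) (Fin.tail h')
    have a3 := ih (hL.De hg (h 0)) (De_B1 hg _) (Fin.tail h) (Fin.tail h') (fun k => hh k.succ)
    refine (a2.trans a3).mono ?_
    have hD := hL.nonneg
    have h24 : (2 : ℝ) ^ d ≤ 4 ^ d := pow_le_pow_left₀ (by norm_num) (by norm_num) d
    have : (2 : ℝ) ^ d * D ≤ 4 ^ d * D := mul_le_mul_of_nonneg_right h24 hD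
    have h4 : (0 : ℝ) ≤ 4 ^ d * D := by positivity
    calc (2 : ℝ) ^ d * D + 4 ^ d * (2 * D) ≤ 4 ^ d * D + 4 ^ d * (2 * D) + 4 ^ d * D := by linarith
      _ = _ := by ring

variable {p : ℕ} [NeZero p]

theorem ht_close {D : ℝ} {F G : ℤ → ℝ} (h : Cl D F G) (X : ℕ) (ξ : ZMod p) : ‖ht p X F ξ - ht p X G ξ‖ ≤ D := by
  unfold ht
  rw [← sum_sub_distrib]
  refine (norm_sum_le _ _).trans (le_trans (sum_le_sum fun n _ => ?_) (h (Icc (1 : ℤ) X)))
  rw [← sub_mul, norm_mul, psi_norm, mul_one, ← Complex.ofReal_sub, Complex.norm_real, Real.norm_eq_abs]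

theorem ht_close' {D : ℝ} {F G : ℤ → ℝ} (h : Cl D F G) (X : ℕ) (ξ : ZMod p) : ‖ht p X F ξ‖ ≤ ‖ht p X G ξ‖ + D := by
  have h1 := ht_close h X ξ
  have : ht p X F ξ = ht p X G ξ + (ht p X F ξ - ht p X G ξ) := by ring
  rw [this]
  refine (norm_add_le _ _).trans ?_
  linarith

theorem ht_freq {F : ℤ → ℝ} {X : ℕ} (hs : Sup F X) {D : ℝ} {j : ℕ} (hj : j ≤ X) (hc : Cl D (fun n => F (n + j)) F) (ξ : ZMod p) :
    ‖ht p X F ξ‖ * ‖1 - psi p (ξ * (j : ℤ))‖ ≤ D := by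
  have hG : ∀ n : ℤ, (F n : ℂ) * psi p (ξ * n) ≠ 0 → 1 ≤ n ∧ n ≤ X := by
    intro n hn
    apply hs n
    intro h0
    apply hn
    rw [h0]; simp
  have hjX : |(j : ℤ)| ≤ X := by rw [abs_of_nonneg (Int.natCast_nonneg _)]; exact_mod_cast hj
  have e1 := shift_big (G := fun n : ℤ => (F n : ℂ) * psi p (ξ * n)) hG hjX
  have e2 := shift_big (G := fun n : ℤ => (F n : ℂ) * psi p (ξ * n)) hG (t := 0) (by simp)
  have e3 : ht p X F ξ * (1 - psi p (ξ * (j : ℤ)))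
      = ∑ n ∈ Icc (-(X : ℤ)) (2 * X), ((F (n + j) : ℂ) - F n) * psi p (ξ * (n + j : ℤ)) := by
    have e4 : ht p X F ξ * (1 - psi p (ξ * (j : ℤ))) = ht p X F ξ - psi p (ξ * (j : ℤ)) * ht p X F ξ := by ring
    rw [e4]
    conv_lhs =>
      rw [show ht p X F ξ = ∑ n ∈ Icc (1 : ℤ) X, (F n : ℂ) * psi p (ξ * n) from rfl]
    conv_lhs =>
      arg 1
      rw [← e1]
    conv_lhs =>
      arg 2
      arg 2
      rw [← e2]
    rw [mul_sum, ← sum_sub_distrib]
    apply sum_congr rfl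
    intro n _
    have e5 : psi p (ξ * (n + j : ℤ)) = psi p (ξ * (j : ℤ)) * psi p (ξ * (n + 0 : ℤ)) := by
      rw [← psi_add]; congr 1; push_cast; ring
    rw [e5, add_zero]
    ring
  rw [← norm_mul, e3]
  refine (norm_sum_le _ _).trans (le_trans (sum_le_sum fun n _ => ?_) (hc (Icc (-(X : ℤ)) (2 * X))))
  rw [norm_mul, psi_norm, mul_one, ← Complex.ofReal_sub, Complex.norm_real, Real.norm_eq_abs]

theorem ht_small {F : ℤ → ℝ} {X : ℕ} (hs : Sup F X) {D σ : ℝ} {J : ℕ} (hJ : 1 ≤ J) (hJX : J ≤ X) (hL : Lc F J D)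
    (hnum : D < σ * X) {ξ : ZMod p} (hA : σ * X ≤ ‖ht p X F ξ‖) : |(ξ.valMinAbs : ℝ)| * (4 * J) < p := by
  apply freq_lem _ hJ
  · intro j hj1 hjJ
    have h2 := ht_freq (p := p) hs (j := j) (hjJ.trans hJX) (hL j (by rw [abs_of_nonneg (Int.natCast_nonneg _)]; exact_mod_cast hjJ)) ξ
    have e : psi p ((ξ.valMinAbs * j : ℤ) : ZMod p) = psi p (ξ * (j : ℤ)) := by
      congr 1
      rw [Int.cast_mul, ZMod.coe_valMinAbs]
    rw [e]
    by_contra hcon
    push Not at hcon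
    have h3 : ‖ht p X F ξ‖ * 1 ≤ ‖ht p X F ξ‖ * ‖1 - psi p (ξ * (j : ℤ))‖ := mul_le_mul_of_nonneg_left hcon (norm_nonneg _)
    linarith
  · have := ZMod.valMinAbs_mem_Ioc ξ
    rw [Set.mem_Ioc] at this
    rcases abs_cases ξ.valMinAbs with h | h <;> omega

theorem card_spec {F : ℤ → ℝ} (hF : B1 F) {X : ℕ} (hX : 1 ≤ X) (hp : X ≤ p) {σ : ℝ} (hσ : 0 < σ)
    [DecidablePred fun ξ : ZMod p => σ * X ≤ ‖ht p X F ξ‖] :
    (((univ : Finset (ZMod p)).filter (fun ξ => σ * X ≤ ‖ht p X F ξ‖)).card : ℝ) ≤ p / (σ ^ 2 * X) := by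
  have hX0 : (0 : ℝ) < X := by exact_mod_cast hX
  have h2 := ht_sq hF hp
  have h3 : (((univ : Finset (ZMod p)).filter (fun ξ => σ * X ≤ ‖ht p X F ξ‖)).card : ℝ) * (σ * X) ^ 2
      ≤ ∑ ξ : ZMod p, ‖ht p X F ξ‖ ^ 2 := by
    rw [← nsmul_eq_mul]
    refine (card_nsmul_le_sum _ (fun ξ => ‖ht p X F ξ‖ ^ 2) _ ?_).trans
      (sum_le_sum_of_subset_of_nonneg (filter_subset _ _) fun _ _ _ => sq_nonneg _)
    intro ξ hξ
    exact pow_le_pow_left₀ (by positivity) (mem_filter.1 hξ).2 2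
  rw [le_div_iff₀ (by positivity)]
  have h4 := h3.trans h2
  have h5 : ((((univ : Finset (ZMod p)).filter (fun ξ => σ * X ≤ ‖ht p X F ξ‖)).card : ℝ) * (σ ^ 2 * X)) * X ≤ p * X := by
    linarith [h4]
  exact le_of_mul_le_mul_right h5 hX0

end Pool.Agent.W36.GK
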