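import Pool.Agent.W36.GK.K3

/-! Dilations of the spectra of the derivatives. -/

set_option autoImplicit false

namespace Pool.Agent.W36.GK

open Finset Pool.Agent.W36.GU Pool.Agent.W36.GV

/-- the normalised function -/
noncomputable def gU (M N U : ℕ) (f : ℤ → ℝ) (m : ℤ) : ℝ := wi M N (U * m) * f m

theorem gU_B1 {f : ℤ → ℝ} (hf : B1 f) (M N U : ℕ) : B1 (gU M N U f) := by
  intro m
  unfold gU
  rw [abs_mul]
  exact mul_le_one₀ (wi_abs _ _ _) (abs_nonneg _) (hf m)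

theorem gU_close {f : ℤ → ℝ} {M N X U : ℕ} (hN : N ≤ X) (hU : 1 ≤ U) {κ : ℝ}
    (h1 : ∑ n ∈ Icc (1 : ℤ) X, |f (U * n) - f n| ≤ κ * X) : Cl (κ * X) (fun y => win M N f (U * y)) (gU M N U f) := by
  intro s
  refine le_trans (le_of_eq ?_) (wi_dil (M := M) hN hU h1 s)
  apply sum_congr rfl
  intro m _
  show |win M N f (U * m) - gU M N U f m| = _
  rw [win_wi]
  unfold gU
  rw [← mul_sub, abs_mul, abs_of_nonneg (wi_nonneg _ _ _)]

theorem gU_diff {f : ℤ → ℝ} (hf : B1 f) {M N X u v : ℕ} (hMN : M ≤ N) (hN : N ≤ X) (hv : 1 ≤ v) (hvu : v ≤ u) :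
    Cl (2 * (X * (1 / v - 1 / u) + 1)) (gU M N v f) (gU M N u f) := by
  intro s
  refine le_trans (sum_le_sum fun m _ => ?_) (wi_diff hMN hN hv hvu s)
  unfold gU
  rw [← sub_mul, abs_mul]
  exact mul_le_of_le_one_right (abs_nonneg _) (hf m)

theorem gU_sup {f : ℤ → ℝ} {M N X U : ℕ} (hN : N ≤ X) (d : ℕ) (h : Fin d → ℤ) {m : ℤ} (hm : Dl d (gU M N U f) h m ≠ 0) :
    1 ≤ (U : ℤ) * m ∧ (U : ℤ) * m ≤ X := by
  have h1 : ∀ (d : ℕ) (F : ℤ → ℝ) (h : Fin d → ℤ) (m : ℤ), Dl d F h m ≠ 0 → F m ≠ 0 := by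
    intro d
    induction d with
    | zero => intro F h m hm; exact hm
    | succ d ih =>
      intro F h m hm
      exact left_ne_zero_of_mul (ih _ _ _ hm)
  have h2 := h1 d _ h m hm
  unfold gU wi at h2
  have hNX : (N : ℤ) ≤ X := by exact_mod_cast hN
  have hM0 : (0 : ℤ) ≤ M := Int.natCast_nonneg _
  by_cases h3 : (M : ℤ) < U * m ∧ (U : ℤ) * m ≤ N
  · omega
  · rw [if_neg h3, zero_mul] at h2
    exact absurd rfl h2

variable {p : ℕ} [NeZero p]

/-- the normalised sum -/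
noncomputable def EE (p : ℕ) [NeZero p] (f : ℤ → ℝ) (M N X U d : ℕ) (k : Fin d → ℤ) (ξ : ZMod p) : ℂ :=
  ∑ m ∈ Icc (0 : ℤ) X, (Dl d (gU M N U f) k m : ℂ) * psi p (ξ * (U * m : ℤ))

theorem EE_diff {f : ℤ → ℝ} (hf : B1 f) {M N X u v : ℕ} (hMN : M ≤ N) (hN : N ≤ X) (hv : 1 ≤ v) (hvu : v ≤ u)
    (d : ℕ) (k : Fin d → ℤ) (x x' : ℤ) (hx : 2 * |x * v - x' * u| ≤ u) :
    ‖EE p f M N X v d k (x : ZMod p) - EE p f M N X u d k (x' : ZMod p)‖
      ≤ 2 ^ d * (2 * (X * (1 / v - 1 / u) + 1)) + X / u * (Real.pi * X / p) := by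
  have hp0 : (0 : ℝ) < p := by exact_mod_cast NeZero.pos p
  have hu1 : (0 : ℝ) < u := by exact_mod_cast (by omega : 0 < u)
  have hu0 : (0 : ℤ) < u := by exact_mod_cast (by omega : 0 < u)
  unfold EE
  rw [← sum_sub_distrib]
  refine (norm_sum_le _ _).trans ?_
  have hpt : ∀ m ∈ Icc (0 : ℤ) X, ‖(Dl d (gU M N v f) k m : ℂ) * psi p (x * (v * m : ℤ))
      - (Dl d (gU M N u f) k m : ℂ) * psi p (x' * (u * m : ℤ))‖
      ≤ |Dl d (gU M N v f) k m - Dl d (gU M N u f) k m|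
        + (if 1 ≤ (u : ℤ) * m ∧ (u : ℤ) * m ≤ X then (1 : ℝ) else 0) * (Real.pi * X / p) := by
    intro m _
    set a := Dl d (gU M N v f) k m with ha
    set b := Dl d (gU M N u f) k m with hb
    have e1 : (a : ℂ) * psi p (x * (v * m : ℤ)) - (b : ℂ) * psi p (x' * (u * m : ℤ))
        = ((a - b : ℝ) : ℂ) * psi p (x * (v * m : ℤ)) + (b : ℂ) * (psi p (x * (v * m : ℤ)) - psi p (x' * (u * m : ℤ))) := by
      push_cast; ring
    rw [e1]
    refine (norm_add_le _ _).trans ?_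
    apply add_le_add
    · rw [norm_mul, psi_norm, mul_one, Complex.norm_real, Real.norm_eq_abs]
    · rw [norm_mul, Complex.norm_real, Real.norm_eq_abs]
      have hb1 : |b| ≤ 1 := Dl_B1 d (gU_B1 hf M N u) k m
      by_cases h3 : 1 ≤ (u : ℤ) * m ∧ (u : ℤ) * m ≤ X
      · rw [if_pos h3, one_mul]
        have e2 : psi p (x * (v * m : ℤ)) - psi p (x' * (u * m : ℤ))
            = psi p (x' * (u * m : ℤ)) * (psi p (((x * v - x' * u) * m : ℤ) : ZMod p) - 1) := by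
          have e3 : psi p (x * (v * m : ℤ)) = psi p (x' * (u * m : ℤ)) * psi p (((x * v - x' * u) * m : ℤ) : ZMod p) := by
            rw [← psi_add]; congr 1; push_cast; ring
          rw [e3]; ring
        rw [e2, norm_mul, psi_norm, one_mul]
        have h4 := psi_sub_one (p := p) ((x * v - x' * u) * m)
        have h5 : 2 * Real.pi * |(((x * v - x' * u) * m : ℤ) : ℝ)| / p ≤ Real.pi * X / p := by
          apply div_le_div_of_nonneg_right _ hp0.le
          have hm0 : 0 ≤ m := by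
            by_contra h
            have : (u : ℤ) * m ≤ u * 0 := mul_le_mul_of_nonneg_left (by omega) hu0.le
            omega
          have h6 : 2 * (|x * v - x' * u| * m) ≤ X := by
            calc 2 * (|x * v - x' * u| * m) = (2 * |x * v - x' * u|) * m := by ring
              _ ≤ u * m := mul_le_mul_of_nonneg_right hx hm0
              _ ≤ X := h3.2
          have h7 : |(((x * v - x' * u) * m : ℤ) : ℝ)| = ((|x * v - x' * u| * m : ℤ) : ℝ) := by
            push_cast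
            rw [abs_mul, abs_of_nonneg (show (0 : ℝ) ≤ m by exact_mod_cast hm0)]
          rw [h7]
          have h8 : 2 * ((|x * v - x' * u| * m : ℤ) : ℝ) ≤ X := by exact_mod_cast h6
          nlinarith [Real.pi_pos]
        calc |b| * ‖psi p (((x * v - x' * u) * m : ℤ) : ZMod p) - 1‖
            ≤ 1 * ‖psi p (((x * v - x' * u) * m : ℤ) : ZMod p) - 1‖ := mul_le_mul_of_nonneg_right hb1 (norm_nonneg _)
          _ ≤ Real.pi * X / p := by rw [one_mul]; exact h4.trans h5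
      · have : b = 0 := by
          by_contra hne
          exact h3 (gU_sup hN d k hne)
        rw [this, if_neg h3]
        simp
  refine (sum_le_sum hpt).trans ?_
  rw [sum_add_distrib, ← sum_mul]
  have a1 := Cl.Dl d (gU_diff hf hMN hN hv hvu) (gU_B1 hf M N v) (gU_B1 hf M N u) k (Icc (0 : ℤ) X)
  have a3 := mul_le_mul_of_nonneg_right (count_mul (X := X) (v := u) (by omega) (Icc (0 : ℤ) X))
    (show 0 ≤ Real.pi * X / p by positivity)
  linarith

/-- dilation of the spectrum -/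
theorem dil_k {f : ℤ → ℝ} (hf : B1 f) {M N X u v : ℕ} (hMN : M ≤ N) (hN : N ≤ X) (hv : 1 ≤ v) (hvu : v ≤ u)
    {κ ρ : ℝ} (hκ : 0 ≤ κ) (hρ : 0 ≤ ρ) (hloc : ∀ j : ℕ, j ≤ u → ∑ n ∈ Icc (1 : ℤ) X, |f (n + j) - f n| ≤ κ * X)
    (hdu : ∑ n ∈ Icc (1 : ℤ) X, |f (u * n) - f n| ≤ κ * X) (hdv : ∑ n ∈ Icc (1 : ℤ) X, |f (v * n) - f n| ≤ κ * X)
    (d : ℕ) (k : Fin d → ℤ) (x x' : ℤ) (hx : 2 * |x * v - x' * u| ≤ u)
    (hr : ∀ i < v, ‖psi p ((x * (i : ℕ) : ℤ) : ZMod p) - 1‖ ≤ ρ) (hr' : ∀ i < u, ‖psi p ((x' * (i : ℕ) : ℤ) : ZMod p) - 1‖ ≤ ρ) :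
    ‖ht p X (Dl d (win M N f) (fun i => v * k i)) (x : ZMod p)‖ ≤ ‖ht p X (Dl d (win M N f) (fun i => u * k i)) (x' : ZMod p)‖
      + (2 ^ d * (4 * u * (κ * X) + 6 * (u : ℝ) ^ 2 + 2 * (X * (1 - v / u))) + 2 * (X * ρ) + Real.pi * X ^ 2 / p) := by
  have hp0 : (0 : ℝ) < p := by exact_mod_cast NeZero.pos p
  have hu1 : (0 : ℝ) < u := by exact_mod_cast (by omega : 0 < u)
  have hv1 : (0 : ℝ) < v := by exact_mod_cast hv
  have hvu1 : (v : ℝ) ≤ u := by exact_mod_cast hvu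
  have hX0 : (0 : ℝ) ≤ X := Nat.cast_nonneg _
  have hU1 : (1 : ℝ) ≤ u := by exact_mod_cast (by omega : 1 ≤ u)
  have hLc := (win_Lc hf (M := M) hN hloc)
  have hwB : B1 (win M N f) := win_abs hf M N
  have h2d : (0 : ℝ) < 2 ^ d := by positivity
  have gen : ∀ U : ℕ, 1 ≤ U → U ≤ u → (∑ n ∈ Icc (1 : ℤ) X, |f (U * n) - f n| ≤ κ * X) → ∀ y : ℤ,
      (∀ i < U, ‖psi p ((y * (i : ℕ) : ℤ) : ZMod p) - 1‖ ≤ ρ) →
      ‖ht p X (Dl d (win M N f) (fun i => U * k i)) (y : ZMod p) - U * EE p f M N X U d k (y : ZMod p)‖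
        ≤ U * (2 ^ d * (κ * X + 2 * u)) + X * ρ + U * (2 ^ d * (κ * X)) := by
    intro U hU hUu hd y hy
    have h1 := prog (p := p) (F := Dl d (win M N f) (fun i => U * k i)) (X := X)
      (Dl_B1 d hwB _) (Dl_sup d (win_sup f M hN) _) hU (D := 2 ^ d * (κ * X + 2 * u)) hρ (by
        intro i hi s
        have h2 := Lc.Dl d hLc hwB (fun i => U * k i) (i : ℤ) (by
          rw [abs_of_nonneg (Int.natCast_nonneg _)]
          exact_mod_cast (by omega : i ≤ u)) s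
        exact h2) (y : ZMod p) (by
        intro i hi
        have e : (y : ZMod p) * (((i : ℕ) : ℤ) : ZMod p) = ((y * (i : ℕ) : ℤ) : ZMod p) := by push_cast; ring
        rw [e]
        exact hy i hi)
    have h2 : ‖∑ m ∈ Icc (0 : ℤ) X, (Dl d (win M N f) (fun i => U * k i) (U * m) : ℂ) * psi p ((y : ZMod p) * (U * m : ℤ))
        - EE p f M N X U d k (y : ZMod p)‖ ≤ 2 ^ d * (κ * X) := by
      unfold EE
      rw [← sum_sub_distrib]
      have h3 := Cl.Dl d (gU_close (f := f) (M := M) hN hU hd) (fun n => hwB _) (gU_B1 hf M N U) k (Icc (0 : ℤ) X)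
      refine (norm_sum_le _ _).trans (le_trans (sum_le_sum fun m _ => ?_) h3)
      rw [← sub_mul, norm_mul, psi_norm, mul_one, ← Complex.ofReal_sub, Complex.norm_real, Real.norm_eq_abs, Dl_dil]
    have e1 : ht p X (Dl d (win M N f) (fun i => U * k i)) (y : ZMod p) - U * EE p f M N X U d k (y : ZMod p)
        = (∑ n ∈ Icc (1 : ℤ) X, (Dl d (win M N f) (fun i => U * k i) n : ℂ) * psi p ((y : ZMod p) * n)
          - U * ∑ m ∈ Icc (0 : ℤ) X, (Dl d (win M N f) (fun i => U * k i) (U * m) : ℂ) * psi p ((y : ZMod p) * (U * m : ℤ)))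
          + U * (∑ m ∈ Icc (0 : ℤ) X, (Dl d (win M N f) (fun i => U * k i) (U * m) : ℂ) * psi p ((y : ZMod p) * (U * m : ℤ))
            - EE p f M N X U d k (y : ZMod p)) := by
      unfold ht; ring
    rw [e1]
    refine (norm_add_le _ _).trans ?_
    apply add_le_add
    · exact h1
    · rw [norm_mul, Complex.norm_natCast]
      exact mul_le_mul_of_nonneg_left h2 (Nat.cast_nonneg _)
  have g1 := gen v hv hvu hdv x hr
  have g2 := gen u (by omega) le_rfl hdu x' hr'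
  have g3 := EE_diff (p := p) hf hMN hN hv hvu d k x x' hx
  set a1 := ht p X (Dl d (win M N f) (fun i => v * k i)) (x : ZMod p)
  set a2 := ht p X (Dl d (win M N f) (fun i => u * k i)) (x' : ZMod p)
  set b1 := EE p f M N X v d k (x : ZMod p)
  set b2 := EE p f M N X u d k (x' : ZMod p)
  have n1 : ‖a1‖ ≤ v * ‖b1‖ + (v * (2 ^ d * (κ * X + 2 * u)) + X * ρ + v * (2 ^ d * (κ * X))) := by
    have : a1 = v * b1 + (a1 - v * b1) := by ring
    rw [this]
    refine (norm_add_le _ _).trans ?_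
    rw [norm_mul, Complex.norm_natCast]
    have e : v * b1 + (a1 - v * b1) - v * b1 = a1 - v * b1 := by ring
    linarith [g1]
  have n2 : ‖b1‖ ≤ ‖b2‖ + (2 ^ d * (2 * (X * (1 / v - 1 / u) + 1)) + X / u * (Real.pi * X / p)) := by
    have : b1 = b2 + (b1 - b2) := by ring
    rw [this]
    refine (norm_add_le _ _).trans ?_
    linarith [g3]
  have n3 : u * ‖b2‖ ≤ ‖a2‖ + (u * (2 ^ d * (κ * X + 2 * u)) + X * ρ + u * (2 ^ d * (κ * X))) := by
    have e : (u : ℂ) * b2 = a2 - (a2 - u * b2) := by ring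
    have e2 : (u : ℝ) * ‖b2‖ = ‖(u : ℂ) * b2‖ := by rw [norm_mul, Complex.norm_natCast]
    rw [e2, e]
    refine (norm_sub_le _ _).trans ?_
    linarith [g2]
  have n4 : (v : ℝ) * ‖b2‖ ≤ ‖a2‖ + (u * (2 ^ d * (κ * X + 2 * u)) + X * ρ + u * (2 ^ d * (κ * X))) :=
    (mul_le_mul_of_nonneg_right hvu1 (norm_nonneg _)).trans n3
  have n5 : (v : ℝ) * ‖b1‖ ≤ v * ‖b2‖ + (2 ^ d * (2 * (X * (1 - v / u) + v)) + Real.pi * X ^ 2 / p) := by
    have h1 := mul_le_mul_of_nonneg_left n2 hv1.le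
    have e1 : (v : ℝ) * (‖b2‖ + (2 ^ d * (2 * (X * (1 / v - 1 / u) + 1)) + X / u * (Real.pi * X / p)))
        = v * ‖b2‖ + (2 ^ d * (2 * (X * (1 - v / u) + v)) + v / u * (Real.pi * X ^ 2 / p)) := by
      field_simp
    rw [e1] at h1
    have h2 : (v : ℝ) / u * (Real.pi * X ^ 2 / p) ≤ Real.pi * X ^ 2 / p :=
      mul_le_of_le_one_left (by positivity) (by rw [div_le_one hu1]; exact hvu1)
    linarith
  have hκX : 0 ≤ 2 ^ d * (κ * X) := by positivity
  have f1 : (v : ℝ) * (2 ^ d * (κ * X)) ≤ u * (2 ^ d * (κ * X)) := mul_le_mul_of_nonneg_right hvu1 hκX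
  have f2 : (v : ℝ) * (2 ^ d * (κ * X + 2 * u)) ≤ u * (2 ^ d * (κ * X + 2 * u)) :=
    mul_le_mul_of_nonneg_right hvu1 (by positivity)
  have f3 : 2 ^ d * (2 * (v : ℝ)) ≤ 2 ^ d * (2 * (u * u)) := by
    apply mul_le_mul_of_nonneg_left _ h2d.le
    nlinarith
  have f4 : (2 : ℝ) ^ d * (4 * u * (κ * X) + 6 * (u : ℝ) ^ 2 + 2 * (X * (1 - v / u)))
      = (u * (2 ^ d * (κ * X + 2 * u)) + u * (2 ^ d * (κ * X))) + (u * (2 ^ d * (κ * X + 2 * u)) + u * (2 ^ d * (κ * X)))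
        + 2 ^ d * (2 * (X * (1 - v / u) + v)) + (2 ^ d * (2 * (u * u)) - 2 ^ d * (2 * (v : ℝ))) := by ring
  rw [f4]
  linarith

end Pool.Agent.W36.GK
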