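import Pool.Agent.W36.GK.K4

/-! A large Gowers norm gives many large derivatives. -/

set_option autoImplicit false

namespace Pool.Agent.W36.GK

open Finset Pool.Agent.W36.GU Pool.Agent.W36.GV

variable {p : ℕ} [NeZero p]

theorem ht_pos {d : ℕ} {g : ℤ → ℝ} {X : ℕ} (hs : Sup g X) {h : Fin (d + 1) → ℤ} {ξ : ZMod p} {σ : ℝ} (hσ : 0 < σ) (hX : 1 ≤ X)
    (hA : σ * X ≤ ‖ht p X (Dl (d + 1) g h) ξ‖) (k : Fin (d + 1)) : |h k| < X := by
  by_contra hcon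
  push Not at hcon
  have h0 : ht p X (Dl (d + 1) g h) ξ = 0 := by
    unfold ht
    apply sum_eq_zero
    intro n _
    rw [Dl_zero hs hcon n]
    simp
  rw [h0, norm_zero] at hA
  have : (0 : ℝ) < X := by exact_mod_cast hX
  have := mul_pos hσ this
  linarith

theorem many_k (d : ℕ) {f : ℤ → ℝ} (hf : B1 f) {M N X : ℕ} (hN : N ≤ X) (hX : 1 ≤ X)
    {ε σ κ : ℝ} {Q J : ℕ} (hε : 0 < ε) (hε1 : ε ≤ 1) (hσ : ε = 4 * 3 ^ (d + 1) * σ) (hQ1 : 1 ≤ Q) (hQJ : Q ≤ J)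
    (hloc : ∀ j : ℕ, j ≤ J → ∑ n ∈ Icc (1 : ℤ) X, |f (n + j) - f n| ≤ κ * X)
    (hnum : 4 ^ (d + 1) * (κ * X + 2 * J) ≤ σ * X) (hp : 2 * X ≤ p)
    (hU : ε * (X : ℝ) ^ (d + 4) < GN (2 + (d + 1)) (win M N f) X) :
    ∃ (P : Finset (Fin (d + 1) → ℤ)) (φ : (Fin (d + 1) → ℤ) → ZMod p),
      (∀ α ∈ P, σ * X ≤ ‖ht p X (Dl (d + 1) (win M N f) (fun i => Q * α i)) (φ α)‖) ∧
      ε * (X : ℝ) ^ (d + 1) ≤ 2 * (Q : ℝ) ^ (d + 1) * P.card := by
  classical
  set g := win M N f with hg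
  have hs : Sup g X := win_sup f M hN
  have hgB : B1 g := win_abs hf M N
  have hX0 : (1 : ℝ) ≤ X := by exact_mod_cast hX
  have hσ0 : 0 < σ := by
    have h3 : (0 : ℝ) < 4 * 3 ^ (d + 1) := by positivity
    by_contra h
    push Not at h
    have := mul_nonpos_of_nonneg_of_nonpos h3.le h
    linarith
  have hpX : X ≤ p := by omega
  set H := (bx (d + 1) X).filter (fun h => ∃ ξ : ZMod p, 2 * σ * X ≤ ‖ht p X (Dl (d + 1) g h) ξ‖) with hH
  have h1 : GN (2 + (d + 1)) g X ≤ H.card * (X : ℝ) ^ 3 + (3 ^ (d + 1) * (X : ℝ) ^ (d + 1)) * ((2 * σ * X) ^ 2 * X) := by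
    rw [GN_Dl, ← sum_filter_add_sum_filter_not (bx (d + 1) X) (fun h => ∃ ξ : ZMod p, 2 * σ * X ≤ ‖ht p X (Dl (d + 1) g h) ξ‖)]
    apply add_le_add
    · rw [← nsmul_eq_mul]
      apply sum_le_card_nsmul
      intro h _
      have := GN2_le (p := p) (m := X) (Dl_B1 (d + 1) hgB h) (Dl_sup (d + 1) hs h) hp (fun ξ => ht_le (Dl_B1 (d + 1) hgB h) X ξ)
      calc _ ≤ _ := this
        _ = _ := by ring
    · have h2 : ∀ h ∈ (bx (d + 1) X).filter (fun h => ¬ ∃ ξ : ZMod p, 2 * σ * X ≤ ‖ht p X (Dl (d + 1) g h) ξ‖),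
          GN 2 (Dl (d + 1) g h) X ≤ (2 * σ * X) ^ 2 * X := by
        intro h hh
        rw [mem_filter] at hh
        have h3 := hh.2
        push Not at h3
        exact GN2_le (Dl_B1 (d + 1) hgB h) (Dl_sup (d + 1) hs h) hp (fun ξ => (h3 ξ).le)
      refine (sum_le_card_nsmul _ _ _ h2).trans ?_
      rw [nsmul_eq_mul]
      apply mul_le_mul_of_nonneg_right _ (by positivity)
      refine le_trans ?_ (card_bx_le hX (d + 1))
      exact_mod_cast card_filter_le _ _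
  have h2 : ε * (X : ℝ) ^ (d + 1) < H.card + 3 ^ (d + 1) * (X : ℝ) ^ (d + 1) * (4 * σ ^ 2) := by
    have e : (X : ℝ) ^ 3 * (ε * (X : ℝ) ^ (d + 1)) < (X : ℝ) ^ 3 * (H.card + 3 ^ (d + 1) * (X : ℝ) ^ (d + 1) * (4 * σ ^ 2)) := by
      calc (X : ℝ) ^ 3 * (ε * (X : ℝ) ^ (d + 1)) = ε * (X : ℝ) ^ (d + 4) := by ring
        _ < GN (2 + (d + 1)) g X := hU
        _ ≤ _ := h1
        _ = _ := by ring
    exact lt_of_mul_lt_mul_left e (by positivity)
  have h3 : ε / 2 * (X : ℝ) ^ (d + 1) ≤ H.card := by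
    have e1 : 3 ^ (d + 1) * (4 * σ ^ 2) ≤ ε / 2 := by
      have e2 : 3 ^ (d + 1) * (4 * σ ^ 2) = ε * σ := by rw [hσ]; ring
      rw [e2]
      have e3 : σ ≤ 1 / 2 := by
        have h3 : (3 : ℝ) ≤ 3 ^ (d + 1) := by
          calc (3 : ℝ) = 3 ^ 1 := by norm_num
            _ ≤ 3 ^ (d + 1) := pow_le_pow_right₀ (by norm_num) (by omega)
        nlinarith
      nlinarith
    have e2 : 3 ^ (d + 1) * (X : ℝ) ^ (d + 1) * (4 * σ ^ 2) ≤ ε / 2 * (X : ℝ) ^ (d + 1) := by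
      calc 3 ^ (d + 1) * (X : ℝ) ^ (d + 1) * (4 * σ ^ 2) = (3 ^ (d + 1) * (4 * σ ^ 2)) * (X : ℝ) ^ (d + 1) := by ring
        _ ≤ _ := mul_le_mul_of_nonneg_right e1 (by positivity)
    linarith
  have hQ0 : (0 : ℤ) < Q := by exact_mod_cast hQ1
  set π : (Fin (d + 1) → ℤ) → (Fin (d + 1) → ℤ) := fun h i => h i / (Q : ℤ) with hπ
  have hLc := win_Lc hf (M := M) hN hloc
  have hex : ∀ α ∈ H.image π, ∃ ξ : ZMod p, σ * X ≤ ‖ht p X (Dl (d + 1) g (fun i => Q * α i)) ξ‖ := by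
    intro α hα
    rw [mem_image] at hα
    obtain ⟨h, hh, rfl⟩ := hα
    rw [hH, mem_filter] at hh
    obtain ⟨-, ξ, hξ⟩ := hh
    refine ⟨ξ, ?_⟩
    have hdiff : ∀ k, |h k - Q * (h k / Q)| ≤ J := by
      intro k
      have e1 := Int.emod_add_mul_ediv (h k) (Q : ℤ)
      have e2 := Int.emod_nonneg (h k) hQ0.ne'
      have e3 := Int.emod_lt_of_pos (h k) hQ0
      have hQJ' : (Q : ℤ) ≤ J := by exact_mod_cast hQJ
      rw [abs_le]
      constructor <;> omega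
    have h4 := ht_close' (p := p) (Dl_shift (d + 1) hLc hgB (fun i => Q * (h i / Q)) h hdiff) X ξ
    have h5 : 2 * σ * X ≤ ‖ht p X (Dl (d + 1) g (fun i => Q * (h i / Q))) ξ‖ + σ * X := by linarith
    have h6 : σ * X ≤ ‖ht p X (Dl (d + 1) g (fun i => Q * (h i / Q))) ξ‖ := by linarith
    exact h6
  choose! φ hφ using hex
  refine ⟨H.image π, φ, hφ, ?_⟩
  have h4 : H.card ≤ Q ^ (d + 1) * (H.image π).card := by
    apply card_le_mul_card_image
    intro α _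
    have h5 : H.filter (fun h => π h = α) ⊆ Fintype.piFinset (fun i => Ico (Q * α i) (Q * α i + Q)) := by
      intro h hh
      rw [mem_filter] at hh
      rw [Fintype.mem_piFinset]
      intro i
      have e0 := congrFun hh.2 i
      simp only [hπ] at e0
      rw [mem_Ico, ← e0]
      have e1 := Int.emod_add_mul_ediv (h i) (Q : ℤ)
      have e2 := Int.emod_nonneg (h i) hQ0.ne'
      have e3 := Int.emod_lt_of_pos (h i) hQ0
      omega
    refine (card_le_card h5).trans ?_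
    rw [Fintype.card_piFinset]
    have e : ∀ i : Fin (d + 1), (Ico (Q * α i) (Q * α i + Q)).card = Q := by
      intro i
      rw [Int.card_Ico]
      omega
    simp only [e]
    rw [prod_const, card_univ, Fintype.card_fin]
  have h5 : (H.card : ℝ) ≤ (Q : ℝ) ^ (d + 1) * (H.image π).card := by exact_mod_cast h4
  linarith

end Pool.Agent.W36.GK
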