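import Pool.Agent.W36.GK.K5
import Pool.Agent.W36.GU.GU11

/-! Structure in all directions. -/

set_option autoImplicit false

namespace Pool.Agent.W36.GK

open Finset Pool.Agent.W36.GU Pool.Agent.W36.GV
open scoped Pointwise

section

open Classical in
/-- the graph on a line in the direction `k` -/
noncomputable def ln {p d : ℕ} (k : Fin (d + 1)) (φ : (Fin (d + 1) → ℤ) → ZMod p) (P : Finset (Fin (d + 1) → ℤ)) (z : Fin d → ℤ) :
    Finset (ℤ × ZMod p) :=
  (P.filter (fun h => k.removeNth h = z)).image (fun h => (h k, φ h))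

open Classical in
/-- structured in the direction `k` -/
def Str {p d : ℕ} [NeZero p] (k : Fin (d + 1)) (φ : (Fin (d + 1) → ℤ) → ZMod p) (P : Finset (Fin (d + 1) → ℤ)) (K1 : ℝ) : Prop :=
  ∀ z, (ln k φ P z).Nonempty → ∀ (m n : ℕ) (e : ℤ),
    ((univ.filter (fun w : ZMod p => (e, w) ∈ m • ln k φ P z - n • ln k φ P z)).card : ℝ) ≤ K1 ^ (m + n + 1)

theorem ln_mono {p d : ℕ} (k : Fin (d + 1)) (φ : (Fin (d + 1) → ℤ) → ZMod p) {P P' : Finset (Fin (d + 1) → ℤ)} (h : P' ⊆ P)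
    (z : Fin d → ℤ) : ln k φ P' z ⊆ ln k φ P z := by
  unfold ln
  exact image_subset_image (filter_subset_filter _ h)

theorem Str.mono {p d : ℕ} [NeZero p] {k : Fin (d + 1)} {φ : (Fin (d + 1) → ℤ) → ZMod p} {P P' : Finset (Fin (d + 1) → ℤ)}
    {K1 K1' : ℝ} (hS : Str k φ P K1) (h : P' ⊆ P) (h0 : 0 ≤ K1) (hK : K1 ≤ K1') : Str k φ P' K1' := by
  classical
  intro z hz m n e
  have h1 := ln_mono k φ h z
  have h2 := hS z (hz.mono h1) m n e
  refine le_trans ?_ (h2.trans (pow_le_pow_left₀ h0 hK _))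
  have h3 : (univ.filter (fun w : ZMod p => (e, w) ∈ m • ln k φ P' z - n • ln k φ P' z))
      ⊆ (univ.filter (fun w : ZMod p => (e, w) ∈ m • ln k φ P z - n • ln k φ P z)) := by
    intro w hw
    rw [mem_filter] at hw ⊢
    refine ⟨hw.1, ?_⟩
    exact sub_subset_sub (nsmul_subset_nsmul_left h1) (nsmul_subset_nsmul_left h1) hw.2
  exact_mod_cast card_le_card h3

end

theorem Dl_line {d : ℕ} (g : ℤ → ℝ) (Q : ℤ) (k : Fin (d + 1)) (h : Fin (d + 1) → ℤ) :
    Dl (d + 1) g (fun i => Q * h i) = De (Q * h k) (Dl d g (fun i => Q * (k.removeNth h : Fin d → ℤ) i)) := by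
  ext n
  rw [Dl_split d k]
  rfl

theorem dirstr (d : ℕ) {σ θ : ℝ} {C : ℕ} (hσ : 0 < σ) (hθ : 0 < θ) (hC : 1 ≤ C) : ∃ θ' : ℝ, 0 < θ' ∧ ∃ K1 : ℝ, 1 ≤ K1 ∧
    ∀ (p : ℕ) [NeZero p] (X Q : ℕ), 1 ≤ Q → Q ≤ X → p = C * X → ∀ g : ℤ → ℝ, B1 g → Sup g X →
    ∀ (P : Finset (Fin (d + 1) → ℤ)) (φ : (Fin (d + 1) → ℤ) → ZMod p) (k : Fin (d + 1)),
    (∀ α ∈ P, σ * X ≤ ‖ht p X (Dl (d + 1) g (fun i => Q * α i)) (φ α)‖) → θ * ((X : ℝ) / Q) ^ (d + 1) ≤ P.card →
    ∃ P' ⊆ P, θ' * ((X : ℝ) / Q) ^ (d + 1) ≤ P'.card ∧ Str k φ P' K1 := by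
  classical
  obtain ⟨θ1, hθ1⟩ : ∃ θ1 : ℝ, θ1 = θ / (2 * 3 ^ d) := ⟨_, rfl⟩
  have hθ10 : 0 < θ1 := by rw [hθ1]; positivity
  have hC0 : (1 : ℝ) ≤ C := by exact_mod_cast hC
  obtain ⟨K, hK⟩ : ∃ K : ℝ, K = 5 * C / (σ ^ 8 * θ1) := ⟨_, rfl⟩
  have hK0 : 0 < K := by rw [hK]; positivity
  refine ⟨θ / (16 * K), by positivity, 2 ^ 22 * K ^ 10 + 1, by linarith [show (0 : ℝ) ≤ 2 ^ 22 * K ^ 10 by positivity], ?_⟩
  intro p _ X Q hQ1 hQX hp g hg hs P φ k hP hPc
  have hX1 : 1 ≤ X := by omega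
  have hX0 : (0 : ℝ) < X := by exact_mod_cast hX1
  have hQ0 : (0 : ℝ) < Q := by exact_mod_cast hQ1
  have hQi : (0 : ℤ) < Q := by exact_mod_cast hQ1
  have hXp : X ≤ p := by rw [hp]; exact Nat.le_mul_of_pos_left _ hC
  obtain ⟨Y, hY⟩ : ∃ Y : ℝ, Y = (X : ℝ) / Q := ⟨_, rfl⟩
  rw [← hY] at hPc ⊢
  have hY1 : 1 ≤ Y := by rw [hY, le_div_iff₀ hQ0, one_mul]; exact_mod_cast hQX
  have hYX : ((X / Q : ℕ) : ℝ) ≤ Y := by rw [hY]; exact Nat.cast_div_le
  have hXQ1 : 1 ≤ X / Q := (Nat.le_div_iff_mul_le (by omega)).2 (by omega)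
  have key : ∀ z : Fin d → ℤ, ∃ B ⊆ P.filter (fun h => k.removeNth h = z),
      ((P.filter (fun h => k.removeNth h = z)).card : ℝ) ≤ 8 * K * B.card + θ1 * Y ∧
      ((B.image (fun h => (h k, φ h))).Nonempty → ∀ (m n : ℕ) (e : ℤ), ((univ.filter (fun w : ZMod p =>
        (e, w) ∈ m • (B.image (fun h => (h k, φ h))) - n • (B.image (fun h => (h k, φ h))))).card : ℝ) ≤ (2 ^ 22 * K ^ 10) ^ (m + n + 1)) := by
    intro z
    set Pz := P.filter (fun h => k.removeNth h = z) with hPz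
    by_cases hd : (Pz.card : ℝ) ≤ θ1 * Y
    · refine ⟨∅, empty_subset _, ?_, ?_⟩
      · simpa using hd
      · intro h; simp at h
    · push Not at hd
      set G := Dl d g (fun i => Q * z i) with hG
      have hGB : B1 G := Dl_B1 d hg _
      have hGs : Sup G X := Dl_sup d hs _
      set I := Pz.image (fun h => h k) with hI
      set φz : ℤ → ZMod p := fun a => φ (k.insertNth a z) with hφz
      have hins : ∀ h ∈ Pz, k.insertNth (h k) z = h := by
        intro h hh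
        rw [hPz, mem_filter] at hh
        rw [← hh.2]
        exact Fin.insertNth_self_removeNth k h
      have hinj : Set.InjOn (fun h : Fin (d + 1) → ℤ => h k) Pz := by
        intro h hh h' hh' heq
        simp only at heq
        rw [← hins h hh, ← hins h' hh', heq]
      have hIc : I.card = Pz.card := card_image_of_injOn hinj
      have hA : ∀ a ∈ I, σ * X ≤ ‖A p G X (Q * a) (φz a)‖ := by
        intro a ha
        rw [hI, mem_image] at ha
        obtain ⟨h, hh, rfl⟩ := ha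
        have h1 := hP h (mem_filter.1 hh).1
        rw [Dl_line g Q k h, (mem_filter.1 hh).2] at h1
        rw [A_ht]
        simp only [hφz]
        rw [hins h hh]
        exact h1
      have hIX : ∀ a ∈ I, |(Q : ℤ) * a| ≤ X := fun a ha => (A_pos hGs hσ hX1 (hA a ha)).le
      have hen := energy hGB hX1 hGs hXp hQ1 hQX I hIX φz hσ hA
      have hΓ : I.image (fun a => (a, φz a)) = Pz.image (fun h => (h k, φ h)) := by
        rw [hI, image_image]
        apply image_congr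
        intro h hh
        simp only [Function.comp, hφz]
        rw [hins h hh]
      rw [hΓ] at hen
      set Γ := Pz.image (fun h => (h k, φ h)) with hΓd
      have hinj2 : Set.InjOn (fun h : Fin (d + 1) → ℤ => (h k, φ h)) Pz := by
        intro h hh h' hh' heq
        simp only [Prod.mk.injEq] at heq
        exact hinj hh hh' heq.1
      have hΓc : Γ.card = Pz.card := card_image_of_injOn hinj2
      have hPzpos : (0 : ℝ) < Pz.card := lt_trans (by positivity) hd
      have hΓne : Γ.Nonempty := by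
        rw [← card_pos, hΓc]
        exact_mod_cast hPzpos
      have hgr : ∀ b ∈ Γ, ∀ b' ∈ Γ, b.1 = b'.1 → b = b' := by
        intro b hb b' hb' heq
        rw [hΓd, mem_image] at hb hb'
        obtain ⟨h, hh, rfl⟩ := hb
        obtain ⟨h', hh', rfl⟩ := hb'
        have := hinj hh hh' heq
        rw [this]
      have hE : (Γ.card : ℝ) ^ 3 ≤ K * (Γ.addEnergy Γ : ℕ) := by
        rw [hΓc]
        rw [hIc] at hen
        have hpX : (p : ℝ) = C * X := by rw [hp]; push_cast; ring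
        set E : ℝ := ((Γ.addEnergy Γ : ℕ) : ℝ) with hEd
        rw [← hY, hpX] at hen
        have h1 : X * (σ ^ 8 * (Pz.card : ℝ) ^ 4) ≤ X * (5 * Y * C * E) := by
          calc X * (σ ^ 8 * (Pz.card : ℝ) ^ 4) = σ ^ 8 * X * (Pz.card : ℝ) ^ 4 := by ring
            _ ≤ _ := hen
            _ = _ := by ring
        have h2 := le_of_mul_le_mul_left h1 hX0
        have h3 : σ ^ 8 * (Pz.card : ℝ) ^ 3 * (θ1 * Y) ≤ σ ^ 8 * (Pz.card : ℝ) ^ 3 * Pz.card :=
          mul_le_mul_of_nonneg_left hd.le (by positivity)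
        have h4 : Y * (σ ^ 8 * θ1 * (Pz.card : ℝ) ^ 3) ≤ Y * (5 * C * E) := by
          calc Y * (σ ^ 8 * θ1 * (Pz.card : ℝ) ^ 3) = σ ^ 8 * (Pz.card : ℝ) ^ 3 * (θ1 * Y) := by ring
            _ ≤ _ := h3
            _ = σ ^ 8 * (Pz.card : ℝ) ^ 4 := by ring
            _ ≤ _ := h2
            _ = _ := by ring
        have h5 := le_of_mul_le_mul_left h4 (by linarith)
        rw [hK, div_mul_eq_mul_div, le_div_iff₀ (by positivity)]
        linarith
      obtain ⟨BΓ, hBΓ, hBne, hBc, hBf⟩ := structured hΓne hgr hK0 hE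
      refine ⟨Pz.filter (fun h => (h k, φ h) ∈ BΓ), filter_subset _ _, ?_, ?_⟩
      · have h1 : (Pz.filter (fun h => (h k, φ h) ∈ BΓ)).image (fun h => (h k, φ h)) = BΓ := by
          ext b
          rw [mem_image]
          constructor
          · rintro ⟨h, hh, rfl⟩
            exact (mem_filter.1 hh).2
          · intro hb
            have := hBΓ hb
            rw [hΓd, mem_image] at this
            obtain ⟨h, hh, rfl⟩ := this
            exact ⟨h, mem_filter.2 ⟨hh, hb⟩, rfl⟩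
        have h2 : BΓ.card = (Pz.filter (fun h => (h k, φ h) ∈ BΓ)).card := by
          conv_lhs => rw [← h1]
          exact card_image_of_injOn (hinj2.mono (by intro x hx; exact (mem_filter.1 hx).1))
        rw [← hΓc, ← h2]
        have : 0 ≤ θ1 * Y := by positivity
        linarith
      · intro _ m n e
        have h1 : (Pz.filter (fun h => (h k, φ h) ∈ BΓ)).image (fun h => (h k, φ h)) = BΓ := by
          ext b
          rw [mem_image]
          constructor
          · rintro ⟨h, hh, rfl⟩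
            exact (mem_filter.1 hh).2
          · intro hb
            have := hBΓ hb
            rw [hΓd, mem_image] at this
            obtain ⟨h, hh, rfl⟩ := this
            exact ⟨h, mem_filter.2 ⟨hh, hb⟩, rfl⟩
        rw [h1]
        convert hBf m n e
  choose B hBs hBc hBf using key
  set Z := bx d (X / Q) with hZ
  have hPZ : ∀ α ∈ P, (k.removeNth α : Fin d → ℤ) ∈ Z := by
    intro α hα
    rw [hZ, mem_bx]
    intro i
    have h1 := ht_pos hs hσ hX1 (hP α hα) (k.succAbove i)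
    rw [abs_mul, abs_of_pos hQi] at h1
    rw [Fin.removeNth_apply]
    push_cast
    rw [Int.le_ediv_iff_mul_le hQi, mul_comm]
    exact h1.le
  refine ⟨Z.biUnion B, ?_, ?_, ?_⟩
  · intro h hh
    rw [mem_biUnion] at hh
    obtain ⟨z, _, hz⟩ := hh
    exact (mem_filter.1 (hBs z hz)).1
  · have h1 : (P.card : ℝ) = ∑ z ∈ Z, ((P.filter (fun h => k.removeNth h = z)).card : ℝ) := by
      have := card_eq_sum_card_fiberwise hPZ
      exact_mod_cast this
    have h2 : ((Z.biUnion B).card : ℝ) = ∑ z ∈ Z, ((B z).card : ℝ) := by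
      rw [card_biUnion]
      · push_cast; rfl
      · intro z _ z' _ hne
        rw [Function.onFun, disjoint_left]
        intro h hh hh'
        exact hne ((mem_filter.1 (hBs z hh)).2.symm.trans (mem_filter.1 (hBs z' hh')).2)
    have h3 : (P.card : ℝ) ≤ 8 * K * (Z.biUnion B).card + (Z.card : ℝ) * (θ1 * Y) := by
      rw [h1, h2]
      refine (sum_le_sum fun z _ => hBc z).trans (le_of_eq ?_)
      rw [sum_add_distrib, ← mul_sum, sum_const, nsmul_eq_mul]
    have h4 : (Z.card : ℝ) * (θ1 * Y) ≤ θ / 2 * Y ^ (d + 1) := by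
      have h5 : (Z.card : ℝ) ≤ 3 ^ d * Y ^ d := by
        refine (card_bx_le hXQ1 d).trans ?_
        apply mul_le_mul_of_nonneg_left _ (by positivity)
        exact pow_le_pow_left₀ (Nat.cast_nonneg _) hYX _
      calc (Z.card : ℝ) * (θ1 * Y) ≤ (3 ^ d * Y ^ d) * (θ1 * Y) := mul_le_mul_of_nonneg_right h5 (by positivity)
        _ = _ := by rw [hθ1]; field_simp; ring
    have h5 : θ / 2 * Y ^ (d + 1) ≤ 8 * K * (Z.biUnion B).card := by linarith
    rw [div_mul_eq_mul_div, div_le_iff₀ (by positivity)]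
    linarith
  · intro z hz m n e
    have h1 : ln k φ (Z.biUnion B) z = (B z).image (fun h => (h k, φ h)) := by
      unfold ln
      have hzZ : z ∈ Z := by
        obtain ⟨b, hb⟩ := hz
        unfold ln at hb
        rw [mem_image] at hb
        obtain ⟨h, hh, -⟩ := hb
        rw [mem_filter, mem_biUnion] at hh
        obtain ⟨⟨z', hz', hb'⟩, hh2⟩ := hh
        have : z' = z := by rw [← hh2]; exact (mem_filter.1 (hBs z' hb')).2.symm
        rw [← this]; exact hz'
      have h2 : (Z.biUnion B).filter (fun h => k.removeNth h = z) = B z := by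
        ext h
        rw [mem_filter, mem_biUnion]
        constructor
        · rintro ⟨⟨z', _, hb'⟩, hh2⟩
          have : z' = z := by rw [← hh2]; exact (mem_filter.1 (hBs z' hb')).2.symm
          rw [← this]; exact hb'
        · intro hb
          exact ⟨⟨z, hzZ, hb⟩, (mem_filter.1 (hBs z hb)).2⟩
      rw [h2]
    rw [h1] at hz ⊢
    refine (hBf z hz m n e).trans ?_
    apply pow_le_pow_left₀ (by positivity)
    linarith

theorem allstr (d : ℕ) {σ : ℝ} {C : ℕ} (hσ : 0 < σ) (hC : 1 ≤ C) (j : ℕ) : ∀ θ : ℝ, 0 < θ → ∃ θ' : ℝ, 0 < θ' ∧ ∃ K1 : ℝ, 1 ≤ K1 ∧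
    ∀ (p : ℕ) [NeZero p] (X Q : ℕ), 1 ≤ Q → Q ≤ X → p = C * X → ∀ g : ℤ → ℝ, B1 g → Sup g X →
    ∀ (P : Finset (Fin (d + 1) → ℤ)) (φ : (Fin (d + 1) → ℤ) → ZMod p),
    (∀ α ∈ P, σ * X ≤ ‖ht p X (Dl (d + 1) g (fun i => Q * α i)) (φ α)‖) → θ * ((X : ℝ) / Q) ^ (d + 1) ≤ P.card →
    ∃ P' ⊆ P, θ' * ((X : ℝ) / Q) ^ (d + 1) ≤ P'.card ∧ ∀ k : Fin (d + 1), (k : ℕ) < j → Str k φ P' K1 := by
  induction j with
  | zero =>
    intro θ hθ
    refine ⟨θ, hθ, 1, le_rfl, ?_⟩
    intro p _ X Q hQ1 hQX hp g hg hs P φ hP hPc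
    exact ⟨P, subset_rfl, hPc, fun k hk => absurd hk (Nat.not_lt_zero _)⟩
  | succ j ih =>
    intro θ hθ
    obtain ⟨θ1, hθ1, K1, hK1, h1⟩ := ih θ hθ
    obtain ⟨θ2, hθ2, K2, hK2, h2⟩ := dirstr d hσ hθ1 hC
    by_cases hj : j < d + 1
    · refine ⟨θ2, hθ2, max K1 K2, le_max_of_le_left hK1, ?_⟩
      intro p _ X Q hQ1 hQX hp g hg hs P φ hP hPc
      obtain ⟨P1, hP1, hP1c, hP1s⟩ := h1 p X Q hQ1 hQX hp g hg hs P φ hP hPc
      obtain ⟨P2, hP2, hP2c, hP2s⟩ := h2 p X Q hQ1 hQX hp g hg hs P1 φ ⟨j, hj⟩ (fun α hα => hP α (hP1 hα)) hP1c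
      refine ⟨P2, hP2.trans hP1, hP2c, fun k hk => ?_⟩
      rcases Nat.lt_succ_iff_lt_or_eq.1 hk with h | h
      · exact (hP1s k h).mono hP2 (by linarith) (le_max_left _ _)
      · have : k = ⟨j, hj⟩ := Fin.ext h
        rw [this]
        exact hP2s.mono subset_rfl (by linarith) (le_max_right _ _)
    · refine ⟨θ1, hθ1, K1, hK1, ?_⟩
      intro p _ X Q hQ1 hQX hp g hg hs P φ hP hPc
      obtain ⟨P1, hP1, hP1c, hP1s⟩ := h1 p X Q hQ1 hQX hp g hg hs P φ hP hPc
      exact ⟨P1, hP1, hP1c, fun k hk => hP1s k (by omega)⟩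

end Pool.Agent.W36.GK
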