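import Pool.Agent.W36.GK.K1

/-! Dense subsets of a grid: two points on a diagonal that can be joined by axis-parallel steps. -/

set_option autoImplicit false

namespace Pool.Agent.W36.GK

open Finset

/-- the grid -/
def gr (D L : ℕ) : Finset (Fin D → ℕ) := Fintype.piFinset (fun _ => range L)

theorem mem_gr {D L : ℕ} {e : Fin D → ℕ} : e ∈ gr D L ↔ ∀ k, e k < L := by
  unfold gr
  simp only [Fintype.mem_piFinset, mem_range]

theorem card_gr (D L : ℕ) : (gr D L).card = L ^ D := by
  unfold gr
  rw [Fintype.card_piFinset, prod_const, card_univ, Fintype.card_fin, card_range]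

/-- one step inside a set -/
def Ad {D : ℕ} (E : Finset (Fin D → ℕ)) (a b : Fin D → ℕ) : Prop := a ∈ E ∧ b ∈ E ∧ ∃ k i, b = Function.update a k i

/-- a path inside a set -/
def Rc {D : ℕ} (E : Finset (Fin D → ℕ)) : (Fin D → ℕ) → (Fin D → ℕ) → Prop := Relation.ReflTransGen (Ad E)

theorem Ad.symm {D : ℕ} {E : Finset (Fin D → ℕ)} {a b : Fin D → ℕ} (h : Ad E a b) : Ad E b a := by
  obtain ⟨ha, hb, k, i, rfl⟩ := h
  refine ⟨hb, ha, k, a k, ?_⟩
  rw [Function.update_idem, Function.update_eq_self]

theorem Rc.symm {D : ℕ} {E : Finset (Fin D → ℕ)} {a b : Fin D → ℕ} (h : Rc E a b) : Rc E b a := by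
  unfold Rc at h ⊢
  induction h with
  | refl => exact Relation.ReflTransGen.refl
  | tail _ h2 ih => exact Relation.ReflTransGen.head h2.symm ih

theorem count_update {D L : ℕ} (j : Fin D) {B : Finset (Fin D → ℕ)} (hB : B ⊆ gr D L) :
    ∑ e ∈ gr D L, ((range L).filter (fun i => Function.update e j i ∈ B)).card = L * B.card := by
  have h1 : ∑ e ∈ gr D L, ((range L).filter (fun i => Function.update e j i ∈ B)).card
      = ((gr D L ×ˢ range L).filter (fun q => Function.update q.1 j q.2 ∈ B)).card := by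
    rw [card_filter, sum_product]
    apply sum_congr rfl
    intro e _
    rw [card_filter]
  rw [h1, mul_comm, ← card_range L, ← card_product, card_range]
  apply card_nbij' (fun q => (Function.update q.1 j q.2, q.1 j)) (fun q => (Function.update q.1 j q.2, q.1 j))
  · rintro ⟨e, i⟩ hq
    simp only [coe_filter, mem_product, mem_range, Set.mem_ofPred_eq, coe_product, Set.mem_prod, mem_coe] at hq ⊢
    exact ⟨hq.2, mem_gr.1 hq.1.1 j⟩
  · rintro ⟨b, i⟩ hq
    simp only [coe_filter, mem_product, mem_range, Set.mem_ofPred_eq, coe_product, Set.mem_prod, mem_coe] at hq ⊢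
    refine ⟨⟨?_, mem_gr.1 (hB hq.1) j⟩, ?_⟩
    · rw [mem_gr]
      intro k
      by_cases hk : k = j
      · rw [hk, Function.update_self]; exact hq.2
      · rw [Function.update_of_ne hk]; exact mem_gr.1 (hB hq.1) k
    · rw [Function.update_idem, Function.update_eq_self]; exact hq.1
  · rintro ⟨e, i⟩ _
    simp
  · rintro ⟨b, i⟩ _
    simp

open Classical in
theorem levels (D : ℕ) (j : ℕ) : j ≤ D → ∀ δ : ℝ, 0 < δ → ∃ δ' : ℝ, 0 < δ' ∧ ∃ c : ℝ, 0 < c ∧ ∀ L : ℕ, 1 ≤ L → ∀ E ⊆ gr D L,
    δ * (L : ℝ) ^ D ≤ E.card → ∃ E' ⊆ E, δ' * (L : ℝ) ^ D ≤ E'.card ∧ ∀ e ∈ E',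
      c * (L : ℝ) ^ j ≤ ((gr D L).filter (fun y => Rc E e y ∧ ∀ k : Fin D, j ≤ (k : ℕ) → y k = e k)).card := by
  induction j with
  | zero =>
    intro _ δ hδ
    refine ⟨δ, hδ, 1, one_pos, fun L hL E hE hEc => ⟨E, subset_rfl, hEc, fun e he => ?_⟩⟩
    rw [pow_zero, mul_one]
    have : 1 ≤ ((gr D L).filter (fun y => Rc E e y ∧ ∀ k : Fin D, 0 ≤ (k : ℕ) → y k = e k)).card := by
      rw [Nat.one_le_iff_ne_zero, ← Nat.pos_iff_ne_zero, card_pos]
      exact ⟨e, mem_filter.2 ⟨hE he, Relation.ReflTransGen.refl, fun _ _ => rfl⟩⟩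
    exact_mod_cast this
  | succ j ih =>
    intro hj δ hδ
    obtain ⟨δ', hδ', c, hc, h⟩ := ih (by omega) δ hδ
    refine ⟨δ' / 2, by positivity, c * (δ' / 2), by positivity, fun L hL E hE hEc => ?_⟩
    have hL0 : (0 : ℝ) < L := by exact_mod_cast hL
    obtain ⟨E', hE', hE'c, hr⟩ := h L hL E hE hEc
    have hE'g : E' ⊆ gr D L := hE'.trans hE
    set jj : Fin D := ⟨j, by omega⟩ with hjj
    set E'' := E'.filter (fun e => δ' / 2 * L ≤ (((range L).filter (fun i => Function.update e jj i ∈ E')).card : ℝ)) with hE''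
    refine ⟨E'', (filter_subset _ _).trans hE', ?_, ?_⟩
    · set B := E'.filter (fun e => ¬ δ' / 2 * L ≤ (((range L).filter (fun i => Function.update e jj i ∈ E')).card : ℝ)) with hB
      have h1 : (E'.card : ℝ) = E''.card + B.card := by
        have := card_filter_add_card_filter_not (s := E') (fun e => δ' / 2 * L ≤ (((range L).filter (fun i => Function.update e jj i ∈ E')).card : ℝ))
        rw [← hE'', ← hB] at this
        exact_mod_cast this.symm
      have h2 : (L : ℝ) * B.card ≤ (L : ℝ) ^ D * (δ' / 2 * L) := by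
        have h3 := count_update jj ((filter_subset _ _).trans hE'g : B ⊆ gr D L)
        have h4 : (L : ℝ) * B.card = ∑ e ∈ gr D L, (((range L).filter (fun i => Function.update e jj i ∈ B)).card : ℝ) := by
          exact_mod_cast h3.symm
        rw [h4]
        have h5 : ∀ e ∈ gr D L, (((range L).filter (fun i => Function.update e jj i ∈ B)).card : ℝ) ≤ δ' / 2 * L := by
          intro e _
          rcases Finset.eq_empty_or_nonempty ((range L).filter (fun i => Function.update e jj i ∈ B)) with h6 | ⟨i, hi⟩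
          · rw [h6]; simp; positivity
          · rw [mem_filter] at hi
            have h7 := hi.2
            rw [hB, mem_filter] at h7
            have h8 := h7.2
            push Not at h8
            refine le_trans ?_ h8.le
            have h9 : (range L).filter (fun i => Function.update e jj i ∈ B) ⊆
                (range L).filter (fun i' => Function.update (Function.update e jj i) jj i' ∈ E') := by
              intro i' hi'
              rw [mem_filter] at hi' ⊢
              refine ⟨hi'.1, ?_⟩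
              rw [Function.update_idem]
              exact (mem_filter.1 hi'.2).1
            exact_mod_cast card_le_card h9
        refine (sum_le_card_nsmul _ _ _ h5).trans (le_of_eq ?_)
        rw [nsmul_eq_mul, card_gr]
        push_cast
        ring
      have h3 : (B.card : ℝ) ≤ δ' / 2 * (L : ℝ) ^ D := by
        have h4 : (L : ℝ) * B.card ≤ L * (δ' / 2 * (L : ℝ) ^ D) := by linarith
        exact le_of_mul_le_mul_left h4 hL0
      linarith
    · intro e he
      rw [hE'', mem_filter] at he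
      set I := (range L).filter (fun i => Function.update e jj i ∈ E') with hI
      set R : ℕ → Finset (Fin D → ℕ) := fun i => (gr D L).filter (fun y => Rc E (Function.update e jj i) y ∧
        ∀ k : Fin D, j ≤ (k : ℕ) → y k = Function.update e jj i k) with hR
      have h1 : I.biUnion R ⊆ (gr D L).filter (fun y => Rc E e y ∧ ∀ k : Fin D, j + 1 ≤ (k : ℕ) → y k = e k) := by
        intro y hy
        rw [mem_biUnion] at hy
        obtain ⟨i, hi, hy⟩ := hy
        rw [hR, mem_filter] at hy
        rw [mem_filter]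
        refine ⟨hy.1, ?_, ?_⟩
        · exact Relation.ReflTransGen.head ⟨hE' he.1, hE' (mem_filter.1 hi).2, jj, i, rfl⟩ hy.2.1
        · intro k hk
          rw [hy.2.2 k (by omega), Function.update_of_ne]
          intro h2
          rw [h2] at hk
          simp [hjj] at hk
      have h2 : (I.biUnion R).card = ∑ i ∈ I, (R i).card := by
        rw [card_biUnion]
        intro i _ i' _ hne
        rw [Function.onFun, disjoint_left]
        intro y hy hy'
        rw [hR, mem_filter] at hy hy'
        have e1 := hy.2.2 jj le_rfl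
        have e2 := hy'.2.2 jj le_rfl
        rw [Function.update_self] at e1 e2
        exact hne (e1.symm.trans e2)
      have h3 : (I.card : ℝ) * (c * (L : ℝ) ^ j) ≤ ∑ i ∈ I, ((R i).card : ℝ) := by
        rw [← nsmul_eq_mul]
        apply card_nsmul_le_sum
        intro i hi
        exact hr _ (mem_filter.1 hi).2
      have h4 : (((I.biUnion R).card : ℕ) : ℝ) ≤ ((gr D L).filter (fun y => Rc E e y ∧ ∀ k : Fin D, j + 1 ≤ (k : ℕ) → y k = e k)).card := by
        exact_mod_cast card_le_card h1
      rw [h2] at h4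
      push_cast at h4
      calc c * (δ' / 2) * (L : ℝ) ^ (j + 1) = (δ' / 2 * L) * (c * (L : ℝ) ^ j) := by ring
        _ ≤ (I.card : ℝ) * (c * (L : ℝ) ^ j) := mul_le_mul_of_nonneg_right he.2 (by positivity)
        _ ≤ _ := h3
        _ ≤ _ := h4

/-- the diagonal of a point -/
def dg {d : ℕ} (e : Fin (d + 1) → ℕ) : Fin d → ℤ := fun k => (e k.succ : ℤ) - e 0

theorem dg_inj {d : ℕ} {e e' : Fin (d + 1) → ℕ} (h : dg e = dg e') (h0 : e 0 = e' 0) : e = e' := by
  ext k
  refine Fin.cases h0 (fun k => ?_) k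
  have := congrFun h k
  unfold dg at this
  omega

theorem dg_add {d : ℕ} {e e' : Fin (d + 1) → ℕ} (h : dg e = dg e') (h0 : e 0 ≤ e' 0) (k : Fin (d + 1)) : e' k = e k + (e' 0 - e 0) := by
  refine Fin.cases ?_ (fun k => ?_) k
  · omega
  · have := congrFun h k
    unfold dg at this
    omega

open Classical in
/-- Two points of a dense set on the same diagonal, of the same colour, and joined by a path. -/
theorem grid (d : ℕ) {δ : ℝ} (hδ : 0 < δ) (M : ℕ) : ∃ L : ℕ, 1 ≤ L ∧ ∀ E ⊆ gr (d + 1) L, δ * (L : ℝ) ^ (d + 1) ≤ E.card →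
    ∀ (τ : Type) (χ : (Fin (d + 1) → ℕ) → τ), (∀ c, ((E.filter (fun e => dg e = c)).image χ).card ≤ M) →
    ∃ e ∈ E, ∃ e' ∈ E, dg e = dg e' ∧ e 0 < e' 0 ∧ χ e = χ e' ∧ Rc E e e' := by
  obtain ⟨δ', hδ', c, hc, H⟩ := levels (d + 1) (d + 1) le_rfl δ hδ
  obtain ⟨L0, hL0⟩ := exists_nat_ge (3 ^ d * M / (c * δ'))
  refine ⟨L0 + 1, by omega, fun E hE hEc τ χ hχ => ?_⟩
  set L := L0 + 1 with hL
  have hL1 : 1 ≤ L := by omega
  have hLp : (0 : ℝ) < L := by exact_mod_cast hL1
  obtain ⟨E', hE', hE'c, hr⟩ := H L hL1 E hE hEc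
  by_contra hcon
  push Not at hcon
  -- the reach sets
  set R : (Fin (d + 1) → ℕ) → Finset (Fin (d + 1) → ℕ) := fun e => (gr (d + 1) L).filter (fun y => Rc E e y) with hR
  have hRc : ∀ e ∈ E', c * (L : ℝ) ^ (d + 1) ≤ (R e).card := by
    intro e he
    refine (hr e he).trans ?_
    have : (gr (d + 1) L).filter (fun y => Rc E e y ∧ ∀ k : Fin (d + 1), d + 1 ≤ (k : ℕ) → y k = e k) ⊆ R e := by
      intro y hy
      rw [mem_filter] at hy
      rw [hR, mem_filter]
      exact ⟨hy.1, hy.2.1⟩
    exact_mod_cast card_le_card this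
  have hcls : ∀ (c0 : Fin d → ℤ) (t : τ), ((E'.filter (fun e => dg e = c0 ∧ χ e = t)).card : ℝ) * c ≤ 1 := by
    intro c0 t
    set Tt := E'.filter (fun e => dg e = c0 ∧ χ e = t) with hT
    have h1 : (Tt.biUnion R).card = ∑ e ∈ Tt, (R e).card := by
      rw [card_biUnion]
      intro e he e' he' hne
      rw [mem_coe, hT, mem_filter] at he he'
      rw [Function.onFun, disjoint_left]
      intro y hy hy'
      rw [hR, mem_filter] at hy hy'
      have h2 : Rc E e e' := Relation.ReflTransGen.trans hy.2 hy'.2.symm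
      have h3 : e 0 ≠ e' 0 := fun h => hne (dg_inj (he.2.1.trans he'.2.1.symm) h)
      rcases lt_or_gt_of_ne h3 with h4 | h4
      · exact hcon e (hE' he.1) e' (hE' he'.1) (he.2.1.trans he'.2.1.symm) h4 (he.2.2.trans he'.2.2.symm) h2
      · exact hcon e' (hE' he'.1) e (hE' he.1) (he'.2.1.trans he.2.1.symm) h4 (he'.2.2.trans he.2.2.symm) h2.symm
    have h2 : ((Tt.biUnion R).card : ℝ) ≤ (L : ℝ) ^ (d + 1) := by
      have : (Tt.biUnion R).card ≤ (gr (d + 1) L).card := by
        apply card_le_card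
        intro y hy
        rw [mem_biUnion] at hy
        obtain ⟨e, _, hy⟩ := hy
        exact (mem_filter.1 hy).1
      rw [card_gr] at this
      exact_mod_cast this
    rw [h1] at h2
    push_cast at h2
    have h3 : (Tt.card : ℝ) * (c * (L : ℝ) ^ (d + 1)) ≤ ∑ e ∈ Tt, ((R e).card : ℝ) := by
      rw [← nsmul_eq_mul]
      apply card_nsmul_le_sum
      intro e he
      exact hRc e (mem_filter.1 he).1
    have h4 : ((Tt.card : ℝ) * c) * (L : ℝ) ^ (d + 1) ≤ 1 * (L : ℝ) ^ (d + 1) := by linarith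
    exact le_of_mul_le_mul_right h4 (by positivity)
  have hdiag : ∀ c0 : Fin d → ℤ, ((E'.filter (fun e => dg e = c0)).card : ℝ) * c ≤ M := by
    intro c0
    set Tt := E'.filter (fun e => dg e = c0) with hT
    have h1 : (Tt.card : ℝ) = ∑ t ∈ Tt.image χ, ((Tt.filter (fun e => χ e = t)).card : ℝ) := by
      exact_mod_cast card_eq_sum_card_image χ Tt
    rw [h1, sum_mul]
    have h2 : ∀ t ∈ Tt.image χ, ((Tt.filter (fun e => χ e = t)).card : ℝ) * c ≤ 1 := by
      intro t _
      have := hcls c0 t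
      rw [hT, filter_filter]
      exact this
    refine (sum_le_card_nsmul _ _ _ h2).trans ?_
    rw [nsmul_eq_mul, mul_one]
    have h3 : (Tt.image χ).card ≤ M := by
      refine le_trans (card_le_card ?_) (hχ c0)
      exact image_subset_image (filter_subset_filter _ hE')
    exact_mod_cast h3
  have hmaps : ∀ e ∈ E', dg e ∈ bx d L := by
    intro e he
    have h1 := mem_gr.1 (hE (hE' he))
    rw [mem_bx]
    intro k
    unfold dg
    have h2 := h1 k.succ
    have h3 := h1 0
    rw [abs_le]
    constructor <;> omega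
  have h1 : (E'.card : ℝ) = ∑ c0 ∈ bx d L, ((E'.filter (fun e => dg e = c0)).card : ℝ) := by
    exact_mod_cast card_eq_sum_card_fiberwise hmaps
  have h2 : (E'.card : ℝ) * c ≤ (3 ^ d * (L : ℝ) ^ d) * M := by
    rw [h1, sum_mul]
    refine (sum_le_card_nsmul _ _ _ (fun c0 _ => hdiag c0)).trans ?_
    rw [nsmul_eq_mul]
    exact mul_le_mul_of_nonneg_right (card_bx_le hL1 d) (Nat.cast_nonneg _)
  have h3 : (L : ℝ) ^ d * (δ' * c * L) ≤ (L : ℝ) ^ d * (3 ^ d * M) := by
    calc (L : ℝ) ^ d * (δ' * c * L) = (δ' * (L : ℝ) ^ (d + 1)) * c := by ring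
      _ ≤ (E'.card : ℝ) * c := mul_le_mul_of_nonneg_right hE'c hc.le
      _ ≤ _ := h2
      _ = _ := by ring
  have h4 := le_of_mul_le_mul_left h3 (by positivity)
  rw [div_le_iff₀ (by positivity)] at hL0
  have h5 : (L : ℝ) = L0 + 1 := by rw [hL]; push_cast; rfl
  rw [h5] at h4
  have : 0 < c * δ' := by positivity
  linarith

end Pool.Agent.W36.GK
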