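import Pool.Agent.W36.GK.K2
import Pool.Agent.W36.GK.K6
import Pool.Agent.W36.GK.K7

/-! Frequencies along a path. -/

set_option autoImplicit false

namespace Pool.Agent.W36.GK

open Finset Pool.Agent.W36.GU Pool.Agent.W36.GV
open scoped Pointwise

/-- the cardinality does not depend on the instances -/
theorem cif {α β : Type*} {s : Finset α} {q : α → Prop} {f : α → β} {i1 i2 : DecidablePred q} {j1 j2 : DecidableEq β} :
    (@Finset.image _ _ j1 f (@Finset.filter _ q i1 s)).card = (@Finset.image _ _ j2 f (@Finset.filter _ q i2 s)).card := by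
  have h1 : i1 = i2 := Subsingleton.elim _ _
  have h2 : j1 = j2 := Subsingleton.elim _ _
  rw [h1, h2]

theorem cfd {α : Type*} {s : Finset α} {q : α → Prop} {i1 i2 : DecidablePred q} :
    ((@Finset.filter _ q i1 s).card : ℝ) = ((@Finset.filter _ q i2 s).card : ℝ) := by
  have h1 : i1 = i2 := Subsingleton.elim _ _
  rw [h1]

/-- on `S` a sum of functions each of which is independent of one coordinate -/
def Sp {D : ℕ} (S : Finset (Fin D → ℤ)) (F : (Fin D → ℤ) → ℝ) : Prop :=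
  ∃ W : Fin D → (Fin D → ℤ) → ℝ, (∀ k, Ind k (W k)) ∧ ∀ γ ∈ S, F γ = ∑ k, W k γ

theorem Sp.zero {D : ℕ} (S : Finset (Fin D → ℤ)) : Sp S (fun _ => 0) :=
  ⟨fun _ _ => 0, fun _ _ _ => rfl, fun γ _ => by simp⟩

theorem Sp.mono {D : ℕ} {S S' : Finset (Fin D → ℤ)} {F : (Fin D → ℤ) → ℝ} (h : Sp S F) (hS : S' ⊆ S) : Sp S' F := by
  obtain ⟨W, h1, h2⟩ := h
  exact ⟨W, h1, fun γ hγ => h2 γ (hS hγ)⟩

theorem Sp.add {D : ℕ} {S : Finset (Fin D → ℤ)} {F G : (Fin D → ℤ) → ℝ} (hF : Sp S F) (hG : Sp S G) : Sp S (fun γ => F γ + G γ) := by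
  obtain ⟨W, h1, h2⟩ := hF
  obtain ⟨W', h1', h2'⟩ := hG
  refine ⟨fun k γ => W k γ + W' k γ, fun k γ a => ?_, fun γ hγ => ?_⟩
  · simp only; rw [h1, h1']
  · show F γ + G γ = _
    rw [sum_add_distrib, h2 γ hγ, h2' γ hγ]

theorem Sp.smul {D : ℕ} {S : Finset (Fin D → ℤ)} {F : (Fin D → ℤ) → ℝ} (hF : Sp S F) (c : ℝ) : Sp S (fun γ => c * F γ) := by
  obtain ⟨W, h1, h2⟩ := hF
  refine ⟨fun k γ => c * W k γ, fun k γ a => ?_, fun γ hγ => ?_⟩
  · simp only; rw [h1]
  · show c * F γ = _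
    rw [← mul_sum, h2 γ hγ]

theorem Sp.congr {D : ℕ} {S : Finset (Fin D → ℤ)} {F G : (Fin D → ℤ) → ℝ} (hF : Sp S F) (h : ∀ γ ∈ S, G γ = F γ) : Sp S G := by
  obtain ⟨W, h1, h2⟩ := hF
  exact ⟨W, h1, fun γ hγ => by rw [h γ hγ, h2 γ hγ]⟩

theorem Sp.single {D : ℕ} (S : Finset (Fin D → ℤ)) {F : (Fin D → ℤ) → ℝ} (k : Fin D) (hF : Ind k F) : Sp S F := by
  refine ⟨fun l γ => if l = k then F γ else 0, fun l γ a => ?_, fun γ _ => ?_⟩
  · by_cases h : l = k
    · subst h; simp only [if_true]; exact hF γ a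
    · simp only [if_neg h]
  · simp

open Classical in
/-- selection of the most popular value on each fibre -/
theorem select {α Z W : Type*} [Nonempty W] (S : Finset α) (z : α → Z) (w : α → W) (K : ℕ)
    (hK : ∀ c, ((S.filter (fun a => z a = c)).image w).card ≤ K) :
    ∃ pop : Z → W, ∃ S' ⊆ S, S.card ≤ K * S'.card ∧ ∀ a ∈ S', w a = pop (z a) := by
  have h1 : ∀ c : Z, ∃ y : W, (S.filter (fun a => z a = c)).card ≤ K * ((S.filter (fun a => z a = c)).filter (fun a => w a = y)).card := by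
    intro c
    set Sc := S.filter (fun a => z a = c) with hSc
    rcases Sc.eq_empty_or_nonempty with h | h
    · refine ⟨Classical.arbitrary W, ?_⟩
      rw [h]; simp
    · obtain ⟨y, hy, hmax⟩ := exists_max_image (Sc.image w) (fun y => (Sc.filter (fun a => w a = y)).card) (h.image w)
      refine ⟨y, ?_⟩
      rw [card_eq_sum_card_image w Sc]
      refine (sum_le_card_nsmul _ _ _ hmax).trans ?_
      rw [smul_eq_mul]
      exact Nat.mul_le_mul_right _ (hK c)
  choose pop hpop using h1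
  refine ⟨pop, S.filter (fun a => w a = pop (z a)), filter_subset _ _, ?_, fun a ha => (mem_filter.1 ha).2⟩
  rw [card_eq_sum_card_image z S]
  have h2 : (S.filter (fun a => w a = pop (z a))).card = ∑ c ∈ S.image z, ((S.filter (fun a => z a = c)).filter (fun a => w a = pop c)).card := by
    rw [card_eq_sum_card_fiberwise (f := z) (t := S.image z) (fun a ha => mem_image_of_mem z (mem_filter.1 ha).1)]
    apply sum_congr rfl
    intro c _
    congr 1
    ext a
    simp only [mem_filter]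
    constructor
    · rintro ⟨⟨h1, h2⟩, h3⟩
      exact ⟨⟨h1, h3⟩, by rw [← h3]; exact h2⟩
    · rintro ⟨⟨h1, h3⟩, h2⟩
      exact ⟨⟨h1, by rw [h3]; exact h2⟩, h3⟩
  rw [h2, mul_sum]
  exact sum_le_sum fun c _ => hpop c

/-- the contracted point -/
def pt {D : ℕ} (u v : ℕ) (a : Fin D → ℕ) (γ : Fin D → ℤ) : Fin D → ℤ := fun k => ((v : ℤ) ^ a k * γ k) / (u : ℤ) ^ a k

/-- the weight -/
noncomputable def wt {D : ℕ} (u v : ℕ) (a : Fin D → ℕ) : ℝ := ∏ k, ((v : ℝ) / u) ^ a k

theorem wt_pos {D : ℕ} {u v : ℕ} (hu : 1 ≤ u) (hv : 1 ≤ v) (a : Fin D → ℕ) : 0 < wt u v a := by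
  unfold wt
  apply prod_pos
  intro k _
  have : (0 : ℝ) < u := by exact_mod_cast hu
  have : (0 : ℝ) < v := by exact_mod_cast hv
  positivity

theorem wt_update {D : ℕ} (u v : ℕ) (a : Fin D → ℕ) (k : Fin D) (j : ℕ) :
    wt u v (Function.update a k j) * ((v : ℝ) / u) ^ a k = wt u v a * ((v : ℝ) / u) ^ j := by
  unfold wt
  rw [← mul_prod_erase univ (fun l => ((v : ℝ) / u) ^ (Function.update a k j) l) (mem_univ k),
    ← mul_prod_erase univ (fun l => ((v : ℝ) / u) ^ a l) (mem_univ k), Function.update_self]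
  have e : ∏ l ∈ univ.erase k, ((v : ℝ) / u) ^ (Function.update a k j) l = ∏ l ∈ univ.erase k, ((v : ℝ) / u) ^ a l := by
    apply prod_congr rfl
    intro l hl
    rw [Function.update_of_ne (ne_of_mem_erase hl)]
  rw [e]
  ring

theorem pt_update {D : ℕ} (u v : ℕ) (a : Fin D → ℕ) (γ : Fin D → ℤ) (k : Fin D) (x : ℤ) {l : Fin D} (hl : l ≠ k) :
    pt u v a (Function.update γ k x) l = pt u v a γ l := by
  unfold pt
  rw [Function.update_of_ne hl]

/-- the frequency as an integer -/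
def fr {D p : ℕ} (φ : (Fin D → ℤ) → ZMod p) (u v : ℕ) (a : Fin D → ℕ) (γ : Fin D → ℤ) : ℤ := (φ (pt u v a γ)).valMinAbs

variable {p : ℕ} [NeZero p]

theorem val_eq' {x : ZMod p} {n : ℤ} (h : (n : ZMod p) = x) (hn : 2 * |n| < p) : x.valMinAbs = n := by
  rw [ZMod.valMinAbs_spec]
  refine ⟨h.symm, ?_⟩
  rw [Set.mem_Ioc]
  have := neg_abs_le n
  have := le_abs_self n
  constructor <;> linarith

open Classical in
/-- one step of the path -/
theorem edge {d : ℕ} {φ : (Fin (d + 1) → ℤ) → ZMod p} {P : Finset (Fin (d + 1) → ℤ)} {K1 : ℝ} (hK1 : 1 ≤ K1) {k : Fin (d + 1)}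
    (hStr : Str k φ P K1) {R J : ℕ} (hRJ : R ^ 2 < J) (hsm : ∀ α ∈ P, |(((φ α).valMinAbs : ℤ) : ℝ)| * (4 * J) < p)
    {u v : ℕ} (hv : 1 ≤ v) (hvu : v ≤ u) (a : Fin (d + 1) → ℕ) (j : ℕ) (haR : u ^ a k ≤ R) (hjR : u ^ j ≤ R)
    {S : Finset (Fin (d + 1) → ℤ)} (hS : ∀ γ ∈ S, pt u v a γ ∈ P ∧ pt u v (Function.update a k j) γ ∈ P)
    {K2 : ℕ} (hK2 : (2 * (R : ℝ) ^ 2 + 1) * K1 ^ (2 * R ^ 2 + 1) ≤ K2) :
    ∃ S' ⊆ S, S.card ≤ K2 * S'.card ∧ Sp S' (fun γ => (fr φ u v (Function.update a k j) γ : ℝ) / wt u v (Function.update a k j)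
      - (fr φ u v a γ : ℝ) / wt u v a) := by
  set a' := Function.update a k j with ha'
  set i := a k with hi
  have haj : a' k = j := by rw [ha', Function.update_self]
  have hu1 : 1 ≤ u := by omega
  have hu0 : (0 : ℤ) < u := by exact_mod_cast hu1
  have hv0 : (0 : ℤ) < v := by exact_mod_cast hv
  set m := u ^ i * v ^ j with hm
  set n := u ^ j * v ^ i with hn
  have hviR : v ^ i ≤ R := (Nat.pow_le_pow_left hvu _).trans haR
  have hvjR : v ^ j ≤ R := (Nat.pow_le_pow_left hvu _).trans hjR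
  have hmR : m ≤ R ^ 2 := by rw [sq]; exact Nat.mul_le_mul haR hvjR
  have hnR : n ≤ R ^ 2 := by rw [sq]; exact Nat.mul_le_mul hjR hviR
  set z : (Fin (d + 1) → ℤ) → (Fin d → ℤ) := fun γ => k.removeNth (pt u v a γ) with hz
  set w : (Fin (d + 1) → ℤ) → ℤ := fun γ => m * fr φ u v a γ - n * fr φ u v a' γ with hw
  have hz' : ∀ γ, k.removeNth (pt u v a' γ) = z γ := by
    intro γ
    ext l
    simp only [hz, Fin.removeNth_apply]
    unfold pt
    rw [ha', Function.update_of_ne (Fin.succAbove_ne k l)]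
  have hw2 : ∀ γ ∈ S, 2 * |w γ| < p := by
    intro γ hγ
    have h1 := hsm _ (hS γ hγ).1
    have h2 := hsm _ (hS γ hγ).2
    have h1' : |fr φ u v a γ| * (4 * J) < p := by unfold fr; exact_mod_cast h1
    have h2' : |fr φ u v a' γ| * (4 * J) < p := by unfold fr; exact_mod_cast h2
    have hw1 : |w γ| ≤ m * |fr φ u v a γ| + n * |fr φ u v a' γ| := by
      simp only [hw]
      refine (abs_sub _ _).trans ?_
      rw [abs_mul, abs_mul, abs_of_nonneg (show (0 : ℤ) ≤ m from Int.natCast_nonneg _),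
        abs_of_nonneg (show (0 : ℤ) ≤ n from Int.natCast_nonneg _)]
    have hmJ : (m : ℤ) ≤ J := by exact_mod_cast (by omega : m ≤ J)
    have hnJ : (n : ℤ) ≤ J := by exact_mod_cast (by omega : n ≤ J)
    have g1 : (m : ℤ) * |fr φ u v a γ| ≤ J * |fr φ u v a γ| := mul_le_mul_of_nonneg_right hmJ (abs_nonneg _)
    have g2 : (n : ℤ) * |fr φ u v a' γ| ≤ J * |fr φ u v a' γ| := mul_le_mul_of_nonneg_right hnJ (abs_nonneg _)
    nlinarith
  -- the number of values
  have hcount : ∀ c, ((S.filter (fun γ => z γ = c)).image w).card ≤ K2 := by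
    intro c
    rcases (S.filter (fun γ => z γ = c)).eq_empty_or_nonempty with h0 | ⟨γ0, hγ0⟩
    · rw [h0]; simp
    have hlnne : (ln k φ P c).Nonempty := by
      rw [mem_filter] at hγ0
      refine ⟨(pt u v a γ0 k, φ (pt u v a γ0)), ?_⟩
      unfold ln
      rw [mem_image]
      exact ⟨pt u v a γ0, mem_filter.2 ⟨(hS γ0 hγ0.1).1, hγ0.2⟩, rfl⟩
    set V := (Icc (-((R ^ 2 : ℕ) : ℤ)) ((R ^ 2 : ℕ) : ℤ)).biUnion (fun e => univ.filter (fun y : ZMod p =>
      (e, y) ∈ m • ln k φ P c - n • ln k φ P c)) with hV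
    have h1 : ((S.filter (fun γ => z γ = c)).image w).card ≤ V.card := by
      apply card_le_card_of_injOn (fun x : ℤ => (x : ZMod p))
      · intro x hx
        rw [mem_coe, mem_image] at hx
        obtain ⟨γ, hγ, rfl⟩ := hx
        rw [mem_filter] at hγ
        rw [mem_coe, hV, mem_biUnion]
        refine ⟨m * pt u v a γ k - n * pt u v a' γ k, ?_, ?_⟩
        · have e1 := Int.emod_add_mul_ediv ((v : ℤ) ^ i * γ k) ((u : ℤ) ^ i)
          have e2 := Int.emod_nonneg ((v : ℤ) ^ i * γ k) (show (u : ℤ) ^ i ≠ 0 by positivity)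
          have e3 := Int.emod_lt_of_pos ((v : ℤ) ^ i * γ k) (show (0 : ℤ) < (u : ℤ) ^ i by positivity)
          have e4 := Int.emod_add_mul_ediv ((v : ℤ) ^ j * γ k) ((u : ℤ) ^ j)
          have e5 := Int.emod_nonneg ((v : ℤ) ^ j * γ k) (show (u : ℤ) ^ j ≠ 0 by positivity)
          have e6 := Int.emod_lt_of_pos ((v : ℤ) ^ j * γ k) (show (0 : ℤ) < (u : ℤ) ^ j by positivity)
          have e7 : pt u v a γ k = ((v : ℤ) ^ i * γ k) / (u : ℤ) ^ i := rfl
          have e8 : pt u v a' γ k = ((v : ℤ) ^ j * γ k) / (u : ℤ) ^ j := by unfold pt; rw [haj]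
          rw [← e7] at e1
          rw [← e8] at e4
          set r := ((v : ℤ) ^ i * γ k) % (u : ℤ) ^ i
          set r' := ((v : ℤ) ^ j * γ k) % (u : ℤ) ^ j
          set A := pt u v a γ k
          set B := pt u v a' γ k
          have e9 : (m : ℤ) * A - n * B = (v : ℤ) ^ i * r' - (v : ℤ) ^ j * r := by
            have f1 : (u : ℤ) ^ i * A = (v : ℤ) ^ i * γ k - r := by linarith
            have f2 : (u : ℤ) ^ j * B = (v : ℤ) ^ j * γ k - r' := by linarith
            rw [hm, hn]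
            push_cast
            calc (u : ℤ) ^ i * (v : ℤ) ^ j * A - (u : ℤ) ^ j * (v : ℤ) ^ i * B
                = (v : ℤ) ^ j * ((u : ℤ) ^ i * A) - (v : ℤ) ^ i * ((u : ℤ) ^ j * B) := by ring
              _ = _ := by rw [f1, f2]; ring
          have g1 : (v : ℤ) ^ i ≤ R := by exact_mod_cast hviR
          have g2 : (v : ℤ) ^ j ≤ R := by exact_mod_cast hvjR
          have g3 : (u : ℤ) ^ i ≤ R := by exact_mod_cast haR
          have g4 : (u : ℤ) ^ j ≤ R := by exact_mod_cast hjR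
          have g5 : (0 : ℤ) < (v : ℤ) ^ i := by positivity
          have g6 : (0 : ℤ) < (v : ℤ) ^ j := by positivity
          have g7 : (v : ℤ) ^ i * r' ≤ R * R := mul_le_mul g1 (by linarith) e5 (by positivity)
          have g8 : (v : ℤ) ^ j * r ≤ R * R := mul_le_mul g2 (by linarith) e2 (by positivity)
          have g9 : 0 ≤ (v : ℤ) ^ i * r' := by positivity
          have g10 : 0 ≤ (v : ℤ) ^ j * r := by positivity
          rw [e9, mem_Icc]
          push_cast
          constructor <;> nlinarith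
        · rw [mem_filter]
          refine ⟨mem_univ _, ?_⟩
          have g1 : (((m : ℤ) * pt u v a γ k - n * pt u v a' γ k, ((w γ : ℤ) : ZMod p)) : ℤ × ZMod p)
              = m • (pt u v a γ k, φ (pt u v a γ)) - n • (pt u v a' γ k, φ (pt u v a' γ)) := by
            rw [Prod.smul_mk, Prod.smul_mk, Prod.mk_sub_mk, Prod.mk.injEq]
            constructor
            · simp
            · simp only [hw, fr]
              simp
          rw [g1]
          apply sub_mem_sub
          · apply nsmul_mem_nsmul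
            unfold ln
            rw [mem_image]
            exact ⟨pt u v a γ, mem_filter.2 ⟨(hS γ hγ.1).1, hγ.2⟩, rfl⟩
          · apply nsmul_mem_nsmul
            unfold ln
            rw [mem_image]
            exact ⟨pt u v a' γ, mem_filter.2 ⟨(hS γ hγ.1).2, (hz' γ).trans hγ.2⟩, rfl⟩
      · intro x hx y hy hxy
        rw [mem_coe, mem_image] at hx hy
        obtain ⟨γ, hγ, rfl⟩ := hx
        obtain ⟨γ', hγ', rfl⟩ := hy
        rw [mem_filter] at hγ hγ'
        have g1 := val_eq' (p := p) (x := ((w γ : ℤ) : ZMod p)) rfl (hw2 γ hγ.1)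
        have g2 := val_eq' (p := p) (x := ((w γ : ℤ) : ZMod p)) hxy.symm (hw2 γ' hγ'.1)
        rw [← g1, g2]
    have h2 : (V.card : ℝ) ≤ K2 := by
      refine le_trans ?_ hK2
      have h3 : (V.card : ℝ) ≤ ∑ e ∈ Icc (-((R ^ 2 : ℕ) : ℤ)) ((R ^ 2 : ℕ) : ℤ),
          ((univ.filter (fun y : ZMod p => (e, y) ∈ m • ln k φ P c - n • ln k φ P c)).card : ℝ) := by
        have := card_biUnion_le (s := Icc (-((R ^ 2 : ℕ) : ℤ)) ((R ^ 2 : ℕ) : ℤ)) (t := fun e => univ.filter (fun y : ZMod p =>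
          (e, y) ∈ m • ln k φ P c - n • ln k φ P c))
        rw [← hV] at this
        exact_mod_cast this
      refine h3.trans ((sum_le_card_nsmul _ _ _ (fun e _ => cfd.le.trans (hStr c hlnne m n e))).trans ?_)
      rw [nsmul_eq_mul, Int.card_Icc]
      have h4 : (((R ^ 2 : ℕ) : ℤ) + 1 - -((R ^ 2 : ℕ) : ℤ)).toNat = 2 * R ^ 2 + 1 := by
        generalize R ^ 2 = Y
        omega
      rw [h4]
      push_cast
      apply mul_le_mul_of_nonneg_left _ (by positivity)
      exact pow_le_pow_right₀ hK1 (by omega)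
    have h3 : ((S.filter (fun γ => z γ = c)).image w).card ≤ K2 := h1.trans (by exact_mod_cast h2)
    exact h3
  obtain ⟨pop, S', hS', hS'c, hpop⟩ := select S z w K2 (fun c => cif.le.trans (hcount c))
  refine ⟨S', hS', hS'c, ?_⟩
  have huR : (0 : ℝ) < u := by exact_mod_cast hu1
  have hvR : (0 : ℝ) < v := by exact_mod_cast hv
  have hwp := wt_pos hu1 hv a
  have hwp' := wt_pos hu1 hv a'
  have hnpos : (0 : ℝ) < n := by rw [hn]; push_cast; positivity
  have hwt := wt_update u v a k j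
  rw [← ha', ← hi] at hwt
  refine (Sp.single S' k (F := fun γ => -((pop (z γ) : ℤ) : ℝ) / (n * wt u v a')) ?_).congr ?_
  · intro γ x
    have : z (Function.update γ k x) = z γ := by
      simp only [hz]
      ext l
      rw [Fin.removeNth_apply, Fin.removeNth_apply, pt_update _ _ _ _ _ _ (Fin.succAbove_ne k l)]
    simp only [this]
  · intro γ hγ
    have h1 := hpop γ hγ
    simp only [← h1, hw]
    push_cast
    have h2 : (m : ℝ) / (n * wt u v a') = 1 / wt u v a := by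
      rw [div_eq_div_iff (by positivity) (by positivity), hm, hn]
      push_cast
      have h3 : wt u v a' * ((v : ℝ) ^ i * (u : ℝ) ^ j) = wt u v a * ((v : ℝ) ^ j * (u : ℝ) ^ i) := by
        rw [div_pow, div_pow] at hwt
        field_simp at hwt
        linarith
      linarith
    have h4 : (fr φ u v a γ : ℝ) / wt u v a = m * fr φ u v a γ / (n * wt u v a') := by
      have : (fr φ u v a γ : ℝ) / wt u v a = fr φ u v a γ * (1 / wt u v a) := by ring
      rw [this, ← h2]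
      ring
    have h5 : (fr φ u v a' γ : ℝ) / wt u v a' = n * fr φ u v a' γ / (n * wt u v a') := by
      field_simp
    rw [h4, h5]
    ring

/-- a path with a given number of steps -/
def RN {D : ℕ} (E : Finset (Fin D → ℕ)) : ℕ → (Fin D → ℕ) → (Fin D → ℕ) → Prop
  | 0, a, b => a = b
  | n + 1, a, b => ∃ c, RN E n a c ∧ Ad E c b

omit [NeZero p] in
theorem Rc.exists_RN {D : ℕ} {E : Finset (Fin D → ℕ)} {a b : Fin D → ℕ} (h : Rc E a b) : ∃ n, RN E n a b := by
  unfold Rc at h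
  induction h with
  | refl => exact ⟨0, rfl⟩
  | tail _ h2 ih =>
    obtain ⟨n, hn⟩ := ih
    exact ⟨n + 1, _, hn, h2⟩

open Classical in
theorem RN_bound (D L : ℕ) : ∃ N : ℕ, ∀ E ⊆ gr D L, ∀ a ∈ gr D L, ∀ b ∈ gr D L, Rc E a b → ∃ n ≤ N, RN E n a b := by
  set f : Finset (Fin D → ℕ) × (Fin D → ℕ) × (Fin D → ℕ) → ℕ := fun q => if h : ∃ n, RN q.1 n q.2.1 q.2.2 then h.choose else 0 with hf
  refine ⟨((gr D L).powerset ×ˢ gr D L ×ˢ gr D L).sup f, fun E hE a ha b hb h => ?_⟩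
  have h1 := h.exists_RN
  refine ⟨f (E, a, b), ?_, ?_⟩
  · exact Finset.le_sup (f := f) (by rw [mem_product, mem_product, mem_powerset]; exact ⟨hE, ha, hb⟩)
  · simp only [hf]
    rw [dif_pos h1]
    exact h1.choose_spec

/-- the frequencies along a path -/
theorem path {d : ℕ} {φ : (Fin (d + 1) → ℤ) → ZMod p} {P : Finset (Fin (d + 1) → ℤ)} {K1 : ℝ} (hK1 : 1 ≤ K1)
    (hStr : ∀ k, Str k φ P K1) {R J : ℕ} (hRJ : R ^ 2 < J) (hsm : ∀ α ∈ P, |(((φ α).valMinAbs : ℤ) : ℝ)| * (4 * J) < p)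
    {u v : ℕ} (hv : 1 ≤ v) (hvu : v ≤ u) {L : ℕ} (huR : u ^ (2 * L) ≤ R) {E : Finset (Fin (d + 1) → ℕ)} (hE : E ⊆ gr (d + 1) L)
    {K2 : ℕ} (hK2 : (2 * (R : ℝ) ^ 2 + 1) * K1 ^ (2 * R ^ 2 + 1) ≤ K2) (n : ℕ) : ∀ {y y' : Fin (d + 1) → ℕ}, RN E n y y' →
    ∀ {S : Finset (Fin (d + 1) → ℤ)}, (∀ γ ∈ S, ∀ e ∈ E, pt u v (fun k => e k + L) γ ∈ P) →
    ∃ S' ⊆ S, S.card ≤ K2 ^ n * S'.card ∧ Sp S' (fun γ => (fr φ u v (fun k => y' k + L) γ : ℝ) / wt u v (fun k => y' k + L)
      - (fr φ u v (fun k => y k + L) γ : ℝ) / wt u v (fun k => y k + L)) := by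
  induction n with
  | zero =>
    intro y y' h S hS
    obtain rfl : y = y' := h
    refine ⟨S, subset_rfl, by simp, ?_⟩
    exact (Sp.zero S).congr (fun γ _ => by ring)
  | succ n ih =>
    intro y y' h S hS
    obtain ⟨c, hc, hcE, hyE, k, i, rfl⟩ := h
    obtain ⟨S1, hS1, hS1c, hsp1⟩ := ih hc hS
    have hu1 : 1 ≤ u := by omega
    have e1 : (fun l => Function.update c k i l + L) = Function.update (fun l => c l + L) k (i + L) := by
      ext l
      by_cases hl : l = k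
      · subst hl; simp
      · simp [Function.update_of_ne hl]
    have hcL := mem_gr.1 (hE hcE) k
    have hiL := mem_gr.1 (hE hyE) k
    rw [Function.update_self] at hiL
    obtain ⟨S2, hS2, hS2c, hsp2⟩ := edge (p := p) hK1 (hStr k) hRJ hsm hv hvu (fun l => c l + L) (i + L)
      ((Nat.pow_le_pow_right hu1 (by omega)).trans huR) ((Nat.pow_le_pow_right hu1 (by omega)).trans huR) (S := S1)
      (fun γ hγ => ⟨hS γ (hS1 hγ) c hcE, by
        have := hS γ (hS1 hγ) _ hyE
        rw [e1] at this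
        exact this⟩) hK2
    refine ⟨S2, hS2.trans hS1, ?_, ?_⟩
    · calc S.card ≤ K2 ^ n * S1.card := hS1c
        _ ≤ K2 ^ n * (K2 * S2.card) := Nat.mul_le_mul_left _ hS2c
        _ = _ := by ring
    · rw [e1]
      refine ((hsp1.mono hS2).add hsp2).congr (fun γ _ => ?_)
      ring

end Pool.Agent.W36.GK
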