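import Pool.Agent.W36.GK.K8

/-! Transport of the frequencies along the diagonals. -/

set_option autoImplicit false

namespace Pool.Agent.W36.GK

open Finset Pool.Agent.W36.GU Pool.Agent.W36.GV

/-- the numerical conditions -/
structure Num (d : ℕ) (σ κ : ℝ) (C R J X : ℕ) : Prop where
  hσ : 0 < σ
  hκ : 0 ≤ κ
  hκR : 4 ^ (d + 1) * (80 * R * κ) ≤ σ
  hX1 : 4 ^ (d + 1) * (120 * (R : ℝ) ^ 2) ≤ σ * X
  hX2 : 4 ^ (d + 1) * (40 * (J : ℝ)) ≤ σ * X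
  hC : 160 ≤ σ * C
  hC1 : 4 ≤ C
  hJ : 200 * (R : ℝ) ≤ σ * J
  hRJ : R ^ 2 < J
  hR : 1 ≤ R
  hJX : J ≤ X
  hX : 2 ≤ X

theorem Num.loc {d : ℕ} {σ κ : ℝ} {C R J X : ℕ} (h : Num d σ κ C R J X) : 4 ^ (d + 1) * (κ * X + 2 * J) ≤ σ / 10 * X := by
  have h4 : (0 : ℝ) < 4 ^ (d + 1) := by positivity
  have hR : (1 : ℝ) ≤ R := by exact_mod_cast h.hR
  have hX : (0 : ℝ) ≤ X := Nat.cast_nonneg _
  have h1 : 4 ^ (d + 1) * (80 * κ) ≤ σ := by
    refine le_trans ?_ h.hκR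
    apply mul_le_mul_of_nonneg_left _ h4.le
    have := mul_le_mul_of_nonneg_right hR h.hκ
    nlinarith [h.hκ]
  have h2 := mul_le_mul_of_nonneg_right h1 hX
  have h3 := h.hX2
  nlinarith

variable {p : ℕ} [NeZero p]

theorem small_freq {d : ℕ} {f : ℤ → ℝ} (hf : B1 f) {M N X : ℕ} (hN : N ≤ X) {σ κ : ℝ} {C R J : ℕ} (hn : Num d σ κ C R J X)
    (hloc : ∀ j : ℕ, j ≤ J → ∑ n ∈ Icc (1 : ℤ) X, |f (n + j) - f n| ≤ κ * X) {h : Fin (d + 1) → ℤ} {ξ : ZMod p}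
    (hA : σ * X ≤ ‖ht p X (Dl (d + 1) (win M N f) h) ξ‖) : |(ξ.valMinAbs : ℝ)| * (4 * J) < p := by
  have hwB : B1 (win M N f) := win_abs hf M N
  have hLc := win_Lc hf (M := M) hN hloc
  have hX0 : (0 : ℝ) < X := by exact_mod_cast (by have := hn.hX; omega : 0 < X)
  refine ht_small (Dl_sup (d + 1) (win_sup f M hN) h) (by have := hn.hRJ; omega) hn.hJX (Lc.Dl (d + 1) hLc hwB h) ?_ hA
  have h1 := hn.loc
  have h2 : (2 : ℝ) ^ (d + 1) * (κ * X + 2 * J) ≤ 4 ^ (d + 1) * (κ * X + 2 * J) := by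
    apply mul_le_mul_of_nonneg_right (pow_le_pow_left₀ (by norm_num) (by norm_num) _)
    have := hn.hκ
    positivity
  have h3 : σ / 10 * X < σ * X := by
    apply mul_lt_mul_of_pos_right _ hX0
    linarith [hn.hσ]
  linarith

/-- the transported frequency is in the spectrum of the target -/
theorem push {d : ℕ} {f : ℤ → ℝ} (hf : B1 f) {M N X : ℕ} (hMN : M ≤ N) (hN : N ≤ X) {σ κ : ℝ} {C R J : ℕ} (hn : Num d σ κ C R J X)
    (hp : p = C * X) (hloc : ∀ j : ℕ, j ≤ J → ∑ n ∈ Icc (1 : ℤ) X, |f (n + j) - f n| ≤ κ * X)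
    {u v Q t : ℕ} (hv : 1 ≤ v) (hvu : v ≤ u) (huR : u ^ t ≤ R) (hvQ : v ^ t ∣ Q) (hQR : Q * R ≤ J)
    (hη : 4 ^ (d + 1) * (40 * (1 - (v ^ t : ℕ) / ((u ^ t : ℕ) : ℝ))) ≤ σ)
    (hdu : ∑ n ∈ Icc (1 : ℤ) X, |f ((u ^ t : ℕ) * n) - f n| ≤ κ * X) (hdv : ∑ n ∈ Icc (1 : ℤ) X, |f ((v ^ t : ℕ) * n) - f n| ≤ κ * X)
    (a : Fin (d + 1) → ℕ) (ht' : ∀ k, t ≤ a k) (γ : Fin (d + 1) → ℤ) (ξ : ZMod p)
    (hA : σ * X ≤ ‖ht p X (Dl (d + 1) (win M N f) (fun i => Q * pt u v a γ i)) ξ‖) :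
    σ / 2 * X ≤ ‖ht p X (Dl (d + 1) (win M N f) (fun i => Q * pt u v (fun k => a k - t) γ i))
      ((dfr (u ^ t) (v ^ t) ξ.valMinAbs : ℤ) : ZMod p)‖ := by
  have hp0 : (0 : ℝ) < p := by exact_mod_cast NeZero.pos p
  have hσ := hn.hσ
  have hR1 := hn.hR
  have hJ1 : 1 ≤ J := by have := hn.hRJ; omega
  have hX1 := hn.hX
  have hXR : (2 : ℝ) ≤ X := by exact_mod_cast hX1
  have hRR : (1 : ℝ) ≤ R := by exact_mod_cast hR1
  have hJR : (1 : ℝ) ≤ J := by exact_mod_cast hJ1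
  have hu1 : 1 ≤ u := by omega
  have hut : 1 ≤ u ^ t := Nat.one_le_pow _ _ hu1
  have hvt : 1 ≤ v ^ t := Nat.one_le_pow _ _ hv
  have hvut : v ^ t ≤ u ^ t := Nat.pow_le_pow_left hvu _
  have hwB : B1 (win M N f) := win_abs hf M N
  have hLc := win_Lc hf (M := M) hN hloc
  have hfs := small_freq (p := p) hf (M := M) hN hn hloc hA
  set x := ξ.valMinAbs with hx
  set x' := dfr (u ^ t) (v ^ t) x with hx'
  have hpX : (p : ℝ) = C * X := by rw [hp]; push_cast; ring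
  have hpJ : 4 * (J : ℝ) ≤ p := by
    rw [hpX]
    have h1 : (4 : ℝ) ≤ C := by exact_mod_cast hn.hC1
    have h2 : (J : ℝ) ≤ X := by exact_mod_cast hn.hJX
    nlinarith
  have hRJ2 : R ≤ J := by have := hn.hRJ; nlinarith
  have hρ : Real.pi * R ≤ J * (σ / 60) := by
    have := Real.pi_lt_d2
    have := hn.hJ
    nlinarith
  have hr := psi_small (p := p) (x := x) (J := J) (R := R) (ρ := σ / 60) hJ1 (by
    have := abs_nonneg (x : ℝ)
    nlinarith) hρ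
  have hx'1 : |(x' : ℝ)| ≤ |(x : ℝ)| + 1 := by
    have := dfr_abs hut hvut x
    have h2 : ((|dfr (u ^ t) (v ^ t) x| : ℤ) : ℝ) ≤ ((|x| + 1 : ℤ) : ℝ) := by exact_mod_cast this
    push_cast at h2
    exact h2
  have hr' := psi_small (p := p) (x := x') (J := J) (R := R) (ρ := σ / 60) hJ1 (by
    have h1 : |(x' : ℝ)| * (2 * J) ≤ (|(x : ℝ)| + 1) * (2 * J) := mul_le_mul_of_nonneg_right hx'1 (by positivity)
    nlinarith) hρ
  obtain ⟨w, hw⟩ := hvQ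
  have hd := dil_k (p := p) hf hMN hN hvt hvut (κ := κ) (ρ := σ / 60) hn.hκ (by positivity) (fun j hj => hloc j (by omega)) hdu hdv
    (d + 1) (fun i => w * pt u v a γ i) x x' (dfr_spec hut (v ^ t) x) (fun i hi => hr i (by omega)) (fun i hi => hr' i (by omega))
  have e1 : (fun i => ((v ^ t : ℕ) : ℤ) * (w * pt u v a γ i)) = fun i => (Q : ℤ) * pt u v a γ i := by
    ext i; rw [hw]; push_cast; ring
  have e2 : ((x : ℤ) : ZMod p) = ξ := by rw [hx, ZMod.coe_valMinAbs]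
  rw [e1, e2] at hd
  -- the shift
  have hdiff : ∀ k, |((u ^ t : ℕ) : ℤ) * (w * pt u v a γ k) - Q * pt u v (fun k => a k - t) γ k| ≤ J := by
    intro k
    obtain ⟨b, hb⟩ := Nat.exists_eq_add_of_le (ht' k)
    have hu0 : (0 : ℤ) < u := by exact_mod_cast hu1
    have hv0 : (0 : ℤ) < v := by exact_mod_cast hv
    have f1 := Int.emod_add_mul_ediv ((v : ℤ) ^ a k * γ k) ((u : ℤ) ^ a k)
    have f2 := Int.emod_nonneg ((v : ℤ) ^ a k * γ k) (show (u : ℤ) ^ a k ≠ 0 by positivity)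
    have f3 := Int.emod_lt_of_pos ((v : ℤ) ^ a k * γ k) (show (0 : ℤ) < (u : ℤ) ^ a k by positivity)
    have f4 := Int.emod_add_mul_ediv ((v : ℤ) ^ b * γ k) ((u : ℤ) ^ b)
    have f5 := Int.emod_nonneg ((v : ℤ) ^ b * γ k) (show (u : ℤ) ^ b ≠ 0 by positivity)
    have f6 := Int.emod_lt_of_pos ((v : ℤ) ^ b * γ k) (show (0 : ℤ) < (u : ℤ) ^ b by positivity)
    have hbk : a k - t = b := by omega
    have f7 : pt u v a γ k = ((v : ℤ) ^ a k * γ k) / (u : ℤ) ^ a k := rfl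
    have f8 : pt u v (fun k => a k - t) γ k = ((v : ℤ) ^ b * γ k) / (u : ℤ) ^ b := by
      show ((v : ℤ) ^ (a k - t) * γ k) / (u : ℤ) ^ (a k - t) = _
      rw [hbk]
    rw [← f7] at f1
    rw [← f8] at f4
    set r := ((v : ℤ) ^ a k * γ k) % (u : ℤ) ^ a k
    set s := ((v : ℤ) ^ b * γ k) % (u : ℤ) ^ b
    set A := pt u v a γ k
    set B := pt u v (fun k => a k - t) γ k
    have hub : (0 : ℤ) < (u : ℤ) ^ b := by positivity
    have huu : (u : ℤ) ^ a k = (u : ℤ) ^ t * (u : ℤ) ^ b := by rw [hb, pow_add]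
    have hvv : (v : ℤ) ^ a k = (v : ℤ) ^ t * (v : ℤ) ^ b := by rw [hb, pow_add]
    have g1 : (u : ℤ) ^ b * ((u : ℤ) ^ t * A - (v : ℤ) ^ t * B) = (v : ℤ) ^ t * s - r := by
      rw [huu, hvv] at f1
      linear_combination f1 - (v : ℤ) ^ t * f4
    have g2 : |(u : ℤ) ^ t * A - (v : ℤ) ^ t * B| ≤ (u : ℤ) ^ t := by
      have g3 : |(u : ℤ) ^ b * ((u : ℤ) ^ t * A - (v : ℤ) ^ t * B)| ≤ (u : ℤ) ^ b * (u : ℤ) ^ t := by
        rw [g1]
        have g4 : (v : ℤ) ^ t ≤ (u : ℤ) ^ t := by exact_mod_cast hvut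
        have g5 : 0 ≤ (v : ℤ) ^ t * s := by positivity
        have g6 : (v : ℤ) ^ t * s ≤ (u : ℤ) ^ t * (u : ℤ) ^ b := mul_le_mul g4 f6.le f5 (by positivity)
        rw [huu] at f3
        rw [abs_le]
        constructor <;> nlinarith
      rw [abs_mul, abs_of_pos hub] at g3
      exact le_of_mul_le_mul_left g3 hub
    have g3 : ((u ^ t : ℕ) : ℤ) * (w * A) - Q * B = w * ((u : ℤ) ^ t * A - (v : ℤ) ^ t * B) := by
      rw [hw]; push_cast; ring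
    rw [g3, abs_mul, abs_of_nonneg (show (0 : ℤ) ≤ w from Int.natCast_nonneg _)]
    have g4 : (w : ℤ) ≤ Q := by
      have : w ≤ Q := by rw [hw]; exact Nat.le_mul_of_pos_left _ hvt
      exact_mod_cast this
    have g5 : (u : ℤ) ^ t ≤ R := by exact_mod_cast huR
    have g6 : ((Q * R : ℕ) : ℤ) ≤ J := by exact_mod_cast hQR
    push_cast at g6
    calc (w : ℤ) * |(u : ℤ) ^ t * A - (v : ℤ) ^ t * B| ≤ Q * R :=
          mul_le_mul g4 (g2.trans g5) (abs_nonneg _) (Int.natCast_nonneg _)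
      _ ≤ J := g6
  have hs := ht_close' (p := p) (Dl_shift (d + 1) hLc hwB (fun i => Q * pt u v (fun k => a k - t) γ i)
    (fun i => ((u ^ t : ℕ) : ℤ) * (w * pt u v a γ i)) hdiff) X ((x' : ℤ) : ZMod p)
  have huRR : ((u ^ t : ℕ) : ℝ) ≤ R := by exact_mod_cast huR
  have hu0 : (0 : ℝ) ≤ ((u ^ t : ℕ) : ℝ) := Nat.cast_nonneg _
  set U : ℝ := ((u ^ t : ℕ) : ℝ) with hU
  have hpi : Real.pi * X ^ 2 / p ≤ σ / 50 * X := by
    rw [div_le_iff₀ hp0, hpX]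
    have h1 := Real.pi_lt_d2
    have h2 : Real.pi ≤ σ / 50 * C := by linarith [hn.hC]
    have h3 := mul_le_mul_of_nonneg_right h2 (show (0 : ℝ) ≤ X ^ 2 by positivity)
    linarith
  have h24 : (2 : ℝ) ^ (d + 1) ≤ 4 ^ (d + 1) := pow_le_pow_left₀ (by norm_num) (by norm_num) _
  have h4p : (0 : ℝ) < 4 ^ (d + 1) := by positivity
  have h2p : (0 : ℝ) < 2 ^ (d + 1) := by positivity
  have hηnn : 0 ≤ 1 - (v ^ t : ℕ) / U := by
    rw [sub_nonneg, div_le_one (by rw [hU]; exact_mod_cast hut)]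
    rw [hU]; exact_mod_cast hvut
  have hX0 : (0 : ℝ) ≤ X := by linarith
  have hκ := hn.hκ
  have hκX : 0 ≤ κ * X := by positivity
  have t1 : (2 : ℝ) ^ (d + 1) * (4 * U * (κ * X)) ≤ σ / 20 * X := by
    calc (2 : ℝ) ^ (d + 1) * (4 * U * (κ * X)) ≤ 4 ^ (d + 1) * (4 * R * (κ * X)) := by
          apply mul_le_mul h24 _ (by positivity) h4p.le
          exact mul_le_mul_of_nonneg_right (by linarith) hκX
      _ = (4 ^ (d + 1) * (80 * R * κ)) / 20 * X := by ring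
      _ ≤ σ / 20 * X := by
          apply mul_le_mul_of_nonneg_right _ hX0
          linarith [hn.hκR]
  have t2 : (2 : ℝ) ^ (d + 1) * (6 * U ^ 2) ≤ σ / 20 * X := by
    calc (2 : ℝ) ^ (d + 1) * (6 * U ^ 2) ≤ 4 ^ (d + 1) * (6 * (R : ℝ) ^ 2) := by
          apply mul_le_mul h24 _ (by positivity) h4p.le
          have := pow_le_pow_left₀ hu0 huRR 2
          linarith
      _ ≤ _ := by linarith [hn.hX1]
  have t3 : (2 : ℝ) ^ (d + 1) * (2 * (X * (1 - (v ^ t : ℕ) / U))) ≤ σ / 20 * X := by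
    calc (2 : ℝ) ^ (d + 1) * (2 * (X * (1 - (v ^ t : ℕ) / U))) ≤ 4 ^ (d + 1) * (2 * (X * (1 - (v ^ t : ℕ) / U))) :=
          mul_le_mul_of_nonneg_right h24 (by positivity)
      _ = (4 ^ (d + 1) * (40 * (1 - (v ^ t : ℕ) / U))) / 20 * X := by ring
      _ ≤ σ / 20 * X := by
          apply mul_le_mul_of_nonneg_right _ hX0
          linarith
  have t4 := hn.loc
  have t5 : 2 ^ (d + 1) * (4 * U * (κ * X) + 6 * U ^ 2 + 2 * (X * (1 - (v ^ t : ℕ) / U))) ≤ 3 * (σ / 20 * X) := by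
    have : 2 ^ (d + 1) * (4 * U * (κ * X) + 6 * U ^ 2 + 2 * (X * (1 - (v ^ t : ℕ) / U)))
      = 2 ^ (d + 1) * (4 * U * (κ * X)) + 2 ^ (d + 1) * (6 * U ^ 2) + 2 ^ (d + 1) * (2 * (X * (1 - (v ^ t : ℕ) / U))) := by ring
    rw [this]; linarith
  have hσX : 0 ≤ σ * X := by positivity
  linarith

end Pool.Agent.W36.GK
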